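import Mathlib

set_option autoImplicit false

namespace Pool.Agent.Helper35.YG

/-- `π : Ω → X ⊆ V` is a connected covering of the graph `(X, Adj)` by the graph `(Ω, E)` in which
triangles lift -/
structure Cover {V Ω : Type*} (X : Set V) (Adj : V → V → Prop) (E : Ω → Ω → Prop) (π : Ω → V) :
    Prop where
  mem : ∀ ω, π ω ∈ X
  symm : ∀ ω ω', E ω ω' → E ω' ω
  adj : ∀ ω ω', E ω ω' → Adj (π ω) (π ω')
  lift : ∀ ω, ∀ v ∈ X, Adj (π ω) v → ∃ ω', E ω ω' ∧ π ω' = v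
  uniq : ∀ ω ω₁ ω₂, E ω ω₁ → E ω ω₂ → π ω₁ = π ω₂ → ω₁ = ω₂
  tri : ∀ ω ω₁ ω₂, E ω ω₁ → E ω₁ ω₂ → Adj (π ω) (π ω₂) → E ω ω₂
  conn : ∀ ω ω', Relation.ReflTransGen E ω ω'

/-- distance at most two -/
def Near {Ω : Type*} (E : Ω → Ω → Prop) (ω ω' : Ω) : Prop :=
  ω = ω' ∨ E ω ω' ∨ ∃ x, E ω x ∧ E x ω'

section
variable {V Ω : Type*} {X : Set V} {Adj : V → V → Prop} {E : Ω → Ω → Prop} {π : Ω → V}

/-- The covering lemma. `Bad v w` means that `w` is a bad partner of `v`. -/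
theorem cover_injective (hc : Cover X Adj E π) (Bad : V → V → Prop)
    (irr : ∀ v ∈ X, ¬ Adj v v) (symm : ∀ v w, Adj v w → Adj w v)
    (hbad : ∀ v w, Adj v w → ¬ Bad v w)
    (NS : ∀ ω₀ ω₁ ω₂ ω₃, E ω₀ ω₁ → E ω₁ ω₂ → E ω₂ ω₃ → ¬ Bad (π ω₀) (π ω₃) → Near E ω₀ ω₃)
    (hW : ∀ v₀ ∈ X, ∀ v₁ ∈ X, ∀ v₂ ∈ X, ∀ v₄ ∈ X, Adj v₀ v₁ → Adj v₁ v₂ → Bad v₁ v₄ →
      ∃ w ∈ X, Adj v₀ w ∧ Adj w v₂ ∧ ¬ Bad w v₄) :
    Function.Injective π := by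
  -- common facts
  have wu : ∀ ω ω₁ ω₂, E ω ω₁ → E ω₁ ω₂ → π ω = π ω₂ → ω = ω₂ := fun ω ω₁ ω₂ h1 h2 h =>
    hc.uniq ω₁ ω ω₂ (hc.symm _ _ h1) h2 h
  -- closing four-cycles
  have close4 : ∀ ω₀ ω₁ ω₂ ωw, E ω₀ ω₁ → E ω₁ ω₂ → E ω₀ ωw → Adj (π ωw) (π ω₂) → E ωw ω₂ := by
    intro ω₀ ω₁ ω₂ ωw h01 h12 h0w hadj
    obtain ⟨ω', h', hπ⟩ := hc.lift ωw (π ω₂) (hc.mem _) hadj
    have hA : Adj (π ω₁) (π ω') := by rw [hπ]; exact hc.adj _ _ h12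
    have hN := NS ω₁ ω₀ ωw ω' (hc.symm _ _ h01) h0w h' (hbad _ _ hA)
    have h1' : E ω₁ ω' := by
      rcases hN with h | h | ⟨x, hx1, hx2⟩
      · exact absurd (h ▸ hA) (irr _ (hc.mem _))
      · exact h
      · exact hc.tri _ _ _ hx1 hx2 hA
    have : ω' = ω₂ := hc.uniq ω₁ _ _ h1' h12 hπ
    rwa [← this]
  -- distance at most three
  have key : ∀ ω₀ ω, Near E ω₀ ω ∨ ∃ ω₁ ω₂, E ω₀ ω₁ ∧ E ω₁ ω₂ ∧ E ω₂ ω := by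
    intro ω₀ ω
    have h := hc.conn ω₀ ω
    induction h with
    | refl => exact Or.inl (Or.inl rfl)
    | @tail ω₃ ω₄ _ h34 ih =>
      rcases ih with (rfl | h | ⟨x, hx1, hx2⟩) | ⟨ω₁, ω₂, h01, h12, h23⟩
      · exact Or.inl (Or.inr (Or.inl h34))
      · exact Or.inl (Or.inr (Or.inr ⟨_, h, h34⟩))
      · exact Or.inr ⟨_, _, hx1, hx2, h34⟩
      · -- a walk of length four
        by_cases hb : Bad (π ω₁) (π ω₄)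
        · obtain ⟨w, hw, h0w, hw2, hnb⟩ := hW (π ω₀) (hc.mem _) (π ω₁) (hc.mem _) (π ω₂) (hc.mem _)
            (π ω₄) (hc.mem _) (hc.adj _ _ h01) (hc.adj _ _ h12) hb
          obtain ⟨ωw, hωw, rfl⟩ := hc.lift ω₀ w hw h0w
          have hw2' := close4 ω₀ ω₁ ω₂ ωw h01 h12 hωw hw2
          rcases NS ωw ω₂ ω₃ ω₄ hw2' h23 h34 hnb with h | h | ⟨x, hx1, hx2⟩
          · exact Or.inl (Or.inr (Or.inl (h ▸ hωw)))
          · exact Or.inl (Or.inr (Or.inr ⟨_, hωw, h⟩))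
          · exact Or.inr ⟨_, _, hωw, hx1, hx2⟩
        · rcases NS ω₁ ω₂ ω₃ ω₄ h12 h23 h34 hb with h | h | ⟨x, hx1, hx2⟩
          · exact Or.inl (Or.inr (Or.inl (h ▸ h01)))
          · exact Or.inl (Or.inr (Or.inr ⟨_, h01, h⟩))
          · exact Or.inr ⟨_, _, h01, hx1, hx2⟩
  intro ω ω' hπ
  rcases key ω ω' with (h | h | ⟨x, hx1, hx2⟩) | ⟨ω₁, ω₂, h01, h12, h23⟩
  · exact h
  · have := hc.adj _ _ h
    rw [hπ] at this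
    exact absurd this (irr _ (hc.mem _))
  · exact wu _ _ _ hx1 hx2 hπ
  · have h02 : Adj (π ω) (π ω₂) := by
      rw [hπ]; exact symm _ _ (hc.adj _ _ h23)
    have h1 := hc.tri _ _ _ h01 h12 h02
    exact wu _ _ _ h1 h23 hπ

end

end Pool.Agent.Helper35.YG
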