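import Mathlib
import Pool.Agent.Helper35.YG.CoverDefs

set_option autoImplicit false

open Matrix

namespace Pool.Agent.Helper35.YG

/-- A quadratic étale algebra `E` over a finite field `F` of characteristic two, with conjugation
`bar`, norm `N`, trace `T`, and an element `η` of norm one and odd order such that, with `ζ = η²`,
`E = F ⊕ F ζ`, `s = T ζ ≠ 0` and `F` is generated by `s` as a ring. -/
structure QE (F E : Type*) [Field F] [CommRing E] [Algebra F E] where
  bar : E →+* E
  bar_bar : ∀ x, bar (bar x) = x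
  bar_alg : ∀ a : F, bar (algebraMap F E a) = algebraMap F E a
  N : E → F
  T : E → F
  N_eq : ∀ x, algebraMap F E (N x) = x * bar x
  T_eq : ∀ x, algebraMap F E (T x) = x + bar x
  η : E
  η_bar : η * bar η = 1
  n : ℕ
  n_odd : Odd n
  η_pow : η ^ n = 1
  s_ne : T (η * η) ≠ 0
  span : ∀ x : E, ∃ a b : F, x = algebraMap F E a + algebraMap F E b * (η * η)
  gen : ∀ S : Subring F, T (η * η) ∈ S → S = ⊤

/-- upper unipotent in `SL_2` -/
def uu {R : Type*} [CommRing R] (x : R) : SpecialLinearGroup (Fin 2) R :=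
  ⟨!![1, x; 0, 1], by simp⟩

/-- lower unipotent in `SL_2` -/
def vv {R : Type*} [CommRing R] (x : R) : SpecialLinearGroup (Fin 2) R :=
  ⟨!![1, 0; x, 1], by simp⟩

/-- diagonal in `SL_2` -/
def dd {R : Type*} [CommRing R] (x y : R) (h : x * y = 1) : SpecialLinearGroup (Fin 2) R :=
  ⟨!![x, 0; 0, y], by simp [h]⟩

/-- the swap in `SL_2`, characteristic two -/
def JJ {R : Type*} [CommRing R] (h2 : (2 : R) = 0) : SpecialLinearGroup (Fin 2) R :=
  ⟨!![0, 1; 1, 0], by
    rw [Matrix.det_fin_two_of]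
    linear_combination (-1 : R) * h2⟩

namespace QE

variable {F E : Type*} [Field F] [CommRing E] [Algebra F E] (q : QE F E)

/-- entrywise conjugation on `SL_2(E)` -/
def barSL : SpecialLinearGroup (Fin 2) E →* SpecialLinearGroup (Fin 2) E :=
  SpecialLinearGroup.map q.bar

/-- the quadratic form on hermitian matrices `[[α, e], [bar e, β]]`, written `(α, β, e)` -/
def Q3 (v : F × F × E) : F := v.1 * v.2.1 + q.N v.2.2

/-- its polar form -/
def B3 (v w : F × F × E) : F := v.1 * w.2.1 + w.1 * v.2.1 + q.T (v.2.2 * q.bar w.2.2)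

/-- the point set `X_4` -/
def X4 : Set ((F × F × E) × F) := {y | q.Q3 y.1 = y.2 ^ 2 + y.2}

/-- adjacency on `X_4` -/
def Adj4 (y z : (F × F × E) × F) : Prop := q.B3 y.1 z.1 + y.2 + z.2 = 1 ∧ y.1 ≠ z.1

end QE

end Pool.Agent.Helper35.YG
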