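import Mathlib
import Pool.Agent.Helper35.YG.QE

set_option autoImplicit false

open Matrix

namespace Pool.Agent.Helper35.YG

/-- covering in which only the non-special triangles are required to lift -/
structure Cover' {V Ω : Type*} (X : Set V) (Adj : V → V → Prop) (Spec : V → V → V → Prop)
    (E : Ω → Ω → Prop) (π : Ω → V) : Prop where
  mem : ∀ ω, π ω ∈ X
  symm : ∀ ω ω', E ω ω' → E ω' ω
  adj : ∀ ω ω', E ω ω' → Adj (π ω) (π ω')
  lift : ∀ ω, ∀ v ∈ X, Adj (π ω) v → ∃ ω', E ω ω' ∧ π ω' = v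
  uniq : ∀ ω ω₁ ω₂, E ω ω₁ → E ω ω₂ → π ω₁ = π ω₂ → ω₁ = ω₂
  tri : ∀ ω ω₁ ω₂, E ω ω₁ → E ω₁ ω₂ → Adj (π ω) (π ω₂) → ¬ Spec (π ω) (π ω₁) (π ω₂) → E ω ω₂
  conn : ∀ ω ω', Relation.ReflTransGen E ω ω'

namespace QE

variable {F E : Type*} [Field F] [CommRing E] [Algebra F E] (q : QE F E)

/-- the ambient space; only the coordinates `< M` of the second component matter -/
abbrev W (F E : Type*) := (F × F × E) × (ℕ → F)

/-- quadratic form on the ambient space -/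
def QM (M : ℕ) (y : W F E) : F :=
  q.Q3 y.1 + (∑ i ∈ Finset.range M, y.2 i ^ 2) +
    ∑ j ∈ Finset.range M, ∑ i ∈ Finset.range j, y.2 i * y.2 j

/-- its polar form (characteristic two) -/
def BM (M : ℕ) (y z : W F E) : F :=
  q.B3 y.1 z.1 + (∑ i ∈ Finset.range M, y.2 i) * (∑ i ∈ Finset.range M, z.2 i) +
    ∑ i ∈ Finset.range M, y.2 i * z.2 i

/-- basis vector `ρ_i` -/
def rho (F E : Type*) [Field F] [CommRing E] (i : ℕ) : W F E := (0, Pi.single i 1)

/-- `o_i = ρ_i + ρ_{i+1}` -/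
def oo (F E : Type*) [Field F] [CommRing E] (i : ℕ) : W F E := rho F E i + rho F E (i + 1)

/-- `1_{≤ i}` -/
def ones (F E : Type*) [Field F] [CommRing E] (i : ℕ) : W F E :=
  (0, fun j => if j ≤ i then 1 else 0)

/-- the point set `X_i` -/
def XX (M i : ℕ) : Set (W F E) :=
  {y | (∀ j, i + 1 < j → y.2 j = 0) ∧ y.2 (i + 1) = 1 ∧ q.QM M y = 1 ∧
    (Odd i → y ≠ ones F E (i + 1))}

/-- adjacency on `X_i` -/
def AA (M i : ℕ) (y z : W F E) : Prop :=
  q.BM M y z = 1 ∧ (Even i → y + z ≠ ones F E i)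

/-- special triangles -/
def SS (i : ℕ) (x y z : W F E) : Prop := Odd i ∧ x + y + z = ones F E (i + 1)

end QE

end Pool.Agent.Helper35.YG
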