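import Mathlib

set_option autoImplicit false

open Polynomial

namespace Pool.Agent.Helper35.YG

/-- polynomials over `F_2` -/
abbrev P := (ZMod 2)[X]

lemma monic_of_ne {q : P} (h : q ≠ 0) : q.Monic := by
  have h1 : q.leadingCoeff ≠ 0 := leadingCoeff_ne_zero.mpr h
  have h2 : ∀ z : ZMod 2, z ≠ 0 → z = 1 := by decide
  exact h2 _ h1

lemma P_add_self (f : P) : f + f = 0 := CharTwo.add_self_eq_zero f

lemma P_neg (f : P) : -f = f := CharTwo.neg_eq f

lemma P_sub (f g : P) : f - g = f + g := CharTwo.sub_eq_add f g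

/-- the data `(U, a, w)` in a group `G` -/
structure Dat (G : Type*) [Group G] where
  U : P → G
  a : G
  w : G
  U_add : ∀ f g, U (f + g) = U f * U g
  aU : ∀ f, a * U f = U (X * f) * a
  w2 : w * w = 1
  aw : a * w = w * a⁻¹
  braid : U 1 * w * U 1 = w * U 1 * w

namespace Dat

variable {G : Type*} [Group G] (D : Dat G)

@[simp] lemma U_zero : D.U 0 = 1 := by
  have := D.U_add 0 0
  simpa using this

lemma U_self (f : P) : D.U f * D.U f = 1 := by
  rw [← D.U_add, P_add_self, U_zero]

lemma U_inv (f : P) : (D.U f)⁻¹ = D.U f := inv_eq_of_mul_eq_one_left (D.U_self f)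

lemma w_inv : (D.w)⁻¹ = D.w := inv_eq_of_mul_eq_one_left D.w2

lemma U_comm (f g : P) : D.U f * D.U g = D.U g * D.U f := by
  rw [← D.U_add, add_comm, D.U_add]

lemma aiU (f : P) : D.a⁻¹ * D.U (X * f) = D.U f * D.a⁻¹ := by
  rw [inv_mul_eq_iff_eq_mul, ← mul_assoc, D.aU, mul_inv_cancel_right]

lemma aiw : D.a⁻¹ * D.w = D.w * D.a := by
  have := D.aw
  rw [inv_mul_eq_iff_eq_mul, ← mul_assoc, this, inv_mul_cancel_right]

/-- the Borel subgroup -/
def B : Subgroup G := Subgroup.closure ({D.a} ∪ Set.range D.U)

lemma a_mem : D.a ∈ D.B := Subgroup.subset_closure (Or.inl rfl)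
lemma U_mem (f : P) : D.U f ∈ D.B := Subgroup.subset_closure (Or.inr ⟨f, rfl⟩)

/-- Euclid's algorithm function -/
noncomputable def cc (p q : P) : G ⧸ D.B :=
  if _h : q = 0 then ((1 : G) : G ⧸ D.B)
  else (D.U (p /ₘ q) * D.w) • cc q (p %ₘ q)
termination_by q.degree
decreasing_by exact degree_modByMonic_lt p (monic_of_ne _h)

lemma cc_zero (p : P) : D.cc p 0 = ((1 : G) : G ⧸ D.B) := by
  rw [cc]; simp

lemma cc_ne (p : P) {q : P} (h : q ≠ 0) :
    D.cc p q = (D.U (p /ₘ q) * D.w) • D.cc q (p %ₘ q) := by
  rw [cc]; simp [h]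

lemma smul_base {b : G} (hb : b ∈ D.B) : b • ((1 : G) : G ⧸ D.B) = ((1 : G) : G ⧸ D.B) := by
  rw [MulAction.Quotient.smul_mk, QuotientGroup.eq]
  simpa using D.B.inv_mem hb

lemma cc_of (f r q : P) (h : r.degree < q.degree) :
    D.cc (f * q + r) q = (D.U f * D.w) • D.cc q r := by
  have hq : q ≠ 0 := by
    rintro rfl
    simp at h
  have := div_modByMonic_unique (f := f * q + r) (g := q) f r (monic_of_ne hq) ⟨by ring, h⟩
  rw [D.cc_ne _ hq, this.1, this.2]

/-- (P3) -/
lemma cc_U (f p q : P) : D.cc (p + f * q) q = D.U f • D.cc p q := by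
  by_cases hq : q = 0
  · subst hq
    rw [mul_zero, add_zero, cc_zero, smul_base _ (D.U_mem f)]
  · have h1 : (p %ₘ q).degree < q.degree := degree_modByMonic_lt p (monic_of_ne hq)
    have h2 : p = (p /ₘ q) * q + p %ₘ q := by
      conv_lhs => rw [← modByMonic_add_div p q]
      ring
    have h3 : p + f * q = (f + p /ₘ q) * q + p %ₘ q := by
      conv_lhs => rw [h2]
      ring
    rw [h3, D.cc_of _ _ _ h1, D.U_add, mul_assoc, mul_smul, ← D.cc_of _ _ _ h1, ← h2]

lemma cc_lt {p q : P} (h : p.degree < q.degree) : D.cc p q = D.w • D.cc q p := by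
  have := D.cc_of 0 p q h
  simpa using this

lemma w_smul_smul (x : G ⧸ D.B) : D.w • D.w • x = x := by
  rw [smul_smul, D.w2, one_smul]

/-- (P4) -/
lemma cc_w {p q : P} (h : p ≠ 0 ∨ q ≠ 0) : D.w • D.cc p q = D.cc q p := by
  rcases lt_trichotomy p.degree q.degree with hd | hd | hd
  · rw [D.cc_lt hd, w_smul_smul]
  · have hp : p ≠ 0 := by
      rintro rfl
      rcases h with h | h
      · exact h rfl
      · apply h
        rw [← degree_eq_bot, ← hd]; simp
    have hq : q ≠ 0 := by
      rintro rfl
      apply hp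
      rw [← degree_eq_bot, hd]; simp
    -- p = q + r
    have hr : (p + q).degree < q.degree := by
      have := degree_sub_lt_left hd hp ((monic_of_ne hp).leadingCoeff.trans
        (monic_of_ne hq).leadingCoeff.symm)
      rw [P_sub] at this
      rwa [hd] at this
    have hr' : (p + q).degree < p.degree := by rwa [hd]
    have e1 : p = 1 * q + (p + q) := by
      have := P_add_self q
      linear_combination -this
    have e2 : q = 1 * p + (p + q) := by
      have := P_add_self p
      linear_combination -this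
    have c1 : D.cc p q = (D.U 1 * D.w) • D.cc q (p + q) := by
      conv_lhs => rw [e1]
      exact D.cc_of _ _ _ hr
    have c2 : D.cc q p = (D.U 1 * D.w) • D.cc p (p + q) := by
      conv_lhs => rw [e2]
      exact D.cc_of _ _ _ hr'
    have c3 : D.cc p (p + q) = D.U 1 • D.cc q (p + q) := by
      rw [← D.cc_U]
      congr 1
      have := P_add_self q
      linear_combination -this
    rw [c1, c2, c3, smul_smul, smul_smul, ← mul_assoc, ← D.braid]
  · rw [D.cc_lt hd]

/-- (P0) -/
lemma cc_mul {g : P} (hg : g ≠ 0) (p q : P) : D.cc (g * p) (g * q) = D.cc p q := by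
  induction hd : q.degree using WellFoundedLT.induction generalizing p q with
  | ind n ih =>
    by_cases hq : q = 0
    · subst hq; rw [mul_zero, cc_zero, cc_zero]
    · have h1 : (p %ₘ q).degree < q.degree := degree_modByMonic_lt p (monic_of_ne hq)
      have h2 : p = (p /ₘ q) * q + p %ₘ q := by
        conv_lhs => rw [← modByMonic_add_div p q]
        ring
      have h3 : g * p = (p /ₘ q) * (g * q) + g * (p %ₘ q) := by
        conv_lhs => rw [h2]
        ring
      have h4 : (g * (p %ₘ q)).degree < (g * q).degree := by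
        rw [degree_mul, degree_mul]
        exact WithBot.add_lt_add_left (degree_ne_bot.mpr hg) h1
      rw [h3, D.cc_of _ _ _ h4, D.cc_ne p hq, ih _ (hd ▸ h1) _ _ rfl]

/-- (P5), small case -/
lemma cc_a_aux (q : P) (hq : q.coeff 0 ≠ 0) : ∀ p : P, D.a • D.cc p q = D.cc (X * p) q := by
  induction hd : q.degree using WellFoundedLT.induction generalizing q with
  | ind n ih =>
    have hq0 : q ≠ 0 := by rintro rfl; simp at hq
    -- small degree case
    have small : ∀ p : P, p.degree < q.degree → D.a • D.cc p q = D.cc (X * p) q := by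
      intro p hp
      by_cases hp0 : p = 0
      · subst hp0
        rw [mul_zero, ← D.cc_w (Or.inl hq0), cc_zero, smul_smul, D.aw, mul_smul,
          smul_base _ (D.B.inv_mem D.a_mem)]
      · have hXp : X * p ≠ 0 := mul_ne_zero X_ne_zero hp0
        set g := q /ₘ (X * p) with hg
        set r := q %ₘ (X * p) with hr
        have h1 : r.degree < (X * p).degree := degree_modByMonic_lt q (monic_of_ne hXp)
        have h2 : q = g * (X * p) + r := by
          conv_lhs => rw [← modByMonic_add_div q (X * p)]
          rw [← hg, ← hr]; ring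
        have hr0 : r.coeff 0 ≠ 0 := by
          have : q.coeff 0 = r.coeff 0 := by
            conv_lhs => rw [h2]
            simp [mul_coeff_zero]
          rwa [← this]
        have hrne : r ≠ 0 := by intro h; rw [h] at hr0; simp at hr0
        have hrq : r.degree < n := by
          rw [← hd]
          refine lt_of_lt_of_le h1 ?_
          rw [degree_mul, degree_X]
          rw [degree_eq_natDegree hp0, degree_eq_natDegree hq0] at hp ⊢
          have : p.natDegree < q.natDegree := by exact_mod_cast hp
          have : 1 + p.natDegree ≤ q.natDegree := by omega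
          exact_mod_cast this
        have key := ih _ hrq r hr0 rfl p
        have e1 : D.cc q p = D.U (g * X) • D.cc r p := by
          rw [← D.cc_U]; congr 1; rw [h2]; ring
        have e2 : D.cc q (X * p) = D.U g • D.cc r (X * p) := by
          rw [← D.cc_U]; congr 1; rw [add_comm]; exact h2
        rw [← D.cc_w (Or.inl hq0), e1, ← D.cc_w (p := q) (q := X * p) (Or.inl hq0), e2,
          ← D.cc_w (p := p) (q := r) (Or.inl hp0), ← D.cc_w (p := X * p) (q := r) (Or.inl hXp),
          ← key]
        simp only [smul_smul]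
        congr 1
        have h5 := D.aiU g
        rw [mul_comm g X]
        calc D.a * (D.w * (D.U (X * g) * D.w))
            = (D.a * D.w) * (D.U (X * g) * D.w) := by group
          _ = D.w * (D.a⁻¹ * D.U (X * g)) * D.w := by rw [D.aw]; group
          _ = D.w * D.U g * (D.a⁻¹ * D.w) := by rw [h5]; group
          _ = D.w * (D.U g * (D.w * D.a)) := by rw [D.aiw]; group
    intro p
    have h1 : (p %ₘ q).degree < q.degree := degree_modByMonic_lt p (monic_of_ne hq0)
    have h2 : p = p %ₘ q + (p /ₘ q) * q := by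
      conv_lhs => rw [← modByMonic_add_div p q]
      ring
    have h3 : X * p = X * (p %ₘ q) + (X * (p /ₘ q)) * q := by
      conv_lhs => rw [h2]
      ring
    rw [h3]
    conv_lhs => rw [h2]
    rw [D.cc_U, D.cc_U, smul_smul, D.aU, mul_smul, small _ h1]

lemma cc_aboth {p q : P} (h : p ≠ 0 ∨ q ≠ 0) :
    D.a • D.cc p q = D.cc (X * p) q ∧ D.a⁻¹ • D.cc p q = D.cc p (X * q) := by
  -- reduce to the case where `X` does not divide both
  have key : ∀ n : ℕ, ∀ p q : P, (p ≠ 0 ∨ q ≠ 0) → p.natDegree + q.natDegree < n →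
      (D.a • D.cc p q = D.cc (X * p) q) := by
    intro n
    induction n with
    | zero => intro p q _ h; omega
    | succ n ih =>
      intro p q h hn
      by_cases hq : q.coeff 0 = 0
      · by_cases hp : p.coeff 0 = 0
        · obtain ⟨p', rfl⟩ := X_dvd_iff.mpr hp
          obtain ⟨q', rfl⟩ := X_dvd_iff.mpr hq
          have hne : p' ≠ 0 ∨ q' ≠ 0 := by
            rcases h with h | h
            · left; rintro rfl; simp at h
            · right; rintro rfl; simp at h
          rw [D.cc_mul X_ne_zero, D.cc_mul X_ne_zero]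
          apply ih _ _ hne
          rcases hne with h' | h'
          · have := natDegree_X_mul h'
            by_cases hq' : q' = 0
            · subst hq'; simp at hn ⊢; omega
            · have := natDegree_X_mul hq'; omega
          · have := natDegree_X_mul h'
            by_cases hp' : p' = 0
            · subst hp'; simp at hn ⊢; omega
            · have := natDegree_X_mul hp'; omega
        · -- p.coeff 0 ≠ 0, q = X * q'
          obtain ⟨q', rfl⟩ := X_dvd_iff.mpr hq
          have hp0 : p ≠ 0 := by rintro rfl; simp at hp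
          rw [D.cc_mul X_ne_zero]
          have h1 := D.cc_a_aux p hp q'
          rw [← D.cc_w (p := X * q') (q := p) (Or.inr hp0), ← h1,
            ← D.cc_w (p := p) (q := q') (Or.inl hp0)]
          simp only [smul_smul]
          have e : D.a * (D.w * (D.a * D.w)) = 1 := by
            calc D.a * (D.w * (D.a * D.w)) = (D.a * D.w) * (D.a * D.w) := by group
              _ = D.w * (D.a⁻¹ * D.w) * D.a⁻¹ := by rw [D.aw]; group
              _ = D.w * D.w * D.a * D.a⁻¹ := by rw [D.aiw]; group
              _ = 1 := by rw [D.w2]; group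
          rw [e, one_smul]
      · exact D.cc_a_aux q hq p
  have hA := key _ p q h (Nat.lt_succ_self _)
  refine ⟨hA, ?_⟩
  have h' : p ≠ 0 ∨ X * q ≠ 0 := by
    rcases h with h | h
    · exact Or.inl h
    · exact Or.inr (mul_ne_zero X_ne_zero h)
  have := key _ p (X * q) h' (Nat.lt_succ_self _)
  rw [D.cc_mul X_ne_zero] at this
  rw [← this, inv_smul_smul]

lemma cc_a {p q : P} (h : p ≠ 0 ∨ q ≠ 0) : D.a • D.cc p q = D.cc (X * p) q :=
  (D.cc_aboth h).1

lemma cc_ai {p q : P} (h : p ≠ 0 ∨ q ≠ 0) : D.a⁻¹ • D.cc p q = D.cc p (X * q) :=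
  (D.cc_aboth h).2

lemma cc_ai_pow {p q : P} (h : p ≠ 0 ∨ q ≠ 0) (K : ℕ) :
    (D.a ^ K)⁻¹ • D.cc p q = D.cc p (X ^ K * q) := by
  induction K with
  | zero => simp
  | succ K ih =>
    have h' : p ≠ 0 ∨ X ^ K * q ≠ 0 := by
      rcases h with h | h
      · exact Or.inl h
      · exact Or.inr (mul_ne_zero (pow_ne_zero _ X_ne_zero) h)
    rw [pow_succ, mul_inv_rev, mul_smul, ih, D.cc_ai h', ← mul_assoc, ← pow_succ']

/-- the lower unipotent -/
def V (f : P) : G := D.w * D.U f * D.w

lemma cc_V {p q : P} (h : p ≠ 0 ∨ q ≠ 0) (f : P) :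
    D.V f • D.cc p q = D.cc p (q + f * p) := by
  have h' : q + f * p ≠ 0 ∨ p ≠ 0 := by
    by_cases hp : p = 0
    · subst hp; simpa using h
    · exact Or.inr hp
  rw [V, mul_smul, mul_smul, D.cc_w h, ← D.cc_U, D.cc_w h']

end Dat

end Pool.Agent.Helper35.YG
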