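import Mathlib
import Pool.Agent.Helper35.YG.Euclid

set_option autoImplicit false

open Polynomial

namespace Pool.Agent.Helper35.YG

namespace Dat

variable {G : Type*} [Group G] (D : Dat G)

lemma apow_U (j : ℕ) (f : P) : D.a ^ j * D.U f = D.U (X ^ j * f) * D.a ^ j := by
  induction j generalizing f with
  | zero => simp
  | succ j ih =>
    rw [pow_succ, mul_assoc, D.aU, ← mul_assoc, ih, ← mul_assoc, ← pow_succ, mul_assoc]

lemma U_pow_X {N : ℕ} (haN : D.a ^ N = 1) (f : P) : D.U (X ^ N * f) = D.U f := by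
  have := D.apow_U N f
  rw [haN, one_mul, mul_one] at this
  exact this.symm

lemma U_dvd {N : ℕ} (haN : D.a ^ N = 1) {f : P} (h : (X ^ N + 1 : P) ∣ f) : D.U f = 1 := by
  obtain ⟨g, rfl⟩ := h
  rw [add_mul, one_mul, D.U_add, D.U_pow_X haN, D.U_self]

lemma V_dvd {N : ℕ} (haN : D.a ^ N = 1) {f : P} (h : (X ^ N + 1 : P) ∣ f) : D.V f = 1 := by
  rw [V, D.U_dvd haN h, mul_one, D.w2]

lemma mem_B {M : ℕ} (hM : 0 < M) (haM : D.a ^ M = 1) {b : G} (hb : b ∈ D.B) :
    ∃ (f : P) (j : ℕ), b = D.U f * D.a ^ j := by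
  induction hb using Subgroup.closure_induction with
  | mem x hx =>
    rcases hx with hx | ⟨f, rfl⟩
    · rw [Set.mem_singleton_iff] at hx
      subst hx
      exact ⟨0, 1, by simp⟩
    · exact ⟨f, 0, by simp⟩
  | one => exact ⟨0, 0, by simp⟩
  | mul x y _ _ hx hy =>
    obtain ⟨f, j, rfl⟩ := hx
    obtain ⟨g, k, rfl⟩ := hy
    refine ⟨f + X ^ j * g, j + k, ?_⟩
    rw [D.U_add, pow_add]
    calc D.U f * D.a ^ j * (D.U g * D.a ^ k) = D.U f * (D.a ^ j * D.U g) * D.a ^ k := by group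
      _ = _ := by rw [D.apow_U]; group
  | inv x _ hx =>
    obtain ⟨f, j, rfl⟩ := hx
    refine ⟨X ^ ((M - 1) * j) * f, (M - 1) * j, ?_⟩
    have h1 : (D.a ^ j)⁻¹ = D.a ^ ((M - 1) * j) := by
      rw [inv_eq_iff_mul_eq_one, ← pow_add]
      have : j + (M - 1) * j = M * j := by
        obtain ⟨M, rfl⟩ := Nat.exists_eq_succ_of_ne_zero hM.ne'
        simp; ring
      rw [this, pow_mul, haM, one_pow]
    rw [mul_inv_rev, D.U_inv, h1, D.apow_U]

/-- product data -/
def prod {H : Type*} [Group H] (E : Dat H) : Dat (G × H) where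
  U f := (D.U f, E.U f)
  a := (D.a, E.a)
  w := (D.w, E.w)
  U_add f g := by simp [D.U_add, E.U_add]
  aU f := by simp [D.aU, E.aU]
  w2 := by simp [D.w2, E.w2]
  aw := by simp [D.aw, E.aw]
  braid := by simp [D.braid, E.braid]

end Dat

/-- the ring `F_2[X]/(X^{2N}+1)` -/
abbrev RN (N : ℕ) := AdjoinRoot (X ^ (2 * N) + 1 : P)

/-- the map to `RN`, composed with squaring -/
noncomputable def phi (N : ℕ) : P →+* RN N where
  toFun f := AdjoinRoot.mk _ (f ^ 2)
  map_one' := by simp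
  map_zero' := by simp
  map_mul' f g := by rw [mul_pow, map_mul]
  map_add' f g := by rw [CharTwo.add_sq, map_add]

lemma X2N (N : ℕ) : (X ^ (2 * N) + 1 : P) = (X ^ N + 1) ^ 2 := by
  rw [CharTwo.add_sq, one_pow, mul_comm, pow_mul]

lemma phi_eq_zero {N : ℕ} {f : P} : phi N f = 0 ↔ (X ^ N + 1 : P) ∣ f := by
  change AdjoinRoot.mk _ (f ^ 2) = 0 ↔ _
  rw [AdjoinRoot.mk_eq_zero, X2N, IsIntegrallyClosed.pow_dvd_pow_iff (by norm_num)]

/-- the root -/
noncomputable def xx (N : ℕ) : RN N := AdjoinRoot.root _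

lemma xx_pow (N : ℕ) : (xx N) ^ (2 * N) = 1 := by
  have h : AdjoinRoot.mk (X ^ (2 * N) + 1 : P) (X ^ (2 * N) + 1) = 0 := AdjoinRoot.mk_self
  rw [map_add, map_pow, AdjoinRoot.mk_X, map_one] at h
  have h2 : ((xx N) ^ (2 * N) + 1) - (1 + 1) = 0 := by
    have h3 : (1 + 1 : RN N) = 0 := by
      have : AdjoinRoot.mk (X ^ (2 * N) + 1 : P) (1 + 1) = 0 := by
        rw [P_add_self, map_zero]
      rwa [map_add, map_one] at this
    rw [h3, sub_zero]; exact h
  have h4 := sub_eq_zero.mp h2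
  exact add_right_cancel h4

lemma phi_X (N : ℕ) : phi N X = (xx N) ^ 2 := by
  change AdjoinRoot.mk _ (X ^ 2) = _
  rw [map_pow, AdjoinRoot.mk_X]; rfl

lemma RN_add_self {N : ℕ} (z : RN N) : z + z = 0 := by
  obtain ⟨f, rfl⟩ := AdjoinRoot.mk_surjective z
  rw [← map_add, P_add_self, map_zero]

/-- `xx` as a unit -/
noncomputable def xu {N : ℕ} (hN : 0 < N) : (RN N)ˣ where
  val := xx N
  inv := (xx N) ^ (2 * N - 1)
  val_inv := by rw [← pow_succ']; rw [show 2 * N - 1 + 1 = 2 * N by omega, xx_pow]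
  inv_val := by rw [← pow_succ]; rw [show 2 * N - 1 + 1 = 2 * N by omega, xx_pow]

lemma xx_pow_ne {N : ℕ} {m : ℕ} (hm : m < 2 * N) (h : (xx N) ^ m = 1) : m = 0 := by
  by_contra hm0
  have h1 : AdjoinRoot.mk (X ^ (2 * N) + 1 : P) (X ^ m + 1) = 0 := by
    rw [map_add, map_pow, AdjoinRoot.mk_X, map_one]
    change (xx N) ^ m + 1 = 0
    rw [h, RN_add_self]
  rw [AdjoinRoot.mk_eq_zero] at h1
  have h2 : (X ^ m + 1 : P) ≠ 0 := by
    have := (monic_X_pow_add_C (1 : ZMod 2) hm0).ne_zero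
    simpa using this
  have h3 := natDegree_le_of_dvd h1 h2
  have e1 : (X ^ m + 1 : P).natDegree = m := by
    have := natDegree_X_pow_add_C (n := m) (r := (1 : ZMod 2))
    simpa using this
  have e2 : (X ^ (2 * N) + 1 : P).natDegree = 2 * N := by
    have := natDegree_X_pow_add_C (n := 2 * N) (r := (1 : ZMod 2))
    simpa using this
  omega

/-- upper unipotent -/
def upp {R : Type*} [CommRing R] (z : R) : GL (Fin 2) R where
  val := !![1, z; 0, 1]
  inv := !![1, -z; 0, 1]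
  val_inv := by ext i j; fin_cases i <;> fin_cases j <;> simp
  inv_val := by ext i j; fin_cases i <;> fin_cases j <;> simp

/-- diagonal -/
def dia {R : Type*} [CommRing R] (z : Rˣ) : GL (Fin 2) R where
  val := !![(z : R), 0; 0, ((z⁻¹ : Rˣ) : R)]
  inv := !![((z⁻¹ : Rˣ) : R), 0; 0, (z : R)]
  val_inv := by ext i j; fin_cases i <;> fin_cases j <;> simp
  inv_val := by ext i j; fin_cases i <;> fin_cases j <;> simp

/-- swap -/
def swp {R : Type*} [CommRing R] : GL (Fin 2) R where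
  val := !![0, 1; 1, 0]
  inv := !![0, 1; 1, 0]
  val_inv := by ext i j; fin_cases i <;> fin_cases j <;> simp
  inv_val := by ext i j; fin_cases i <;> fin_cases j <;> simp

lemma dia_inv {R : Type*} [CommRing R] (z : Rˣ) : (dia z)⁻¹ = dia z⁻¹ := by
  apply Units.ext
  change !![((z⁻¹ : Rˣ) : R), 0; 0, (z : R)] = _
  simp [dia]

lemma dia_mul {R : Type*} [CommRing R] (z y : Rˣ) : dia (z * y) = dia z * dia y := by
  apply Units.ext
  rw [Units.val_mul]
  ext i j; fin_cases i <;> fin_cases j <;> simp [dia, mul_comm]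

lemma dia_pow {R : Type*} [CommRing R] (z : Rˣ) (n : ℕ) : dia (z ^ n) = dia z ^ n := by
  induction n with
  | zero =>
    rw [pow_zero, pow_zero]
    apply Units.ext
    ext i j; fin_cases i <;> fin_cases j <;> simp [dia]
  | succ n ih => rw [pow_succ, dia_mul, ih, pow_succ]

/-- the matrix data -/
noncomputable def datQ {N : ℕ} (hN : 0 < N) : Dat (GL (Fin 2) (RN N)) where
  U f := upp (phi N f)
  a := dia (xu hN)
  w := swp
  U_add f g := by
    apply Units.ext
    rw [Units.val_mul]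
    ext i j; fin_cases i <;> fin_cases j <;> simp [upp, add_comm]
  aU f := by
    apply Units.ext
    rw [Units.val_mul, Units.val_mul, map_mul, phi_X]
    have h : (xx N) * ((xu hN)⁻¹ : (RN N)ˣ) = 1 := (xu hN).mul_inv
    ext i j; fin_cases i <;> fin_cases j <;> simp [upp, dia]
    · change xx N * phi N f = (xx N) ^ 2 * phi N f * ((xu hN)⁻¹ : (RN N)ˣ)
      linear_combination (-(xx N * phi N f)) * h
  w2 := by
    apply Units.ext
    rw [Units.val_mul]
    ext i j; fin_cases i <;> fin_cases j <;> simp [swp]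
  aw := by
    rw [dia_inv]
    apply Units.ext
    rw [Units.val_mul, Units.val_mul]
    ext i j; fin_cases i <;> fin_cases j <;> simp [swp, dia]
  braid := by
    apply Units.ext
    rw [Units.val_mul, Units.val_mul, Units.val_mul, Units.val_mul, map_one]
    have := RN_add_self (1 : RN N)
    ext i j; fin_cases i <;> fin_cases j <;> simp [swp, upp, this]

lemma datQ_faithful {N : ℕ} (hN : 0 < N) {f : P} {j K : ℕ}
    (h : (datQ hN).U f * (datQ hN).a ^ j = (datQ hN).a ^ K) :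
    (X ^ N + 1 : P) ∣ f ∧ ∃ u v : ℕ, j + u * (2 * N) = K + v * (2 * N) := by
  change upp (phi N f) * dia (xu hN) ^ j = dia (xu hN) ^ K at h
  rw [← dia_pow, ← dia_pow] at h
  have h1 := congrArg (fun M : GL (Fin 2) (RN N) => (M : Matrix (Fin 2) (Fin 2) (RN N)) 0 1) h
  have h2 := congrArg (fun M : GL (Fin 2) (RN N) => (M : Matrix (Fin 2) (Fin 2) (RN N)) 0 0) h
  simp only [Units.val_mul] at h1 h2
  simp [upp, dia] at h1 h2
  have h2' : (xx N) ^ j = (xx N) ^ K := h2
  have h1' : phi N f = 0 := by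
    have h8 : ((xu hN)⁻¹ ^ j : (RN N)ˣ).val = ((xu hN)⁻¹ : (RN N)ˣ).val ^ j := by simp
    rw [← h8] at h1
    exact (Units.mul_left_eq_zero _).mp h1
  refine ⟨phi_eq_zero.mp h1', ?_⟩
  -- reduce j, K mod 2N
  have key : ∀ m : ℕ, (xx N) ^ m = (xx N) ^ (m % (2 * N)) := by
    intro m
    have h9 : (xx N) ^ (2 * N * (m / (2 * N)) + m % (2 * N)) = (xx N) ^ (m % (2 * N)) := by
      have h10 : (xx N) ^ (2 * N * (m / (2 * N))) = 1 := by
        have h11 := pow_mul (xx N) (2 * N) (m / (2 * N))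
        rw [h11, xx_pow, one_pow]
      rw [pow_add (xx N), h10, one_mul]
    rwa [Nat.div_add_mod m (2 * N)] at h9
  have aux : ∀ j K : ℕ, j ≤ K → (xx N) ^ j = (xx N) ^ K →
      ∃ t : ℕ, K = j + t * (2 * N) := by
    intro j K hjK h
    have h3 : (xx N) ^ (K - j) = 1 := by
      have h4 : (xu hN) ^ K = (xu hN) ^ j := by
        apply Units.ext
        rw [Units.val_pow_eq_pow_val, Units.val_pow_eq_pow_val]
        exact h.symm
      have h5 : (xu hN) ^ (K - j) = 1 := by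
        rw [pow_sub _ hjK, h4, mul_inv_cancel]
      have h6 := congrArg Units.val h5
      rw [Units.val_pow_eq_pow_val] at h6
      exact h6
    rw [key] at h3
    have h7 := xx_pow_ne (Nat.mod_lt _ (by omega)) h3
    obtain ⟨t, ht⟩ := Nat.dvd_of_mod_eq_zero h7
    exact ⟨t, by rw [mul_comm t]; omega⟩
  rcases le_total j K with hjK | hjK
  · obtain ⟨t, ht⟩ := aux j K hjK h2'
    exact ⟨t, 0, by omega⟩
  · obtain ⟨t, ht⟩ := aux K j hjK h2'.symm
    exact ⟨0, t, by omega⟩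

/-- the main tool -/
theorem CL {T : Type*} [Group T] (D : Dat T) {N : ℕ} (hN : 0 < N) (haN : D.a ^ N = 1)
    (g : T × GL (Fin 2) (RN N)) {p q h : P} (K : ℕ) (hpq : p ≠ 0 ∨ q ≠ 0)
    (hg : g • (D.prod (datQ hN)).cc 1 0 = (D.prod (datQ hN)).cc p q)
    (h1 : (X ^ K + 1) * q = h * p) (h2 : (X ^ N + 1 : P) ∣ h)
    (h3 : Commute g.2 ((datQ hN).a ^ K)) : Commute g.1 (D.a ^ K) := by
  set E := D.prod (datQ hN) with hE
  have hQN : (datQ hN).a ^ (2 * N) = 1 := by
    change dia (xu hN) ^ (2 * N) = 1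
    rw [← dia_pow]
    have : (xu hN) ^ (2 * N) = 1 := Units.ext (by simpa [xu] using xx_pow N)
    rw [this]
    apply Units.ext
    ext i j; fin_cases i <;> fin_cases j <;> simp [dia]
  have hE2 : E.a ^ (2 * N) = 1 := by
    have e : E.a = (D.a, (datQ hN).a) := rfl
    have h12 : D.a ^ (2 * N) = 1 := by rw [mul_comm 2 N, pow_mul, haN, one_pow]
    rw [e, Prod.pow_mk, hQN, h12]; rfl
  have hV : E.V h = 1 := by
    have hU : E.U h = 1 := by
      have : E.U h = (D.U h, upp (phi N h)) := rfl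
      rw [this, D.U_dvd haN h2, phi_eq_zero.mpr h2]
      ext i j
      · rfl
      · fin_cases i <;> fin_cases j <;> simp [upp]
    rw [Dat.V, hU, mul_one, E.w2]
  have e1 : E.V h • E.cc p q = E.cc p (X ^ K * q) := by
    rw [E.cc_V hpq]
    congr 1
    have := P_add_self q
    linear_combination (-1 : P) * h1 + this
  have e2 : E.a ^ K • E.cc p q = E.cc p q := by
    have := E.cc_ai_pow hpq K
    rw [← e1, hV, one_smul] at this
    conv_lhs => rw [← this]
    rw [smul_inv_smul]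
  have e3 : g⁻¹ * E.a ^ K * g ∈ E.B := by
    have e4 : (g⁻¹ * E.a ^ K * g) • E.cc 1 0 = E.cc 1 0 := by
      rw [mul_smul, mul_smul, hg, e2, ← hg, inv_smul_smul]
    rw [E.cc_zero, MulAction.Quotient.smul_mk, QuotientGroup.eq] at e4
    have := E.B.inv_mem e4
    simpa using this
  obtain ⟨f, j, hb⟩ := E.mem_B (by omega) hE2 e3
  have hbT : g.1⁻¹ * D.a ^ K * g.1 = D.U f * D.a ^ j := congrArg Prod.fst hb
  have hbQ : g.2⁻¹ * (datQ hN).a ^ K * g.2 = (datQ hN).U f * (datQ hN).a ^ j :=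
    congrArg Prod.snd hb
  have h4 : g.2⁻¹ * (datQ hN).a ^ K * g.2 = (datQ hN).a ^ K := by
    rw [mul_assoc, ← h3.eq, inv_mul_cancel_left]
  rw [h4] at hbQ
  obtain ⟨hf, u, v, huv⟩ := datQ_faithful hN hbQ.symm
  have h5 : D.a ^ j = D.a ^ K := by
    have e5 : D.a ^ (j + u * (2 * N)) = D.a ^ j := by
      rw [pow_add, show u * (2 * N) = N * (2 * u) by ring, pow_mul _ N, haN, one_pow, mul_one]
    have e6 : D.a ^ (K + v * (2 * N)) = D.a ^ K := by
      rw [pow_add, show v * (2 * N) = N * (2 * v) by ring, pow_mul _ N, haN, one_pow, mul_one]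
    rw [← e5, huv, e6]
  rw [D.U_dvd haN hf, one_mul, h5] at hbT
  change g.1 * D.a ^ K = D.a ^ K * g.1
  have h6 := congrArg (fun z => g.1 * z) hbT
  simp only [← mul_assoc] at h6
  rw [mul_inv_cancel, one_mul] at h6
  exact h6.symm

end Pool.Agent.Helper35.YG
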