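import Mathlib
import Pool.Agent.Helper35.YG.Euclid

set_option autoImplicit false

open Polynomial

namespace Pool.Agent.Helper35.YG

/-- every residue class prime to `M` contains a `D` such that the order of `X` modulo `D` is prime
to `ℓ` -/
def NTprop (ℓ : ℕ) : Prop :=
  ∀ M D0 : P, M ≠ 0 → X ∣ M → IsCoprime D0 M →
    ∃ (D : P) (K : ℕ), M ∣ D - D0 ∧ 0 < K ∧ ¬ ℓ ∣ K ∧ D ∣ X ^ K - 1

lemma add_pow_two_pow (a b : P) (i : ℕ) : (a + b) ^ 2 ^ i = a ^ 2 ^ i + b ^ 2 ^ i :=
  add_pow_char_pow a b 2 i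

lemma finite_adjoin {D : P} (hD : D ≠ 0) : Finite (AdjoinRoot D) := by
  have : Module.Finite (ZMod 2) (AdjoinRoot D) := (AdjoinRoot.powerBasis hD).finite
  exact Module.finite_of_finite (ZMod 2)

/-- for squarefree `D` prime to `X`, the order of `X` modulo `D` is odd -/
lemma odd_order {D : P} (hD : Squarefree D) (h0 : D.coeff 0 ≠ 0) :
    ∃ K : ℕ, 0 < K ∧ ¬ 2 ∣ K ∧ D ∣ X ^ K + 1 := by
  have hD0 : D ≠ 0 := hD.ne_zero
  have := finite_adjoin hD0
  obtain ⟨i, j, hij, h⟩ := Finite.exists_ne_map_eq_of_infinite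
    (fun i : ℕ => AdjoinRoot.mk D (X ^ 2 ^ i))
  have cop : IsCoprime D X := by
    rw [isCoprime_comm]
    exact (irreducible_X.coprime_iff_not_dvd).mpr (fun h => h0 (X_dvd_iff.mp h))
  have main : ∀ i j : ℕ, i < j → AdjoinRoot.mk D (X ^ 2 ^ i) = AdjoinRoot.mk D (X ^ 2 ^ j) →
      ∃ K : ℕ, 0 < K ∧ ¬ 2 ∣ K ∧ D ∣ X ^ K + 1 := by
    intro i j hij h
    obtain ⟨t, rfl⟩ := Nat.exists_eq_add_of_lt hij
    rw [AdjoinRoot.mk_eq_mk] at h
    have e : (X ^ 2 ^ i - X ^ 2 ^ (i + t + 1) : P)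
        = X ^ 2 ^ i * (X ^ (2 ^ (t + 1) - 1) + 1) ^ 2 ^ i := by
      rw [add_pow_two_pow, one_pow, ← pow_mul, P_sub, mul_add, mul_one, ← pow_add]
      have : 2 ^ i + (2 ^ (t + 1) - 1) * 2 ^ i = 2 ^ (i + t + 1) := by
        have h1 : 1 ≤ 2 ^ (t + 1) := Nat.one_le_two_pow
        obtain ⟨s, hs⟩ := Nat.exists_eq_add_of_le h1
        rw [show i + t + 1 = i + (t + 1) by ring, pow_add 2 i (t + 1), hs, Nat.add_sub_cancel_left]
        ring
      rw [this, add_comm]
    rw [e] at h
    have h2 := (cop.pow_right (n := 2 ^ i)).dvd_of_dvd_mul_left h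
    rw [hD.dvd_pow_iff_dvd (by positivity)] at h2
    refine ⟨2 ^ (t + 1) - 1, ?_, ?_, h2⟩
    · have : 2 ≤ 2 ^ (t + 1) := by
        rw [pow_succ]; have := Nat.one_le_two_pow (n := t); omega
      omega
    · have : 2 ∣ 2 ^ (t + 1) := dvd_pow_self 2 (by omega)
      have h1 : 1 ≤ 2 ^ (t + 1) := Nat.one_le_two_pow
      omega
  rcases lt_or_gt_of_ne hij with hlt | hlt
  · exact main i j hlt h
  · exact main j i hlt h.symm

lemma two_squares (f : P) : ∃ a b : P, f = a ^ 2 + X * b ^ 2 := by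
  induction f using Polynomial.induction_on with
  | C c =>
    refine ⟨C c, 0, ?_⟩
    have : ∀ z : ZMod 2, z = z ^ 2 := by decide
    rw [← C_pow, ← this]; simp
  | add p q hp hq =>
    obtain ⟨a, b, rfl⟩ := hp
    obtain ⟨c, d, rfl⟩ := hq
    refine ⟨a + c, b + d, ?_⟩
    rw [CharTwo.add_sq, CharTwo.add_sq]; ring
  | monomial n c h =>
    obtain ⟨a, b, h⟩ := h
    refine ⟨X * b, a, ?_⟩
    rw [pow_succ, ← mul_assoc, h]; ring

lemma squarefree_of_coprime {a b : P} (h : IsCoprime a b) : Squarefree (a ^ 2 + X * b ^ 2) := by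
  apply Separable.squarefree
  rw [separable_def]
  have e : derivative (a ^ 2 + X * b ^ 2) = b ^ 2 := by
    have h2 : (2 : P) = 0 := by
      have := P_add_self (1 : P)
      linear_combination this
    have h3 : (C 2 : P) = 0 := by
      have : (2 : ZMod 2) = 0 := by decide
      rw [this, C_0]
    simp [derivative_pow, h3]
  rw [e]
  have : IsCoprime (a ^ 2) (b ^ 2) := h.pow
  rw [show a ^ 2 + X * b ^ 2 = a ^ 2 + b ^ 2 * X by ring]
  exact IsCoprime.add_mul_left_left this X

/-- `r` such that `(a + α r, b + β r)` is unimodular -/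
lemma unimod {a b α β : P} (hE : β * a + α * b ≠ 0)
    (hc : ∀ π : P, Prime π → π ∣ a → π ∣ b → π ∣ α → π ∣ β → False) :
    ∃ r : P, IsCoprime (a + α * r) (b + β * r) := by
  classical
  set E := β * a + α * b with hEdef
  set s := (UniqueFactorizationMonoid.normalizedFactors E).filter
    (fun π => ¬ (π ∣ a ∧ π ∣ b)) with hs
  refine ⟨s.prod, ?_⟩
  apply isCoprime_of_prime_dvd
  · rintro ⟨h1, h2⟩
    apply hE
    rw [hEdef]
    linear_combination β * h1 + α * h2 - α * β * P_add_self s.prod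
  · intro π hπ h1 h2
    have hπE : π ∣ E := by
      have h3 : β * (a + α * s.prod) + α * (b + β * s.prod) = E := by
        rw [hEdef]
        linear_combination α * β * P_add_self s.prod
      rw [← h3]
      exact dvd_add (dvd_mul_of_dvd_right h1 _) (dvd_mul_of_dvd_right h2 _)
    by_cases hab : π ∣ a ∧ π ∣ b
    · -- π does not divide r
      have hr : ¬ π ∣ s.prod := by
        intro hr
        obtain ⟨ρ, hρ, hπρ⟩ := hπ.exists_mem_multiset_dvd hr
        rw [hs, Multiset.mem_filter] at hρ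
        have hρp := UniqueFactorizationMonoid.prime_of_normalized_factor ρ hρ.1
        have := hπ.associated_of_dvd hρp hπρ
        exact hρ.2 ⟨this.dvd_iff_dvd_left.mp hab.1, this.dvd_iff_dvd_left.mp hab.2⟩
      have h3 : π ∣ α * s.prod := (dvd_add_right hab.1).mp h1
      have h4 : π ∣ β * s.prod := (dvd_add_right hab.2).mp h2
      have h5 : π ∣ α := (hπ.dvd_or_dvd h3).resolve_right hr
      have h6 : π ∣ β := (hπ.dvd_or_dvd h4).resolve_right hr
      exact hc π hπ hab.1 hab.2 h5 h6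
    · -- π divides r
      obtain ⟨ρ, hρ, hassoc⟩ :=
        UniqueFactorizationMonoid.exists_mem_normalizedFactors_of_dvd hE hπ.irreducible hπE
      have hρs : ρ ∈ s := by
        rw [hs, Multiset.mem_filter]
        refine ⟨hρ, fun h => hab ?_⟩
        exact ⟨hassoc.dvd_iff_dvd_left.mpr h.1, hassoc.dvd_iff_dvd_left.mpr h.2⟩
      have h3 : π ∣ s.prod := hassoc.dvd.trans (Multiset.dvd_prod hρs)
      have h4 : π ∣ a := (dvd_add_left (dvd_mul_of_dvd_right h3 α)).mp h1
      have h5 : π ∣ b := (dvd_add_left (dvd_mul_of_dvd_right h3 β)).mp h2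
      exact hab ⟨h4, h5⟩

theorem NTprop_two : NTprop 2 := by
  intro M D0 hM hX hc
  obtain ⟨a, b, hD0⟩ := two_squares D0
  obtain ⟨α, β, hMe⟩ := two_squares M
  -- choose s
  have hs : ∃ s : P, β * (a + X * β * s) + α * (b + α * s) ≠ 0 := by
    by_contra hcon
    push Not at hcon
    have h0 := hcon 0
    have h1 := hcon 1
    apply hM
    rw [hMe]
    linear_combination h1 - h0
  obtain ⟨s, hs⟩ := hs
  have hcop : ∀ π : P, Prime π → π ∣ a + X * β * s → π ∣ b + α * s → π ∣ α → π ∣ β → False := by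
    intro π hπ h1 h2 h3 h4
    have ha : π ∣ a := (dvd_add_left (dvd_mul_of_dvd_left (dvd_mul_of_dvd_right h4 _) _)).mp h1
    have hb : π ∣ b := (dvd_add_left (dvd_mul_of_dvd_left h3 _)).mp h2
    have h5 : π ∣ D0 := by
      rw [hD0]
      exact dvd_add (dvd_pow ha (by norm_num)) (dvd_mul_of_dvd_right (dvd_pow hb (by norm_num)) _)
    have h6 : π ∣ M := by
      rw [hMe]
      exact dvd_add (dvd_pow h3 (by norm_num)) (dvd_mul_of_dvd_right (dvd_pow h4 (by norm_num)) _)
    exact hπ.not_isUnit (hc.isUnit_of_dvd' h5 h6)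
  obtain ⟨r, hr⟩ := unimod hs hcop
  set D := (a + X * β * s + α * r) ^ 2 + X * (b + α * s + β * r) ^ 2 with hD
  have hDD : D = D0 + M * (r ^ 2 + X * s ^ 2) := by
    rw [hD, hD0, hMe]
    simp only [CharTwo.add_sq]
    ring
  have hsq : Squarefree D := squarefree_of_coprime hr
  have hX0 : D.coeff 0 ≠ 0 := by
    intro h
    have h1 := X_dvd_iff.mpr h
    have h2 : (X : P) ∣ D0 := by
      rw [hDD] at h1
      exact (dvd_add_left (dvd_mul_of_dvd_left hX _)).mp h1
    exact prime_X.not_isUnit (hc.isUnit_of_dvd' h2 hX)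
  obtain ⟨K, hK0, hK2, hK⟩ := odd_order hsq hX0
  refine ⟨D, K, ?_, hK0, hK2, ?_⟩
  · rw [hDD]; exact ⟨r ^ 2 + X * s ^ 2, by ring⟩
  · rw [P_sub]; exact hK

/-- the trinomial lemma -/
lemma trinomial (n : ℕ) : ∀ k : ℕ, 0 < n → 0 < k →
    ∃ m : ℕ, ¬ 2 ∣ m ∧ (1 + X ^ k + X ^ (n + k) : P) ∣ X ^ (n * m) + 1 := by
  induction n using Nat.strong_induction_on with
  | _ n ih =>
    intro k hn hk
    by_cases h : 2 ∣ n ∧ 2 ∣ k
    · obtain ⟨⟨n', rfl⟩, ⟨k', rfl⟩⟩ := h
      obtain ⟨m, hm, hd⟩ := ih n' (by omega) k' (by omega) (by omega)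
      refine ⟨m, hm, ?_⟩
      have h1 : (1 + X ^ (2 * k') + X ^ (2 * n' + 2 * k') : P) = (1 + X ^ k' + X ^ (n' + k')) ^ 2 := by
        rw [CharTwo.add_sq, CharTwo.add_sq]; ring
      have h2 : (X ^ (2 * n' * m) + 1 : P) = (X ^ (n' * m) + 1) ^ 2 := by
        rw [CharTwo.add_sq]; ring
      rw [h1, h2]
      exact pow_dvd_pow_of_dvd hd 2
    · -- separable
      have hsep : (1 + X ^ k + X ^ (n + k) : P).Separable := by
        rw [separable_def]
        have c2 : ((2 : ℕ) : P) = 0 := CharP.cast_eq_zero _ 2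
        have hder : derivative (1 + X ^ k + X ^ (n + k) : P)
            = (k : P) * X ^ (k - 1) + ((n + k : ℕ) : P) * X ^ (n + k - 1) := by
          simp [derivative_X_pow]
        rw [hder]
        have castodd : ∀ t : ℕ, ¬ 2 ∣ t → ((t : ℕ) : P) = 1 := by
          intro t ht
          have : t = 2 * (t / 2) + 1 := by omega
          rw [this, Nat.cast_add, Nat.cast_mul, c2]; simp
        have casteven : ∀ t : ℕ, 2 ∣ t → ((t : ℕ) : P) = 0 := by
          rintro t ⟨s, rfl⟩
          rw [Nat.cast_mul, c2, zero_mul]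
        have copX : ∀ t : ℕ, IsCoprime (1 + X ^ k + X ^ (n + k) : P) (X ^ t) := by
          intro t
          apply IsCoprime.pow_right
          obtain ⟨k', rfl⟩ := Nat.exists_eq_succ_of_ne_zero hk.ne'
          refine ⟨1, -(X ^ k' + X ^ (n + k')), ?_⟩
          rw [Nat.succ_eq_add_one]; ring
        by_cases hk2 : 2 ∣ k
        · have hn2 : ¬ 2 ∣ n := fun h' => h ⟨h', hk2⟩
          rw [casteven k hk2, castodd (n + k) (by omega), zero_mul, zero_add, one_mul]
          exact copX _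
        · by_cases hn2 : 2 ∣ n
          · rw [castodd k hk2, castodd (n + k) (by omega), one_mul, one_mul]
            have e : (X ^ (k - 1) + X ^ (n + k - 1) : P) = X ^ (k - 1) * (1 + X ^ n) := by
              rw [mul_add, mul_one, ← pow_add]
              congr 2
              omega
            rw [e]
            apply IsCoprime.mul_right (copX _)
            refine ⟨1, -X ^ k, ?_⟩
            rw [pow_add]; ring
          · rw [castodd k hk2, casteven (n + k) (by omega), zero_mul, add_zero, one_mul]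
            exact copX _
      have h0 : (1 + X ^ k + X ^ (n + k) : P).coeff 0 ≠ 0 := by
        rw [coeff_zero_eq_eval_zero]
        simp [hk.ne']
      obtain ⟨m, hm0, hm, hd⟩ := odd_order hsep.squarefree h0
      refine ⟨m, hm, hd.trans ?_⟩
      have : (X ^ m - 1 : P) ∣ (X ^ m) ^ n - 1 ^ n := sub_dvd_pow_sub_pow _ _ _
      rw [one_pow, ← pow_mul, mul_comm m n, P_sub, P_sub] at this
      exact this

end Pool.Agent.Helper35.YG
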