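import Mathlib
import Pool.Agent.Helper35.YG.CL
import Pool.Agent.Helper35.YG.NT2

set_option autoImplicit false

open Polynomial

namespace Pool.Agent.Helper35.YG

lemma P_induction {p : P → Prop} (h0 : p 0) (hX : ∀ k, p (X ^ k))
    (hadd : ∀ f g, p f → p g → p (f + g)) : ∀ f, p f := by
  intro f
  induction f using Polynomial.induction_on' with
  | add f g hf hg => exact hadd f g hf hg
  | monomial k c =>
    have : ∀ z : ZMod 2, z = 0 ∨ z = 1 := by decide
    rcases this c with rfl | rfl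
    · simpa using h0
    · have := hX k
      rwa [X_pow_eq_monomial] at this

/-- `c = X^n + 1` -/
noncomputable abbrev cc' (n : ℕ) : P := X ^ n + 1

lemma cc'_sq (n : ℕ) : cc' n * cc' n = X ^ (2 * n) + 1 := by
  rw [X2N, sq]

namespace Dat

variable {T : Type*} [Group T] (D : Dat T)

lemma V_add (f g : P) : D.V (f + g) = D.V f * D.V g := by
  unfold V
  rw [D.U_add]
  calc D.w * (D.U f * D.U g) * D.w = D.w * D.U f * 1 * D.U g * D.w := by group
    _ = _ := by rw [← D.w2]; group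

lemma V_comm (f g : P) : D.V f * D.V g = D.V g * D.V f := by
  rw [← D.V_add, add_comm, D.V_add]

lemma aV (f : P) : D.a * D.V (X * f) = D.V f * D.a := by
  unfold V
  calc D.a * (D.w * D.U (X * f) * D.w) = (D.a * D.w) * D.U (X * f) * D.w := by group
    _ = D.w * (D.a⁻¹ * D.U (X * f)) * D.w := by rw [D.aw]; group
    _ = D.w * D.U f * (D.a⁻¹ * D.w) := by rw [D.aiU]; group
    _ = _ := by rw [D.aiw]; group

lemma apow_V (j : ℕ) (f : P) : D.a ^ j * D.V (X ^ j * f) = D.V f * D.a ^ j := by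
  induction j generalizing f with
  | zero => simp
  | succ j ih =>
    rw [pow_succ (D.a), mul_assoc, pow_succ (X : P), mul_comm (X ^ j) X, mul_assoc X, D.aV,
      ← mul_assoc, ih, mul_assoc]

lemma U1_conj {x y : T} (h : Commute x y) :
    Commute (D.U 1 * x * D.U 1) (D.U 1 * y * D.U 1) := by
  have h1 := D.U_self 1
  change D.U 1 * x * D.U 1 * (D.U 1 * y * D.U 1) = D.U 1 * y * D.U 1 * (D.U 1 * x * D.U 1)
  calc D.U 1 * x * D.U 1 * (D.U 1 * y * D.U 1) = D.U 1 * x * (D.U 1 * D.U 1) * y * D.U 1 := by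
        group
    _ = D.U 1 * (x * y) * D.U 1 := by rw [h1]; group
    _ = D.U 1 * y * (D.U 1 * D.U 1) * x * D.U 1 := by rw [h.eq, h1]; group
    _ = _ := by group

lemma w_conj {x y : T} (h : Commute x y) :
    Commute (D.w * x * D.w) (D.w * y * D.w) := by
  have h1 := D.w2
  change D.w * x * D.w * (D.w * y * D.w) = D.w * y * D.w * (D.w * x * D.w)
  calc D.w * x * D.w * (D.w * y * D.w) = D.w * x * (D.w * D.w) * y * D.w := by
        group
    _ = D.w * (x * y) * D.w := by rw [h1]; group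
    _ = D.w * y * (D.w * D.w) * x * D.w := by rw [h.eq, h1]; group
    _ = _ := by group

lemma U1_U1 (x : T) : D.U 1 * (D.U 1 * x * D.U 1) * D.U 1 = x := by
  have h1 := D.U_self 1
  calc D.U 1 * (D.U 1 * x * D.U 1) * D.U 1 = (D.U 1 * D.U 1) * x * (D.U 1 * D.U 1) := by group
    _ = x := by rw [h1]; group

lemma w_w (x : T) : D.w * (D.w * x * D.w) * D.w = x := by
  have h1 := D.w2
  calc D.w * (D.w * x * D.w) * D.w = (D.w * D.w) * x * (D.w * D.w) := by group
    _ = x := by rw [h1]; group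

/-- `D_1` -/
noncomputable def D1 (n : ℕ) (f : P) : T := D.U 1 * D.V (cc' n * f) * D.U 1

lemma D1_add (n : ℕ) (f g : P) : D.D1 n (f + g) = D.D1 n f * D.D1 n g := by
  unfold D1
  rw [mul_add, D.V_add]
  calc D.U 1 * (D.V (cc' n * f) * D.V (cc' n * g)) * D.U 1
      = D.U 1 * D.V (cc' n * f) * 1 * D.V (cc' n * g) * D.U 1 := by group
    _ = _ := by rw [← D.U_self 1]; group

lemma D1_zero (n : ℕ) : D.D1 n 0 = 1 := by
  unfold D1 V
  rw [mul_zero, U_zero, mul_one, D.w2, mul_one, D.U_self]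

lemma w_D1 (n : ℕ) (f : P) : D.w * D.D1 n f * D.w = D.D1 n f := by
  unfold D1 V
  have hb := D.braid
  have hc := D.U_comm 1 (cc' n * f)
  have h1 := D.U_self 1
  calc D.w * (D.U 1 * (D.w * D.U (cc' n * f) * D.w) * D.U 1) * D.w
      = (D.w * D.U 1 * D.w) * D.U (cc' n * f) * (D.w * D.U 1 * D.w) := by group
    _ = D.U 1 * D.w * (D.U 1 * D.U (cc' n * f)) * D.U 1 * D.w * D.U 1 := by rw [← hb]; group
    _ = D.U 1 * D.w * D.U (cc' n * f) * (D.U 1 * D.U 1) * D.w * D.U 1 := by rw [hc]; group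
    _ = _ := by rw [h1]; group

section

set_option linter.unusedSectionVars false

variable {n : ℕ} (hn : 0 < n) (haN : D.a ^ (2 * n) = 1)
include hn haN

lemma UX2n (f : P) : D.U (cc' n * (X ^ (2 * n) * f)) = D.U (cc' n * f) := by
  rw [show cc' n * (X ^ (2 * n) * f) = X ^ (2 * n) * (cc' n * f) by ring, D.U_pow_X haN]

lemma UcXn (f : P) : D.U (X ^ n * (cc' n * f)) = D.U (cc' n * f) := by
  have e : X ^ n * (cc' n * f) = cc' n * f + (cc' n * cc' n) * f := by
    have := P_add_self (cc' n * f)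
    linear_combination -this
  rw [e, D.U_add, cc'_sq, D.U_dvd haN (dvd_mul_right _ f), mul_one]

lemma s_U (f : P) : Commute (D.a ^ n) (D.U (cc' n * f)) := by
  change D.a ^ n * D.U (cc' n * f) = D.U (cc' n * f) * D.a ^ n
  rw [D.apow_U, D.UcXn hn haN]

lemma s_w : Commute (D.a ^ n) D.w := by
  have h2 : (D.a ^ n)⁻¹ = D.a ^ n := by
    rw [inv_eq_iff_mul_eq_one, ← pow_add, ← two_mul, haN]
  have h1 : ∀ j : ℕ, D.a ^ j * D.w = D.w * (D.a ^ j)⁻¹ := by
    intro j
    induction j with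
    | zero => simp
    | succ j ih => rw [pow_succ, mul_assoc, D.aw, ← mul_assoc, ih, mul_assoc, ← mul_inv_rev,
        ← pow_succ', ← pow_succ]
  change D.a ^ n * D.w = D.w * D.a ^ n
  rw [h1, h2]

lemma s_V (f : P) : Commute (D.a ^ n) (D.V (cc' n * f)) := by
  unfold V
  have h1 := D.s_w hn haN
  have h2 := D.s_U hn haN f
  exact (h1.mul_right h2).mul_right h1

/-- Lemma (A), first form -/
lemma A1 (k : ℕ) (hk : 0 < k) : Commute (D.a ^ n) (D.D1 n (X ^ k)) := by
  obtain ⟨m, hm, hd⟩ := trinomial n k hn hk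
  set y : P := cc' n * X ^ k with hy
  have h1y : (1 + X ^ k + X ^ (n + k) : P) = 1 + y := by rw [hy, pow_add]; ring
  rw [h1y] at hd
  obtain ⟨z, hz⟩ := hd
  have hN : 0 < 2 * n := by omega
  set E := D.prod (datQ hN) with hE
  -- c divides X^{nm}+1
  have hcK : cc' n ∣ X ^ (n * m) + 1 := by
    have : (X ^ n - 1 : P) ∣ (X ^ n) ^ m - 1 ^ m := sub_dvd_pow_sub_pow _ _ _
    rwa [one_pow, ← pow_mul, P_sub, P_sub] at this
  have hcz : cc' n ∣ z := by
    have cop : IsCoprime (cc' n) (1 + y) := by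
      refine ⟨-X ^ k, 1, ?_⟩
      rw [hy]; ring
    rw [hz] at hcK
    exact cop.dvd_of_dvd_mul_left hcK
  have hy0 : y ≠ 0 := by
    rw [hy]
    refine mul_ne_zero ?_ (pow_ne_zero _ X_ne_zero)
    have := (monic_X_pow_add_C (1 : ZMod 2) hn.ne').ne_zero
    simpa using this
  have hN2 : (X ^ (2 * n) + 1 : P) ∣ z * y := by
    rw [← cc'_sq]
    exact mul_dvd_mul hcz ⟨X ^ k, hy⟩
  have key := CL D hN haN (E.U 1 * E.V y * E.U 1) (p := 1 + y) (q := y) (h := z * y) (n * m)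
    (Or.inr hy0) ?_ ?_ hN2 ?_
  · -- conclude
    have e1 : D.a ^ (n * m) = D.a ^ n := by
      obtain ⟨t, rfl⟩ : ∃ t, m = 2 * t + 1 := ⟨m / 2, by omega⟩
      rw [show n * (2 * t + 1) = 2 * n * t + n by ring, pow_add, pow_mul, haN, one_pow, one_mul]
    rw [e1] at key
    exact key.symm
  · rw [mul_smul, mul_smul, ← E.cc_U]
    rw [mul_zero, add_zero, E.cc_V (Or.inl one_ne_zero), zero_add, mul_one, ← E.cc_U, one_mul]
  · rw [hz]; ring
  · -- matrices
    have hphi : phi (2 * n) y * (xx (2 * n) ^ (n * m)) ^ 2 = phi (2 * n) y := by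
      have h1 : phi (2 * n) (y * (X ^ (n * m) + 1)) = 0 := by
        rw [phi_eq_zero, ← cc'_sq]
        exact mul_dvd_mul ⟨X ^ k, hy⟩ hcK
      rw [map_mul, map_add, map_pow, phi_X, map_one, mul_add, mul_one] at h1
      have h2 := RN_add_self (phi (2 * n) y)
      have h3 := h1.trans h2.symm
      have h4 := add_right_cancel h3
      rw [← pow_mul, mul_comm 2 (n * m)] at h4
      have h5 : (xx (2 * n)) ^ (n * m * 2) = ((xx (2 * n)) ^ (n * m)) ^ 2 := pow_mul _ _ _
      rwa [h5] at h4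
    have e2 : (datQ hN).a ^ (n * m) = dia ((xu hN) ^ (n * m)) := by
      rw [dia_pow]; rfl
    have e3 : (E.U 1 * E.V y * E.U 1).2 = upp (phi (2 * n) 1) * (swp * upp (phi (2 * n) y) * swp) *
        upp (phi (2 * n) 1) := rfl
    rw [e2, e3, map_one]
    set u := (xu hN) ^ (n * m) with hu
    have hu' : (u : RN (2 * n)) = xx (2 * n) ^ (n * m) := by
      rw [hu, Units.val_pow_eq_pow_val]; rfl
    rw [← hu'] at hphi
    have hp1 : phi (2 * n) y * u = phi (2 * n) y * ((u⁻¹ : (RN (2 * n))ˣ) : RN (2 * n)) := by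
      have h5 : (u : RN (2 * n)) * ((u⁻¹ : (RN (2 * n))ˣ) : RN (2 * n)) = 1 := u.mul_inv
      linear_combination ((u⁻¹ : (RN (2 * n))ˣ) : RN (2 * n)) * hphi
        - (phi (2 * n) y * u) * h5
    have h2 := RN_add_self (1 : RN (2 * n))
    have h3 : ∀ b : RN (2 * n), 1 + b + 1 = b := by
      intro b
      linear_combination h2
    change _ * _ = _ * _
    apply Units.ext
    simp only [Units.val_mul]
    ext i j; fin_cases i <;> fin_cases j <;> simp [upp, swp, dia]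
    · ring
    · linear_combination -hp1 + (((u⁻¹ : (RN (2 * n))ˣ) : RN (2 * n)) - u) * h2
    · linear_combination hp1
    · ring

lemma A2 (f : P) : Commute (D.a ^ n) (D.D1 n f) := by
  induction f using P_induction with
  | h0 => rw [D1_zero]; exact Commute.one_right _
  | hX k =>
    rcases Nat.eq_zero_or_pos k with rfl | hk
    · have := D.A1 hn haN (2 * n) (by omega)
      have e : D.D1 n (X ^ (2 * n)) = D.D1 n (X ^ 0) := by
        unfold D1 V
        have := D.UX2n hn haN 1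
        rw [mul_one] at this
        rw [this, pow_zero]
      rwa [e] at this
    · exact D.A1 hn haN k hk
  | hadd f g hf hg => rw [D1_add]; exact hf.mul_right hg

lemma U1_s : D.U 1 * D.a ^ n * D.U 1 = D.U (cc' n * 1) * D.a ^ n := by
  rw [mul_assoc, D.apow_U, ← mul_assoc, ← D.U_add]
  congr 2
  ring

lemma A3 (f : P) : Commute (D.U (cc' n * 1)) (D.V (cc' n * f)) := by
  have h1 := D.U1_conj (D.A2 hn haN f)
  rw [D.U1_s hn haN, D1, D.U1_U1] at h1
  have h2 := D.s_V hn haN f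
  have h3 : Commute (D.U (cc' n * 1) * D.a ^ n * (D.a ^ n)⁻¹) (D.V (cc' n * f)) :=
    h1.mul_left h2.inv_left
  rwa [mul_inv_cancel_right] at h3

lemma A4 (j : ℕ) (f : P) : Commute (D.U (cc' n * X ^ j)) (D.V (cc' n * f)) := by
  have h1 := D.A3 hn haN (X ^ j * f)
  have h2 := D.apow_U j (cc' n * 1)
  have h3 := D.apow_V j (cc' n * f)
  rw [show X ^ j * (cc' n * f) = cc' n * (X ^ j * f) by ring] at h3
  rw [show X ^ j * (cc' n * 1) = cc' n * X ^ j by ring] at h2
  have e2 : D.U (cc' n * X ^ j) = D.a ^ j * D.U (cc' n * 1) * (D.a ^ j)⁻¹ := by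
    rw [h2, mul_inv_cancel_right]
  have e3 : D.V (cc' n * f) = D.a ^ j * D.V (cc' n * (X ^ j * f)) * (D.a ^ j)⁻¹ := by
    rw [h3, mul_inv_cancel_right]
  rw [e2, e3]
  change _ * _ = _ * _
  calc D.a ^ j * D.U (cc' n * 1) * (D.a ^ j)⁻¹ * (D.a ^ j * D.V (cc' n * (X ^ j * f)) *
        (D.a ^ j)⁻¹) = D.a ^ j * (D.U (cc' n * 1) * D.V (cc' n * (X ^ j * f))) * (D.a ^ j)⁻¹ := by
        group
    _ = _ := by rw [h1.eq]; group

lemma A5 (f g : P) : Commute (D.U (cc' n * f)) (D.V (cc' n * g)) := by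
  induction f using P_induction with
  | h0 => rw [mul_zero, U_zero]; exact Commute.one_left _
  | hX k => exact D.A4 hn haN k g
  | hadd f f' hf hf' => rw [mul_add, D.U_add]; exact hf.mul_left hf'

lemma U_D1 (f g : P) : Commute (D.U (cc' n * f)) (D.D1 n g) := by
  have h1 := D.U1_conj (D.A5 hn haN f g)
  have e : D.U 1 * D.U (cc' n * f) * D.U 1 = D.U (cc' n * f) := by
    rw [D.U_comm, mul_assoc, D.U_self, mul_one]
  rwa [e] at h1

lemma V_D1 (f g : P) : Commute (D.V (cc' n * f)) (D.D1 n g) := by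
  have h1 := D.w_conj (D.U_D1 hn haN f g)
  rwa [D.w_D1] at h1

/-- generators of `K_T` -/
def KS (n : ℕ) : Set T :=
  {x | x = D.a ^ n ∨ ∃ f : P, x = D.U (cc' n * f) ∨ x = D.V (cc' n * f) ∨ x = D.D1 n f}

omit hn haN in
lemma D1_comm (f g : P) : Commute (D.D1 n f) (D.D1 n g) := by
  change _ * _ = _ * _
  rw [← D.D1_add, add_comm, D.D1_add]

lemma KS_comm {x y : T} (hx : x ∈ D.KS n) (hy : y ∈ D.KS n) : x * y = y * x := by
  change Commute x y
  rcases hx with rfl | ⟨f, rfl | rfl | rfl⟩ <;> rcases hy with rfl | ⟨g, rfl | rfl | rfl⟩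
  · exact Commute.refl _
  · exact D.s_U hn haN g
  · exact D.s_V hn haN g
  · exact D.A2 hn haN g
  · exact (D.s_U hn haN f).symm
  · exact D.U_comm _ _
  · exact D.A5 hn haN f g
  · exact D.U_D1 hn haN f g
  · exact (D.s_V hn haN f).symm
  · exact (D.A5 hn haN g f).symm
  · exact D.V_comm _ _
  · exact D.V_D1 hn haN f g
  · exact (D.A2 hn haN f).symm
  · exact (D.U_D1 hn haN g f).symm
  · exact (D.V_D1 hn haN g f).symm
  · exact D.D1_comm f g

/-- Lemma (B), one prime -/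
lemma B1 (k ℓ : ℕ) (hNT : NTprop ℓ) : ∃ K : ℕ, ¬ ℓ ∣ K ∧
    Commute (D.a ^ K) (D.U (cc' n * X ^ k) * D.V (cc' n * X ^ k) * D.D1 n (X ^ k)) := by
  set y : P := cc' n * X ^ k with hy
  have hc0 : cc' n ≠ 0 := by
    have := (monic_X_pow_add_C (1 : ZMod 2) hn.ne').ne_zero
    simpa using this
  have hy0 : y ≠ 0 := by
    rw [hy]
    exact mul_ne_zero hc0 (pow_ne_zero _ X_ne_zero)
  have hXy : (X : P) ∣ y * (1 + y) ^ 2 := by
    rcases Nat.eq_zero_or_pos k with hk | hk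
    · apply dvd_mul_of_dvd_right
      apply dvd_pow _ two_ne_zero
      rw [hy, hk, pow_zero, mul_one]
      obtain ⟨n', rfl⟩ := Nat.exists_eq_succ_of_ne_zero hn.ne'
      refine ⟨X ^ n', ?_⟩
      have := P_add_self (1 : P)
      rw [cc', Nat.succ_eq_add_one]
      linear_combination this
    · apply dvd_mul_of_dvd_left
      rw [hy]
      exact dvd_mul_of_dvd_right (dvd_pow_self X hk.ne') _
  obtain ⟨Dp, K, hM, hK0, hKl, hD⟩ := hNT (cc' n ^ 4 * X ^ (2 * k + 1)) (1 + y + y ^ 3)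
    (mul_ne_zero (pow_ne_zero _ hc0) (pow_ne_zero _ X_ne_zero))
    (dvd_mul_of_dvd_right (dvd_pow_self X (by omega)) _) (by
      apply IsCoprime.mul_right
      · apply IsCoprime.pow_right
        refine ⟨1, -(X ^ k * (1 + y ^ 2)), ?_⟩
        rw [hy]; ring
      · apply IsCoprime.pow_right
        obtain ⟨r, hr⟩ := hXy
        refine ⟨1, -r, ?_⟩
        have := P_add_self (y ^ 2)
        linear_combination hr - this)
  obtain ⟨t, ht⟩ := hM
  have hN : 0 < 2 * n := by omega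
  set E := D.prod (datQ hN) with hE
  set h0 : P := cc' n * cc' n * (X * t) with hh0
  have hDp : Dp = 1 + y + y ^ 3 + h0 * y ^ 2 := by
    have e : cc' n ^ 4 * X ^ (2 * k + 1) * t = h0 * y ^ 2 := by
      rw [hh0, hy]; ring
    linear_combination ht + e
  rw [P_sub] at hD
  obtain ⟨z, hz⟩ := hD
  have hN2 : (X ^ (2 * n) + 1 : P) ∣ z * y ^ 2 := by
    rw [← cc'_sq]
    refine ⟨z * X ^ (2 * k), ?_⟩
    rw [hy]; ring
  have hh0N : (X ^ (2 * n) + 1 : P) ∣ h0 := by
    rw [← cc'_sq, hh0]; exact dvd_mul_right _ _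
  have key := CL D hN haN (E.U h0 * (E.U y * E.V y * (E.U 1 * E.V y * E.U 1)))
    (p := Dp) (q := y ^ 2) (h := z * y ^ 2) K
    (Or.inr (pow_ne_zero _ hy0)) ?_ ?_ hN2 ?_
  · refine ⟨K, hKl, ?_⟩
    have e3 : (E.U h0 * (E.U y * E.V y * (E.U 1 * E.V y * E.U 1))).1
        = D.U h0 * (D.U y * D.V y * (D.U 1 * D.V y * D.U 1)) := rfl
    rw [e3, D.U_dvd haN hh0N, one_mul] at key
    exact key.symm
  · simp only [mul_smul]
    rw [← E.cc_U]
    rw [mul_zero, add_zero, E.cc_V (Or.inl one_ne_zero), zero_add, mul_one, ← E.cc_U, one_mul]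
    have hne : (1 + y ≠ 0) ∨ y ≠ 0 := Or.inr hy0
    rw [E.cc_V hne, ← E.cc_U, ← E.cc_U]
    have e4 : y + y * (1 + y) = y ^ 2 := by
      have := P_add_self y
      linear_combination this
    rw [e4]
    congr 1
    rw [hDp]; ring
  · rw [hz]; ring
  · have e3 : (E.U h0 * (E.U y * E.V y * (E.U 1 * E.V y * E.U 1))).2
        = upp (phi (2 * n) h0) * (upp (phi (2 * n) y) * (swp * upp (phi (2 * n) y) * swp) *
          (upp (phi (2 * n) 1) * (swp * upp (phi (2 * n) y) * swp) * upp (phi (2 * n) 1))) := rfl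
    have e2 : (datQ hN).a ^ K = dia ((xu hN) ^ K) := by
      rw [dia_pow]; rfl
    rw [e2, e3, map_one, phi_eq_zero.mpr hh0N]
    have hph : phi (2 * n) y * phi (2 * n) y = 0 := by
      rw [← map_mul, phi_eq_zero, ← cc'_sq]
      exact mul_dvd_mul ⟨X ^ k, hy⟩ ⟨X ^ k, hy⟩
    set u := (xu hN) ^ K
    set f := phi (2 * n) y
    have h2 := RN_add_self (1 : RN (2 * n))
    change _ * _ = _ * _
    apply Units.ext
    simp only [Units.val_mul]
    ext i j; fin_cases i <;> fin_cases j <;> simp [upp, swp, dia]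
    · ring
    · linear_combination (((u⁻¹ : (RN (2 * n))ˣ) : RN (2 * n)) - u) * ((3 + f) * hph + f * h2 + h2)
    · linear_combination ((u : RN (2 * n)) - ((u⁻¹ : (RN (2 * n))ˣ) : RN (2 * n))) * (hph + f * h2)
    · ring

/-- Lemma (B) -/
lemma B2 (hNT : ∀ ℓ : ℕ, ℓ.Prime → ℓ ∣ 2 * n → NTprop ℓ) (k : ℕ) :
    Commute D.a (D.U (cc' n * X ^ k) * D.V (cc' n * X ^ k) * D.D1 n (X ^ k)) := by
  set z := D.U (cc' n * X ^ k) * D.V (cc' n * X ^ k) * D.D1 n (X ^ k) with hz
  -- the set of exponents is an ideal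
  let S : AddSubgroup ℤ :=
    { carrier := {j | Commute (D.a ^ j) z}
      add_mem' := by
        intro i j hi hj
        change Commute (D.a ^ (i + j)) z
        rw [zpow_add]
        exact Commute.mul_left hi hj
      zero_mem' := by
        change Commute (D.a ^ (0 : ℤ)) z
        rw [zpow_zero]; exact Commute.one_left _
      neg_mem' := by
        intro i hi
        change Commute (D.a ^ (-i)) z
        rw [zpow_neg]; exact Commute.inv_left hi }
  have memS : ∀ j : ℤ, j ∈ S ↔ Commute (D.a ^ j) z := fun j => Iff.rfl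
  obtain ⟨d, hd⟩ := Int.subgroup_cyclic S
  have hdS : ∀ j : ℤ, j ∈ S ↔ d ∣ j := by
    intro j
    rw [hd, AddSubgroup.mem_closure_singleton]
    constructor
    · rintro ⟨m, rfl⟩; exact ⟨m, by rw [smul_eq_mul, mul_comm]⟩
    · rintro ⟨m, rfl⟩; exact ⟨m, by rw [smul_eq_mul, mul_comm]⟩
  have hN : ((2 * n : ℕ) : ℤ) ∈ S := by
    rw [memS, zpow_natCast, haN]; exact Commute.one_left _
  have hd1 : d.natAbs = 1 := by
    by_contra hne
    obtain ⟨ℓ, hl, hld⟩ := Nat.exists_prime_and_dvd hne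
    have h1 : (ℓ : ℤ) ∣ d := Int.natCast_dvd.mpr hld
    have h2 : ℓ ∣ 2 * n := by
      have := h1.trans ((hdS _).mp hN)
      exact_mod_cast this
    obtain ⟨K, hK, hc⟩ := D.B1 hn haN k ℓ (hNT ℓ hl h2)
    have h3 : (K : ℤ) ∈ S := by rw [memS, zpow_natCast]; exact hc
    have h4 := h1.trans ((hdS _).mp h3)
    exact hK (by exact_mod_cast h4)
  have h1S : (1 : ℤ) ∈ S := by
    rw [hdS]
    exact Int.natAbs_dvd_natAbs.mp (by rw [hd1]; exact one_dvd _)
  rw [memS, zpow_one] at h1S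
  exact h1S

/-- the subgroup `K_T` -/
def KT (n : ℕ) : Subgroup T := Subgroup.closure (D.KS n)

lemma KT_comm {x y : T} (hx : x ∈ D.KT n) (hy : y ∈ D.KT n) : x * y = y * x := by
  have := Subgroup.isMulCommutative_closure (k := D.KS n)
    (fun x hx y hy => D.KS_comm hn haN hx hy)
  exact congrArg Subtype.val (this.is_comm.comm (⟨x, hx⟩ : D.KT n) ⟨y, hy⟩)

omit hn haN in
lemma KT_U (f : P) : D.U (cc' n * f) ∈ D.KT n :=
  Subgroup.subset_closure (Or.inr ⟨f, Or.inl rfl⟩)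
omit hn haN in
lemma KT_V (f : P) : D.V (cc' n * f) ∈ D.KT n :=
  Subgroup.subset_closure (Or.inr ⟨f, Or.inr (Or.inl rfl)⟩)
omit hn haN in
lemma KT_D1 (f : P) : D.D1 n f ∈ D.KT n :=
  Subgroup.subset_closure (Or.inr ⟨f, Or.inr (Or.inr rfl)⟩)
omit hn haN in
lemma KT_s : D.a ^ n ∈ D.KT n :=
  Subgroup.subset_closure (Or.inl rfl)

omit hn haN in
lemma KT_conj_of (g : T) (h : ∀ x ∈ D.KS n, g * x * g⁻¹ ∈ D.KT n) :
    ∀ x ∈ D.KT n, g * x * g⁻¹ ∈ D.KT n := by
  intro x hx
  induction hx using Subgroup.closure_induction with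
  | mem x hx => exact h x hx
  | one => simp
  | mul x y _ _ hx hy =>
    have : g * (x * y) * g⁻¹ = (g * x * g⁻¹) * (g * y * g⁻¹) := by group
    rw [this]; exact (D.KT n).mul_mem hx hy
  | inv x _ hx =>
    have : g * x⁻¹ * g⁻¹ = (g * x * g⁻¹)⁻¹ := by group
    rw [this]; exact (D.KT n).inv_mem hx

lemma KT_w : ∀ x ∈ D.KT n, D.w * x * D.w ∈ D.KT n := by
  have h : ∀ x ∈ D.KT n, D.w * x * D.w⁻¹ ∈ D.KT n := by
    apply D.KT_conj_of
    rw [D.w_inv]
    rintro x (rfl | ⟨f, rfl | rfl | rfl⟩)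
    · rw [← (D.s_w hn haN).eq, mul_assoc, D.w2, mul_one]; exact D.KT_s
    · exact D.KT_V f
    · unfold V; rw [D.w_w]; exact D.KT_U f
    · rw [D.w_D1]; exact D.KT_D1 f
  rw [D.w_inv] at h
  exact h

lemma KT_U1 : ∀ x ∈ D.KT n, D.U 1 * x * D.U 1 ∈ D.KT n := by
  have h : ∀ x ∈ D.KT n, D.U 1 * x * (D.U 1)⁻¹ ∈ D.KT n := by
    apply D.KT_conj_of
    rw [D.U_inv]
    rintro x (rfl | ⟨f, rfl | rfl | rfl⟩)
    · rw [D.U1_s hn haN]
      exact (D.KT n).mul_mem (D.KT_U _) D.KT_s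
    · rw [D.U_comm, mul_assoc, D.U_self, mul_one]; exact D.KT_U f
    · exact D.KT_D1 f
    · unfold D1; rw [D.U1_U1]; exact D.KT_V f
  rw [D.U_inv] at h
  exact h

lemma KT_a (hNT : ∀ ℓ : ℕ, ℓ.Prime → ℓ ∣ 2 * n → NTprop ℓ) :
    ∀ x ∈ D.KT n, D.a * x * D.a⁻¹ ∈ D.KT n := by
  have hU : ∀ f, D.a * D.U (cc' n * f) * D.a⁻¹ ∈ D.KT n := by
    intro f
    rw [D.aU, mul_inv_cancel_right, show X * (cc' n * f) = cc' n * (X * f) by ring]
    exact D.KT_U _
  have hV : ∀ f, D.a * D.V (cc' n * f) * D.a⁻¹ ∈ D.KT n := by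
    intro f
    have h1 : D.V (cc' n * f) = D.V (X * (cc' n * (X ^ (2 * n - 1) * f))) := by
      have e : X * (cc' n * (X ^ (2 * n - 1) * f)) = cc' n * (X ^ (2 * n) * f) := by
        have : (X : P) ^ (2 * n) = X * X ^ (2 * n - 1) := by
          rw [← pow_succ']; congr 1; omega
        rw [this]; ring
      rw [e]; unfold V; rw [D.UX2n hn haN]
    rw [h1, D.aV, mul_inv_cancel_right]
    exact D.KT_V _
  apply D.KT_conj_of
  rintro x (rfl | ⟨f, rfl | rfl | rfl⟩)
  · rw [← pow_succ', pow_succ, mul_inv_cancel_right]; exact D.KT_s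
  · exact hU f
  · exact hV f
  · induction f using P_induction with
    | h0 => rw [D1_zero]; simp
    | hX k =>
      have hB := D.B2 hn haN hNT k
      set u := D.U (cc' n * X ^ k) with hu
      set v := D.V (cc' n * X ^ k) with hv
      set d := D.D1 n (X ^ k) with hd
      have e : D.a * d * D.a⁻¹ = (D.a * v * D.a⁻¹)⁻¹ * (D.a * u * D.a⁻¹)⁻¹ * (u * v * d) := by
        have h2 : u * v * d = D.a * (u * v * d) * D.a⁻¹ := by
          rw [hB.eq, mul_inv_cancel_right]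
        rw [h2]; group
      rw [e]
      refine (D.KT n).mul_mem ((D.KT n).mul_mem ((D.KT n).inv_mem (hV _))
        ((D.KT n).inv_mem (hU _))) ((D.KT n).mul_mem ((D.KT n).mul_mem (D.KT_U _) (D.KT_V _))
          (D.KT_D1 _))
    | hadd f g hf hg =>
      rw [D1_add]
      have : D.a * (D.D1 n f * D.D1 n g) * D.a⁻¹ =
        (D.a * D.D1 n f * D.a⁻¹) * (D.a * D.D1 n g * D.a⁻¹) := by group
      rw [this]; exact (D.KT n).mul_mem hf hg

end

end Dat

end Pool.Agent.Helper35.YG
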