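import Mathlib
import Pool.Agent.Helper35.YG.Dbl

set_option autoImplicit false

open Polynomial

namespace Pool.Agent.Helper35.YG

/-- exponent trick -/
lemma exp_trick {T : Type*} [Group T] {a z : T} {N : ℕ} (haN : a ^ N = 1)
    (h : ∀ ℓ : ℕ, ℓ.Prime → ℓ ∣ N → ∃ K : ℕ, ¬ ℓ ∣ K ∧ Commute (a ^ K) z) : Commute a z := by
  let S : AddSubgroup ℤ :=
    { carrier := {j | Commute (a ^ j) z}
      add_mem' := by
        intro i j hi hj
        change Commute (a ^ (i + j)) z
        rw [zpow_add]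
        exact Commute.mul_left hi hj
      zero_mem' := by
        change Commute (a ^ (0 : ℤ)) z
        rw [zpow_zero]; exact Commute.one_left _
      neg_mem' := by
        intro i hi
        change Commute (a ^ (-i)) z
        rw [zpow_neg]; exact Commute.inv_left hi }
  have memS : ∀ j : ℤ, j ∈ S ↔ Commute (a ^ j) z := fun j => Iff.rfl
  obtain ⟨d, hd⟩ := Int.subgroup_cyclic S
  have hdS : ∀ j : ℤ, j ∈ S ↔ d ∣ j := by
    intro j
    rw [hd, AddSubgroup.mem_closure_singleton]
    constructor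
    · rintro ⟨m, rfl⟩; exact ⟨m, by rw [smul_eq_mul, mul_comm]⟩
    · rintro ⟨m, rfl⟩; exact ⟨m, by rw [smul_eq_mul, mul_comm]⟩
  have hN : ((N : ℕ) : ℤ) ∈ S := by
    rw [memS, zpow_natCast, haN]; exact Commute.one_left _
  have hd1 : d.natAbs = 1 := by
    by_contra hne
    obtain ⟨ℓ, hl, hld⟩ := Nat.exists_prime_and_dvd hne
    have h1 : (ℓ : ℤ) ∣ d := Int.natCast_dvd.mpr hld
    have h2 : ℓ ∣ N := by
      have := h1.trans ((hdS _).mp hN)
      exact_mod_cast this
    obtain ⟨K, hK, hc⟩ := h ℓ hl h2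
    have h3 : (K : ℤ) ∈ S := by rw [memS, zpow_natCast]; exact hc
    have h4 := h1.trans ((hdS _).mp h3)
    exact hK (by exact_mod_cast h4)
  have h1S : (1 : ℤ) ∈ S := by
    rw [hdS]
    exact Int.natAbs_dvd_natAbs.mp (by rw [hd1]; exact one_dvd _)
  rw [memS, zpow_one] at h1S
  exact h1S

namespace Dat

variable {T : Type*} [Group T] (D : Dat T)

/-- the group generated by the data -/
def GG : Subgroup T := Subgroup.closure ({D.a, D.w} ∪ Set.range D.U)

lemma a_GG : D.a ∈ D.GG := Subgroup.subset_closure (Or.inl (Or.inl rfl))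
lemma w_GG : D.w ∈ D.GG := Subgroup.subset_closure (Or.inl (Or.inr rfl))
lemma U_GG (f : P) : D.U f ∈ D.GG := Subgroup.subset_closure (Or.inr ⟨f, rfl⟩)

lemma V_GG (f : P) : D.V f ∈ D.GG :=
  D.GG.mul_mem (D.GG.mul_mem D.w_GG (D.U_GG f)) D.w_GG

/-- every element of the data group moves the base point to a `cc p q` and acts on the first
column of the matrix accordingly -/
lemma col {N : ℕ} (hN : 0 < N) {g : T × GL (Fin 2) (RN N)} (hg : g ∈ (D.prod (datQ hN)).GG) :
    ∃ p q : P, IsCoprime p q ∧ ∃ u : (RN N)ˣ,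
      ((g.2 : Matrix (Fin 2) (Fin 2) (RN N)) 0 0 = u * phi N p) ∧
      ((g.2 : Matrix (Fin 2) (Fin 2) (RN N)) 1 0 = u * phi N q) ∧
      g • (D.prod (datQ hN)).cc 1 0 = (D.prod (datQ hN)).cc p q := by
  set E := D.prod (datQ hN) with hE
  have cne : ∀ {p q : P}, IsCoprime p q → p ≠ 0 ∨ q ≠ 0 := by
    intro p q h
    by_contra hc
    push Not at hc
    rw [hc.1, hc.2] at h
    exact not_isCoprime_zero_zero h
  have hxx : (xx N) * ((xu hN)⁻¹ : (RN N)ˣ) = 1 := (xu hN).mul_inv
  have irrX : Irreducible (X : P) := irreducible_X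
  unfold GG at hg
  induction hg using Subgroup.closure_induction_left with
  | one =>
    refine ⟨1, 0, isCoprime_one_left, 1, ?_, ?_, ?_⟩
    · simp
    · simp
    · rw [one_smul]
  | mul_left x hx y _ ih =>
    obtain ⟨p, q, hpq, u, h0, h1, hc⟩ := ih
    rcases hx with (hx | hx) | ⟨f, rfl⟩
    · -- a
      subst hx
      by_cases hX : (X : P) ∣ q
      · obtain ⟨q', rfl⟩ := hX
        refine ⟨p, q', hpq.of_mul_right_right, xu hN * u, ?_, ?_, ?_⟩
        · change ((dia (xu hN) * y.2 : GL (Fin 2) (RN N)) : Matrix (Fin 2) (Fin 2) (RN N)) 0 0 = _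
          rw [Units.val_mul, Matrix.mul_apply, Fin.sum_univ_two, h0, h1]
          simp [dia, mul_assoc]
        · change ((dia (xu hN) * y.2 : GL (Fin 2) (RN N)) : Matrix (Fin 2) (Fin 2) (RN N)) 1 0 = _
          rw [Units.val_mul, Matrix.mul_apply, Fin.sum_univ_two, h0, h1, map_mul, phi_X]
          simp only [dia, Matrix.cons_val_zero, Matrix.cons_val_one, Matrix.of_apply,
            Matrix.cons_val', Matrix.cons_val_fin_one, zero_mul, zero_add, Units.val_mul]
          change ((xu hN)⁻¹ : (RN N)ˣ) * (u * (xx N ^ 2 * phi N q')) = xx N * u * phi N q'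
          linear_combination (u : RN N) * xx N * phi N q' * hxx
        · rw [mul_smul, hc, E.cc_a (cne hpq), E.cc_mul X_ne_zero]
      · have hXq : IsCoprime (X : P) q := (irrX.coprime_iff_not_dvd).mpr hX
        refine ⟨X * p, q, hXq.mul_left hpq, (xu hN)⁻¹ * u, ?_, ?_, ?_⟩
        · change ((dia (xu hN) * y.2 : GL (Fin 2) (RN N)) : Matrix (Fin 2) (Fin 2) (RN N)) 0 0 = _
          rw [Units.val_mul, Matrix.mul_apply, Fin.sum_univ_two, h0, h1, map_mul, phi_X]
          simp only [dia, Matrix.cons_val_zero, Matrix.cons_val_one, Matrix.of_apply,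
            Matrix.cons_val', Matrix.cons_val_fin_one, zero_mul, add_zero, Units.val_mul]
          change xx N * (u * phi N p) = ((xu hN)⁻¹ : (RN N)ˣ) * u * (xx N ^ 2 * phi N p)
          linear_combination (-(u : RN N) * xx N * phi N p) * hxx
        · change ((dia (xu hN) * y.2 : GL (Fin 2) (RN N)) : Matrix (Fin 2) (Fin 2) (RN N)) 1 0 = _
          rw [Units.val_mul, Matrix.mul_apply, Fin.sum_univ_two, h0, h1]
          simp [dia, mul_assoc]
        · rw [mul_smul, hc, E.cc_a (cne hpq)]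
    · -- w
      rw [Set.mem_singleton_iff] at hx
      subst hx
      refine ⟨q, p, hpq.symm, u, ?_, ?_, ?_⟩
      · change ((swp * y.2 : GL (Fin 2) (RN N)) : Matrix (Fin 2) (Fin 2) (RN N)) 0 0 = _
        rw [Units.val_mul, Matrix.mul_apply, Fin.sum_univ_two, h0, h1]
        simp [swp]
      · change ((swp * y.2 : GL (Fin 2) (RN N)) : Matrix (Fin 2) (Fin 2) (RN N)) 1 0 = _
        rw [Units.val_mul, Matrix.mul_apply, Fin.sum_univ_two, h0, h1]
        simp [swp]
      · rw [mul_smul, hc, E.cc_w (cne hpq)]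
    · -- U f
      refine ⟨p + f * q, q, hpq.add_mul_right_left f, u, ?_, ?_, ?_⟩
      · change ((upp (phi N f) * y.2 : GL (Fin 2) (RN N)) : Matrix (Fin 2) (Fin 2) (RN N)) 0 0 = _
        rw [Units.val_mul, Matrix.mul_apply, Fin.sum_univ_two, h0, h1, map_add, map_mul]
        simp [upp]
        ring
      · change ((upp (phi N f) * y.2 : GL (Fin 2) (RN N)) : Matrix (Fin 2) (Fin 2) (RN N)) 1 0 = _
        rw [Units.val_mul, Matrix.mul_apply, Fin.sum_univ_two, h0, h1]
        simp [upp]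
      · rw [mul_smul, hc, E.cc_U]
  | inv_mul_cancel x hx y _ ih =>
    obtain ⟨p, q, hpq, u, h0, h1, hc⟩ := ih
    rcases hx with (hx | hx) | ⟨f, rfl⟩
    · -- a⁻¹
      subst hx
      have e2 : (E.a⁻¹ * y).2 = dia (xu hN)⁻¹ * y.2 := by
        rw [← dia_inv]; rfl
      by_cases hX : (X : P) ∣ p
      · obtain ⟨p', rfl⟩ := hX
        refine ⟨p', q, hpq.of_mul_left_right, xu hN * u, ?_, ?_, ?_⟩
        · rw [e2, Units.val_mul, Matrix.mul_apply, Fin.sum_univ_two, h0, h1, map_mul, phi_X]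
          simp only [dia, Matrix.cons_val_zero, Matrix.cons_val_one, Matrix.of_apply,
            Matrix.cons_val', Matrix.cons_val_fin_one, zero_mul, add_zero, Units.val_mul]
          change ((xu hN)⁻¹ : (RN N)ˣ) * (u * (xx N ^ 2 * phi N p')) = xx N * u * phi N p'
          linear_combination (u : RN N) * xx N * phi N p' * hxx
        · rw [e2, Units.val_mul, Matrix.mul_apply, Fin.sum_univ_two, h0, h1]
          simp [dia, mul_assoc]
        · rw [mul_smul, hc, E.cc_ai (cne hpq), E.cc_mul X_ne_zero]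
      · have hXp : IsCoprime (X : P) p := (irrX.coprime_iff_not_dvd).mpr hX
        refine ⟨p, X * q, hXp.symm.mul_right hpq, (xu hN)⁻¹ * u, ?_, ?_, ?_⟩
        · rw [e2, Units.val_mul, Matrix.mul_apply, Fin.sum_univ_two, h0, h1]
          simp [dia, mul_assoc]
        · rw [e2, Units.val_mul, Matrix.mul_apply, Fin.sum_univ_two, h0, h1, map_mul, phi_X]
          simp only [dia, inv_inv, Matrix.cons_val_zero, Matrix.cons_val_one, Matrix.of_apply,
            Matrix.cons_val', Matrix.cons_val_fin_one, zero_mul, zero_add, Units.val_mul]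
          change xx N * (u * phi N q) = ((xu hN)⁻¹ : (RN N)ˣ) * u * (xx N ^ 2 * phi N q)
          linear_combination (-(u : RN N) * xx N * phi N q) * hxx
        · rw [mul_smul, hc, E.cc_ai (cne hpq)]
    · -- w
      rw [Set.mem_singleton_iff] at hx
      subst hx
      rw [E.w_inv]
      refine ⟨q, p, hpq.symm, u, ?_, ?_, ?_⟩
      · change ((swp * y.2 : GL (Fin 2) (RN N)) : Matrix (Fin 2) (Fin 2) (RN N)) 0 0 = _
        rw [Units.val_mul, Matrix.mul_apply, Fin.sum_univ_two, h0, h1]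
        simp [swp]
      · change ((swp * y.2 : GL (Fin 2) (RN N)) : Matrix (Fin 2) (Fin 2) (RN N)) 1 0 = _
        rw [Units.val_mul, Matrix.mul_apply, Fin.sum_univ_two, h0, h1]
        simp [swp]
      · rw [mul_smul, hc, E.cc_w (cne hpq)]
    · -- U f
      rw [E.U_inv]
      refine ⟨p + f * q, q, hpq.add_mul_right_left f, u, ?_, ?_, ?_⟩
      · change ((upp (phi N f) * y.2 : GL (Fin 2) (RN N)) : Matrix (Fin 2) (Fin 2) (RN N)) 0 0 = _
        rw [Units.val_mul, Matrix.mul_apply, Fin.sum_univ_two, h0, h1, map_add, map_mul]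
        simp [upp]
        ring
      · change ((upp (phi N f) * y.2 : GL (Fin 2) (RN N)) : Matrix (Fin 2) (Fin 2) (RN N)) 1 0 = _
        rw [Units.val_mul, Matrix.mul_apply, Fin.sum_univ_two, h0, h1]
        simp [upp]
      · rw [mul_smul, hc, E.cc_U]

/-- centrality: an element of the data group whose matrix is trivial commutes with `a` -/
theorem cen {N : ℕ} (hN : 0 < N) (haN : D.a ^ N = 1)
    (hNT : ∀ ℓ : ℕ, ℓ.Prime → ℓ ∣ N → NTprop ℓ)
    {g : T × GL (Fin 2) (RN N)} (hg : g ∈ (D.prod (datQ hN)).GG) (hg2 : g.2 = 1) :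
    Commute g.1 D.a := by
  obtain ⟨p, q, hpq, u, h0, h1, hc⟩ := D.col hN hg
  set E := D.prod (datQ hN) with hE
  have hXN0 : (X ^ N + 1 : P) ≠ 0 := by
    have := (monic_X_pow_add_C (1 : ZMod 2) hN.ne').ne_zero
    simpa using this
  have hQN : (datQ hN).a ^ (2 * N) = 1 := by
    change dia (xu hN) ^ (2 * N) = 1
    rw [← dia_pow]
    have : (xu hN) ^ (2 * N) = 1 := Units.ext (by simpa [xu] using xx_pow N)
    rw [this]
    apply Units.ext
    ext i j; fin_cases i <;> fin_cases j <;> simp [dia]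
  have hE2 : E.a ^ (2 * N) = 1 := by
    have e : E.a = (D.a, (datQ hN).a) := rfl
    have h12 : D.a ^ (2 * N) = 1 := by rw [mul_comm 2 N, pow_mul, haN, one_pow]
    rw [e, Prod.pow_mk, hQN, h12]; rfl
  rw [hg2] at h0 h1
  have h0' : (1 : RN N) = u * phi N p := by simpa using h0
  have h1' : (0 : RN N) = u * phi N q := by simpa using h1
  have hq : (X ^ N + 1 : P) ∣ q := by
    rw [← phi_eq_zero]
    exact (Units.mul_right_eq_zero u).mp h1'.symm
  by_cases hq0 : q = 0
  · -- the element is in the Borel subgroup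
    subst hq0
    have hp : p = 1 := by
      have hu : IsUnit p := isCoprime_zero_right.mp hpq
      have := monic_of_ne (hpq.ne_zero_or_ne_zero.resolve_right (by simp))
      exact this.eq_one_of_isUnit hu
    subst hp
    rw [E.cc_zero, MulAction.Quotient.smul_mk, QuotientGroup.eq] at hc
    have hB : g ∈ E.B := by
      have := E.B.inv_mem hc
      simpa using this
    obtain ⟨f, j, hfj⟩ := E.mem_B (by omega) hE2 hB
    have hT : g.1 = D.U f * D.a ^ j := congrArg Prod.fst hfj
    have hQ : g.2 = (datQ hN).U f * (datQ hN).a ^ j := congrArg Prod.snd hfj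
    rw [hg2, ← pow_zero (datQ hN).a] at hQ
    obtain ⟨hf, -, -, -⟩ := datQ_faithful hN hQ.symm
    rw [hT, D.U_dvd haN hf, one_mul]
    exact (Commute.refl D.a).pow_left j
  · apply Commute.symm
    apply exp_trick haN
    intro ℓ hl hlN
    have hp0 : p ≠ 0 := by
      rintro rfl
      have hu : IsUnit q := isCoprime_zero_left.mp hpq
      have h3 := isUnit_of_dvd_unit hq hu
      have h4 := natDegree_eq_zero_of_isUnit h3
      have e1 : (X ^ N + 1 : P).natDegree = N := by
        have := natDegree_X_pow_add_C (n := N) (r := (1 : ZMod 2))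
        simpa using this
      omega
    obtain ⟨r, p1, hp1, hpr⟩ : ∃ (r : ℕ) (p1 : P), ¬ (X : P) ∣ p1 ∧ p = X ^ r * p1 := by
      obtain ⟨p1, h2, h3⟩ := (FiniteMultiplicity.of_prime_left prime_X hp0).exists_eq_pow_mul_and_not_dvd
      exact ⟨_, p1, h3, h2⟩
    have hXp1 : IsCoprime (X : P) p1 := (irreducible_X.coprime_iff_not_dvd).mpr hp1
    have hp1q : IsCoprime p1 q := by
      rw [hpr] at hpq
      exact hpq.of_mul_left_right
    have hp1N : IsCoprime p1 (X ^ N + 1) := by
      obtain ⟨q', rfl⟩ := hq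
      exact hp1q.of_mul_right_left
    obtain ⟨Dp, K, hM, hK0, hKl, hD⟩ := hNT ℓ hl hlN ((X ^ N + 1) * q * X) p1
      (mul_ne_zero (mul_ne_zero hXN0 hq0) X_ne_zero) (dvd_mul_left _ _)
      ((hp1N.mul_right hp1q).mul_right hXp1.symm)
    obtain ⟨t, ht⟩ := hM
    set f : P := (X ^ N + 1) * (X * t) with hf
    have hfN : (X ^ N + 1 : P) ∣ f := dvd_mul_right _ _
    have hDp : Dp = p1 + f * q := by
      rw [hf]
      linear_combination ht
    rw [P_sub] at hD
    obtain ⟨z, hz⟩ := hD
    have key := CL D hN haN (E.U f * ((E.a ^ r)⁻¹ * g)) (p := Dp) (q := q) (h := z * q) K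
      (Or.inr hq0) ?_ ?_ (dvd_mul_of_dvd_right hq _) ?_
    · refine ⟨K, hKl, ?_⟩
      have e3 : (E.U f * ((E.a ^ r)⁻¹ * g)).1 = D.U f * ((D.a ^ r)⁻¹ * g.1) := rfl
      rw [e3, D.U_dvd haN hfN, one_mul] at key
      have h5 : Commute (D.a ^ r) (D.a ^ K) := (Commute.refl D.a).pow_pow r K
      have h6 := h5.mul_left key
      rw [mul_inv_cancel_left] at h6
      exact h6.symm
    · rw [mul_smul, mul_smul, hc, E.cc_ai_pow (Or.inr hq0), hpr,
        E.cc_mul (pow_ne_zero _ X_ne_zero), ← E.cc_U, ← hDp]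
    · rw [hz]; ring
    · have e2 : (E.U f * ((E.a ^ r)⁻¹ * g)).2 = upp (phi N f) * (((datQ hN).a ^ r)⁻¹ * g.2) := rfl
      have e4 : upp (phi N f) = (1 : GL (Fin 2) (RN N)) := by
        rw [phi_eq_zero.mpr hfN]
        apply Units.ext
        ext i j; fin_cases i <;> fin_cases j <;> simp [upp]
      rw [e2, e4, one_mul, hg2, mul_one]
      exact ((Commute.refl (datQ hN).a).pow_pow r K).inv_left

end Dat

end Pool.Agent.Helper35.YG
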