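import Mathlib

set_option autoImplicit false

namespace Pool.Agent.Helper35.YG

/-- the defining relators of `Y(m,n)` -/
def rels (m n : ℕ) : Set (FreeGroup (Fin m)) :=
  {r : FreeGroup (Fin m) |
    (∃ k : Fin m, r = FreeGroup.of k ^ n) ∨
    ∃ k l : Fin m, ∃ i : ℕ, k < l ∧ 1 ≤ i ∧ 2 * i ≤ n ∧
      r = (FreeGroup.of k ^ i * FreeGroup.of l ^ i) ^ 2}

/-- the group `Y(m,n) = ⟨a_1,…,a_m | a_k^n = 1, (a_k^i a_l^i)^2 = 1 (k < l, 1 ≤ i ≤ n/2)⟩` -/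
abbrev Y (m n : ℕ) : Type := PresentedGroup (rels m n)

end Pool.Agent.Helper35.YG
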