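import Mathlib
import Pool.Agent.Helper35.YG.Defs

set_option autoImplicit false

namespace Pool.Agent.Helper35.YG

/-- a family satisfying the relations of `Y(m,n)` -/
structure YRel {ι H : Type*} [Group H] (n : ℕ) (x : ι → H) : Prop where
  pow : ∀ k, x k ^ n = 1
  rel : ∀ k l, k ≠ l → ∀ i : ℤ, (x k ^ i * x l ^ i) * (x k ^ i * x l ^ i) = 1

namespace YRel

variable {ι H : Type*} [Group H] {n : ℕ} {x : ι → H}

lemma of_basic (hn : 0 < n) (h1 : ∀ k, x k ^ n = 1)
    (h2 : ∀ k l, k ≠ l → (∀ i : ℕ, 1 ≤ i → 2 * i ≤ n → (x k ^ i * x l ^ i) ^ 2 = 1) ∨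
      (∀ i : ℕ, 1 ≤ i → 2 * i ≤ n → (x l ^ i * x k ^ i) ^ 2 = 1)) : YRel n x := by
  refine ⟨h1, ?_⟩
  -- natural number exponents with `2 i ≤ n`
  have swap : ∀ a b : H, (a * b) * (a * b) = 1 → (b * a) * (b * a) = 1 := by
    intro a b h
    have h3 : (b * a) * (b * a) = b * ((a * b) * (a * b)) * b⁻¹ := by group
    rw [h3, h]; group
  have inv : ∀ a b : H, (a * b) * (a * b) = 1 → (a⁻¹ * b⁻¹) * (a⁻¹ * b⁻¹) = 1 := by
    intro a b h
    have h3 : (a⁻¹ * b⁻¹) * (a⁻¹ * b⁻¹) = ((b * a) * (b * a))⁻¹ := by group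
    rw [h3, swap a b h, inv_one]
  have step1 : ∀ k l, k ≠ l → ∀ i : ℕ, 2 * i ≤ n → (x k ^ i * x l ^ i) * (x k ^ i * x l ^ i) = 1 := by
    intro k l hkl i hi
    rcases Nat.eq_zero_or_pos i with rfl | hi0
    · simp
    · rcases h2 k l hkl with h | h
      · rw [← sq]; exact h i hi0 hi
      · apply swap; rw [← sq]; exact h i hi0 hi
  have step2 : ∀ k l, k ≠ l → ∀ i : ℕ, i ≤ n → (x k ^ i * x l ^ i) * (x k ^ i * x l ^ i) = 1 := by
    intro k l hkl i hi
    by_cases h : 2 * i ≤ n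
    · exact step1 k l hkl i h
    · have h3 := inv _ _ (step1 k l hkl (n - i) (by omega))
      have e : ∀ k, (x k ^ (n - i))⁻¹ = x k ^ i := by
        intro k
        rw [inv_eq_iff_mul_eq_one, ← pow_add, Nat.sub_add_cancel hi, h1]
      rwa [e, e] at h3
  intro k l hkl i
  have e : ∀ k, x k ^ i = x k ^ (i % n).toNat := by
    intro k
    rw [← zpow_natCast, Int.toNat_of_nonneg (Int.emod_nonneg _ (by omega))]
    conv_lhs => rw [← Int.emod_add_mul_ediv i n]
    rw [zpow_add, zpow_mul, zpow_natCast, h1, one_zpow, mul_one]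
  rw [e, e]
  apply step2 k l hkl
  have := Int.emod_lt_of_pos i (by omega : (0 : ℤ) < n)
  omega

lemma swap (h : YRel n x) {k l : ι} (hkl : k ≠ l) (i : ℤ) :
    x l ^ i * x k ^ i = x k ^ (-i) * x l ^ (-i) := by
  have h1 := h.rel k l hkl i
  have h2 : x k ^ i * x l ^ i = (x k ^ i * x l ^ i)⁻¹ := eq_inv_of_mul_eq_one_left h1
  have h3 : x l ^ i * x k ^ i = (x k ^ i)⁻¹ * (x k ^ i * x l ^ i) * x k ^ i := by group
  rw [h3, h2]; group

end YRel

variable {m n : ℕ}

/-- generators -/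
def gen (m n : ℕ) (k : Fin m) : Y m n := PresentedGroup.of k

lemma yrel_gen (hn : 0 < n) : YRel n (gen m n) := by
  apply YRel.of_basic hn
  · intro k
    have : (QuotientGroup.mk (FreeGroup.of k ^ n) : Y m n) = 1 := by
      rw [QuotientGroup.eq_one_iff]
      exact Subgroup.subset_normalClosure (Or.inl ⟨k, rfl⟩)
    exact this
  · have key : ∀ k l : Fin m, k < l → ∀ i : ℕ, 1 ≤ i → 2 * i ≤ n →
        (gen m n k ^ i * gen m n l ^ i) ^ 2 = 1 := by
      intro k l hkl i h1 h2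
      have : (QuotientGroup.mk ((FreeGroup.of k ^ i * FreeGroup.of l ^ i) ^ 2) : Y m n) = 1 := by
        rw [QuotientGroup.eq_one_iff]
        exact Subgroup.subset_normalClosure (Or.inr ⟨k, l, i, hkl, h1, h2, rfl⟩)
      exact this
    intro k l hkl
    rcases lt_or_gt_of_ne hkl with h | h
    · exact Or.inl (key k l h)
    · exact Or.inr (key l k h)

/-- universal property -/
lemma exists_hom {H : Type*} [Group H] {x : Fin m → H} (h : YRel n x) :
    ∃ f : Y m n →* H, ∀ k, f (gen m n k) = x k := by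
  refine ⟨PresentedGroup.toGroup (f := x) ?_, fun k => PresentedGroup.toGroup.of _⟩
  rintro r (⟨k, rfl⟩ | ⟨k, l, i, hkl, _, _, rfl⟩)
  · rw [map_pow, FreeGroup.lift_apply_of, h.pow]
  · rw [map_pow, map_mul, map_pow, map_pow, FreeGroup.lift_apply_of, FreeGroup.lift_apply_of, sq]
    have := h.rel k l hkl.ne i
    simpa using this

lemma closure_gen : Subgroup.closure (Set.range (gen m n)) = ⊤ :=
  PresentedGroup.closure_range_of _

lemma hom_ext {H : Type*} [Group H] {f g : Y m n →* H} (h : ∀ k, f (gen m n k) = g (gen m n k)) :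
    f = g := PresentedGroup.ext h

instance : Group.FG (Y m n) := by
  rw [Group.fg_iff]
  exact ⟨_, closure_gen, Set.finite_range _⟩

end Pool.Agent.Helper35.YG
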