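import Mathlib
import Pool.Agent.Helper35.YG.Dbl
import Pool.Agent.Helper35.YG.Basic

set_option autoImplicit false

open Polynomial

namespace Pool.Agent.Helper35.YG

/-- construction of `U` -/
lemma mkU {G : Type*} [Group G] (u : ℕ → G) (hc : ∀ i j, Commute (u i) (u j))
    (h2 : ∀ i, u i * u i = 1) :
    ∃ U : P → G, (∀ f g, U (f + g) = U f * U g) ∧ ∀ k, U (X ^ k) = u k := by
  let C : Subgroup G := Subgroup.closure (Set.range u)
  have hC : ∀ x ∈ Set.range u, ∀ y ∈ Set.range u, x * y = y * x := by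
    rintro _ ⟨i, rfl⟩ _ ⟨j, rfl⟩
    exact hc i j
  have hCC : IsMulCommutative C := Subgroup.isMulCommutative_closure hC
  let _ : CommGroup C := { (inferInstance : Group C) with mul_comm := hCC.is_comm.comm }
  let v : ℕ → C := fun i => ⟨u i, Subgroup.subset_closure ⟨i, rfl⟩⟩
  have hv : ∀ i, v i * v i = 1 := fun i => Subtype.ext (h2 i)
  let F : ℕ → ZMod 2 → Additive C := fun k c => c.val • Additive.ofMul (v k)
  have hF0 : ∀ i, F i 0 = 0 := fun i => by simp [F]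
  have hF2 : ∀ k, (2 : ℕ) • Additive.ofMul (v k) = 0 := by
    intro k
    rw [two_nsmul]
    exact congrArg Additive.ofMul (hv k)
  have hFadd : ∀ k (b c : ZMod 2), F k (b + c) = F k b + F k c := by
    intro k b c
    have h01 : ∀ z : ZMod 2, z = 0 ∨ z = 1 := by decide
    have e11 : (1 + 1 : ZMod 2) = 0 := by decide
    rcases h01 b with rfl | rfl <;> rcases h01 c with rfl | rfl
    · rw [add_zero, hF0, add_zero]
    · rw [zero_add, hF0, zero_add]
    · rw [add_zero, hF0, add_zero]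
    · rw [e11, hF0]
      have : F k 1 = Additive.ofMul (v k) := by
        change (1 : ZMod 2).val • _ = _
        rw [ZMod.val_one]; exact one_nsmul _
      rw [this, ← two_nsmul, hF2]
  let W : P → Additive C := fun f => f.sum F
  refine ⟨fun f => ((Additive.toMul (W f) : C) : G), ?_, ?_⟩
  · intro f g
    have : W (f + g) = W f + W g := Polynomial.sum_add_index f g F hF0 hFadd
    change ((Additive.toMul (W (f + g)) : C) : G) = _
    rw [this]; rfl
  · intro k
    have : W (X ^ k) = Additive.ofMul (v k) := by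
      change (X ^ k : P).sum F = _
      rw [X_pow_eq_monomial, Polynomial.sum_monomial_index _ _ (hF0 k)]
      change (1 : ZMod 2).val • _ = _
      rw [ZMod.val_one]; exact one_nsmul _
    change ((Additive.toMul (W (X ^ k)) : C) : G) = _
    rw [this]; rfl

/-- construction of data -/
lemma mkDat {G : Type*} [Group G] (a t w : G) (ht : t * t = 1) (hw : w * w = 1)
    (haw : a * w = w * a⁻¹) (hb : t * w * t = w * t * w)
    (hc : ∀ k : ℕ, (t * a ^ k * t * (a ^ k)⁻¹) * (t * a ^ k * t * (a ^ k)⁻¹) = 1) :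
    ∃ D : Dat G, D.a = a ∧ D.w = w ∧ D.U 1 = t ∧ ∀ k, D.U (X ^ k) = a ^ k * t * (a ^ k)⁻¹ := by
  let u : ℕ → G := fun k => a ^ k * t * (a ^ k)⁻¹
  have hu2 : ∀ i, u i * u i = 1 := by
    intro i
    have : u i * u i = a ^ i * (t * t) * (a ^ i)⁻¹ := by simp only [u]; group
    rw [this, ht]; group
  have hc0 : ∀ k, t * u k = u k * t := by
    intro k
    have h1 : (t * u k) * (t * u k) = 1 := by
      have : (t * u k) * (t * u k) = (t * a ^ k * t * (a ^ k)⁻¹) * (t * a ^ k * t * (a ^ k)⁻¹) := by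
        simp only [u]; group
      rw [this, hc]
    have h2 : t * u k = (t * u k)⁻¹ := eq_inv_of_mul_eq_one_left h1
    rw [h2, mul_inv_rev]
    rw [inv_eq_of_mul_eq_one_left ht, inv_eq_of_mul_eq_one_left (hu2 k)]
  have hle : ∀ i d, u i * u (i + d) = u (i + d) * u i := by
    intro i d
    have e1 : u i = a ^ i * t * (a ^ i)⁻¹ := rfl
    have e2 : u (i + d) = a ^ i * u d * (a ^ i)⁻¹ := by
      simp only [u, pow_add]; group
    rw [e2]
    calc u i * (a ^ i * u d * (a ^ i)⁻¹) = a ^ i * (t * u d) * (a ^ i)⁻¹ := by rw [e1]; group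
      _ = _ := by rw [hc0, e1]; group
  have hcomm : ∀ i j, Commute (u i) (u j) := by
    intro i j
    rcases le_total i j with h | h
    · obtain ⟨d, rfl⟩ := Nat.exists_eq_add_of_le h
      exact hle i d
    · obtain ⟨d, rfl⟩ := Nat.exists_eq_add_of_le h
      exact (hle j d).symm
  obtain ⟨U, hU, hUX⟩ := mkU u hcomm hu2
  have hU1 : U 1 = t := by
    have := hUX 0
    rw [pow_zero] at this
    rw [this]; simp [u]
  have hU0 : U 0 = 1 := by
    have := hU 0 0
    rw [add_zero] at this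
    exact left_eq_mul.mp this
  refine ⟨{ U := U, a := a, w := w, U_add := hU, aU := ?_, w2 := hw, aw := haw,
            braid := by rw [hU1]; exact hb }, rfl, rfl, hU1, hUX⟩
  intro f
  induction f using P_induction with
  | h0 => rw [mul_zero, hU0]; simp
  | hX k =>
    rw [← pow_succ', hUX, hUX]
    simp only [u, pow_succ']; group
  | hadd f g hf hg =>
    rw [mul_add, hU, hU, ← mul_assoc, hf, mul_assoc, hg, mul_assoc]

section flip

variable {m n : ℕ}

lemma yrel_flip (hn : 0 < n) (σ : Equiv.Perm (Fin m)) :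
    YRel n (fun k => (gen m n (σ k))⁻¹) := by
  refine ⟨fun k => ?_, fun k l hkl i => ?_⟩
  · rw [inv_pow, (yrel_gen hn).pow, inv_one]
  · have := (yrel_gen (m := m) hn).rel (σ k) (σ l) (fun h => hkl (σ.injective h)) (-i)
    simpa using this

/-- `a_k ↦ a_{σ k}⁻¹` -/
noncomputable def fl (hn : 0 < n) (σ : Equiv.Perm (Fin m)) : Y m n →* Y m n :=
  (exists_hom (yrel_flip hn σ)).choose

lemma fl_gen (hn : 0 < n) (σ : Equiv.Perm (Fin m)) (k : Fin m) :
    fl hn σ (gen m n k) = (gen m n (σ k))⁻¹ :=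
  (exists_hom (yrel_flip hn σ)).choose_spec k

lemma fl_fl (hn : 0 < n) (σ : Equiv.Perm (Fin m)) (hσ : ∀ k, σ (σ k) = k) (x : Y m n) :
    fl hn σ (fl hn σ x) = x := by
  have : (fl hn σ).comp (fl hn σ) = MonoidHom.id (Y m n) := by
    apply hom_ext
    intro k
    simp [fl_gen, hσ]
  exact congrArg (fun f => f x) (congrArg (fun f : Y m n →* Y m n => (f : Y m n → Y m n)) this)

/-- the ambient group -/
abbrev AG (m n : ℕ) := Equiv.Perm (Y m n)

/-- left multiplication -/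
noncomputable def LL (m n : ℕ) : Y m n →* AG m n := MulAction.toPermHom (Y m n) (Y m n)

lemma LL_inj : Function.Injective (LL m n) := MulAction.toPerm_injective

/-- flips as permutations -/
noncomputable def th (hn : 0 < n) (σ : Equiv.Perm (Fin m)) (hσ : ∀ k, σ (σ k) = k) : AG m n where
  toFun := fl hn σ
  invFun := fl hn σ
  left_inv := fl_fl hn σ hσ
  right_inv := fl_fl hn σ hσ

variable (hn : 0 < n) (σ : Equiv.Perm (Fin m)) (hσ : ∀ k, σ (σ k) = k)

lemma th_sq : th hn σ hσ * th hn σ hσ = 1 := by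
  ext x
  exact fl_fl hn σ hσ x

lemma th_conj (x : Y m n) : th hn σ hσ * LL m n x * th hn σ hσ = LL m n (fl hn σ x) := by
  ext y
  change fl hn σ (x * fl hn σ y) = fl hn σ x * y
  rw [map_mul, fl_fl hn σ hσ]

lemma th_braid (τ : Equiv.Perm (Fin m)) (hτ : ∀ k, τ (τ k) = k)
    (h : ∀ k, σ (τ (σ k)) = τ (σ (τ k))) :
    th hn σ hσ * th hn τ hτ * th hn σ hσ = th hn τ hτ * th hn σ hσ * th hn τ hτ := by
  have : ((fl hn σ).comp (fl hn τ)).comp (fl hn σ) = ((fl hn τ).comp (fl hn σ)).comp (fl hn τ) := by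
    apply hom_ext
    intro k
    simp [fl_gen, h]
  ext y
  exact congrArg (fun f => f y) (congrArg (fun f : Y m n →* Y m n => (f : Y m n → Y m n)) this)

end flip

section three

variable {n : ℕ}

/-- the data for `Y(3,n)` -/
lemma exists_dat3 (hn : 0 < n) :
    ∃ D : Dat (AG 3 n), D.a = LL 3 n (gen 3 n 0) ∧
      D.w = th hn (Equiv.swap 1 2) (by decide) ∧ D.U 1 = th hn (Equiv.swap 0 1) (by decide) ∧
      ∀ k, D.U (X ^ k) = LL 3 n (gen 3 n 0) ^ k * th hn (Equiv.swap 0 1) (by decide) *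
        (LL 3 n (gen 3 n 0) ^ k)⁻¹ := by
  apply mkDat
  · exact th_sq _ _ _
  · exact th_sq _ _ _
  · have h1 := th_conj hn (Equiv.swap 1 2) (by decide) (gen 3 n 0)
    have h2 := th_sq hn (Equiv.swap (1 : Fin 3) 2) (by decide)
    rw [fl_gen, show (Equiv.swap (1 : Fin 3) 2) 0 = 0 by decide] at h1
    have h3 := congrArg (fun z => th hn (Equiv.swap (1 : Fin 3) 2) (by decide) * z) h1
    simp only [← mul_assoc, h2, one_mul] at h3
    rw [h3, map_inv]
  · exact th_braid _ _ _ _ _ (by decide)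
  · intro k
    have h1 := th_conj hn (Equiv.swap 0 1) (by decide) (gen 3 n 0 ^ k)
    rw [map_pow, map_pow, fl_gen, show (Equiv.swap (0 : Fin 3) 1) 0 = 1 by decide] at h1
    rw [h1, ← map_pow, ← map_inv, ← map_mul, ← map_mul]
    have := (yrel_gen (m := 3) hn).rel 1 0 (by decide) (-k)
    rw [zpow_neg, zpow_neg, zpow_natCast, zpow_natCast] at this
    rw [inv_pow, this, map_one]

/-- generators of the kernel of `Y(m,2n) → Y(m,n)` -/
def KG (m n : ℕ) : Set (Y m (2 * n)) :=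
  {x | ∃ i j : Fin m, i ≠ j ∧ ∃ k : ℤ, x = gen m (2 * n) i ^ k * gen m (2 * n) j ^ n *
    (gen m (2 * n) i ^ k)⁻¹}

/-- kernel of `Y(m,2n) → Y(m,n)` -/
def KK (m n : ℕ) : Subgroup (Y m (2 * n)) := Subgroup.closure (KG m n)

lemma gen_n_inv {m : ℕ} (hn : 0 < n) (j : Fin m) :
    (gen m (2 * n) j ^ n)⁻¹ = gen m (2 * n) j ^ n := by
  rw [inv_eq_iff_mul_eq_one, ← pow_add, ← two_mul, (yrel_gen (by omega)).pow]

lemma fl_KK {m : ℕ} (hn : 0 < n) (hN : 0 < 2 * n) (σ : Equiv.Perm (Fin m)) {x : Y m (2 * n)}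
    (hx : x ∈ KK m n) : fl hN σ x ∈ KK m n := by
  induction hx using Subgroup.closure_induction with
  | mem x hx =>
    obtain ⟨i, j, hij, k, rfl⟩ := hx
    refine Subgroup.subset_closure ⟨σ i, σ j, fun h => hij (σ.injective h), -k, ?_⟩
    rw [map_mul, map_mul, map_inv, map_zpow, map_pow, fl_gen, fl_gen, inv_pow, gen_n_inv hn]
    simp
  | one => rw [map_one]; exact (KK m n).one_mem
  | mul x y _ _ hx hy => rw [map_mul]; exact (KK m n).mul_mem hx hy
  | inv x _ hx => rw [map_inv]; exact (KK m n).inv_mem hx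

lemma KK3_facts (hn : 0 < n) (hNT : ∀ ℓ : ℕ, ℓ.Prime → ℓ ∣ 2 * n → NTprop ℓ) :
    (∀ x ∈ KK 3 n, ∀ y ∈ KK 3 n, x * y = y * x) ∧
    (∀ l, ∀ x ∈ KK 3 n, gen 3 (2 * n) l * x * (gen 3 (2 * n) l)⁻¹ ∈ KK 3 n ∧
      (gen 3 (2 * n) l)⁻¹ * x * gen 3 (2 * n) l ∈ KK 3 n) := by
  have hN : 0 < 2 * n := by omega
  obtain ⟨D, hDa, hDw, hD1, hDX⟩ := exists_dat3 hN
  set L := LL 3 (2 * n) with hL
  have hLinj : Function.Injective L := LL_inj
  have haN : D.a ^ (2 * n) = 1 := by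
    rw [hDa, ← map_pow, (yrel_gen hN).pow, map_one]
  -- conjugation by `w` and `U 1`
  have cw : ∀ x, D.w * L x * D.w = L (fl hN (Equiv.swap 1 2) x) := by
    intro x; rw [hDw]; exact th_conj _ _ _ x
  have cu : ∀ x, D.U 1 * L x * D.U 1 = L (fl hN (Equiv.swap 0 1) x) := by
    intro x; rw [hD1]; exact th_conj _ _ _ x
  -- the three torus generators
  have g0 : L (gen 3 (2 * n) 0) = D.a := hDa.symm
  have g1 : L (gen 3 (2 * n) 1) = D.U 1 * D.a⁻¹ * D.U 1 := by
    rw [hDa, ← map_inv, cu, map_inv, fl_gen, inv_inv]; congr 1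
  have g2 : L (gen 3 (2 * n) 2) = D.w * (D.U 1 * D.a * D.U 1) * D.w := by
    rw [hDa, cu, fl_gen, cw, map_inv, fl_gen, inv_inv]; congr 1
  -- generic closure lemmas for normalizing
  obtain ⟨Nm, memNm⟩ : ∃ Nm : Subgroup (AG 3 (2 * n)), ∀ g, g ∈ Nm ↔
      ∀ h, h ∈ D.KT n ↔ g * h * g⁻¹ ∈ D.KT n :=
    ⟨Subgroup.normalizer (D.KT n : Set (AG 3 (2 * n))), fun g => by
      rw [Subgroup.mem_normalizer_iff]⟩
  have memN : ∀ g : AG 3 (2 * n), (∀ x ∈ D.KT n, g * x * g⁻¹ ∈ D.KT n) →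
      (∀ x ∈ D.KT n, g⁻¹ * x * g ∈ D.KT n) → g ∈ Nm := by
    intro g h1 h2
    rw [memNm]
    intro x
    refine ⟨h1 x, fun h => ?_⟩
    have := h2 _ h
    have e : g⁻¹ * (g * x * g⁻¹) * g = x := by group
    rwa [e] at this
  have hwN : D.w ∈ Nm := by
    apply memN
    · rw [D.w_inv]; exact D.KT_w hn haN
    · rw [D.w_inv]; exact D.KT_w hn haN
  have huN : D.U 1 ∈ Nm := by
    apply memN
    · rw [D.U_inv]; exact D.KT_U1 hn haN
    · rw [D.U_inv]; exact D.KT_U1 hn haN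
  have haN' : D.a ∈ Nm := by
    have h1 := D.KT_a hn haN hNT
    have h2 : ∀ j : ℕ, ∀ x ∈ D.KT n, D.a ^ j * x * (D.a ^ j)⁻¹ ∈ D.KT n := by
      intro j
      induction j with
      | zero => intro x hx; simpa using hx
      | succ j ih =>
        intro x hx
        have e : D.a ^ (j + 1) * x * (D.a ^ (j + 1))⁻¹ = D.a * (D.a ^ j * x * (D.a ^ j)⁻¹) * D.a⁻¹ := by
          rw [pow_succ']; group
        rw [e]; exact h1 _ (ih x hx)
    apply memN _ h1
    intro x hx
    have h3 : D.a⁻¹ = D.a ^ (2 * n - 1) := by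
      rw [inv_eq_iff_mul_eq_one, ← pow_succ', Nat.sub_add_cancel (by omega), haN]
    have h4 := h2 (2 * n - 1) x hx
    rw [← h3, inv_inv] at h4
    exact h4
  have hgN : ∀ l, L (gen 3 (2 * n) l) ∈ Nm := by
    intro l
    fin_cases l
    · change L (gen 3 (2 * n) 0) ∈ Nm
      rw [g0]; exact haN'
    · change L (gen 3 (2 * n) 1) ∈ Nm
      rw [g1]; exact Nm.mul_mem (Nm.mul_mem huN (Nm.inv_mem haN')) huN
    · change L (gen 3 (2 * n) 2) ∈ Nm
      rw [g2]; exact Nm.mul_mem (Nm.mul_mem hwN (Nm.mul_mem (Nm.mul_mem huN haN') huN)) hwN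
  -- s_j in KT
  have hs0 : L (gen 3 (2 * n) 0 ^ n) ∈ D.KT n := by
    rw [map_pow, g0]; exact D.KT_s
  have hs1 : L (gen 3 (2 * n) 1 ^ n) ∈ D.KT n := by
    have e : L (gen 3 (2 * n) 1 ^ n) = D.U 1 * L (gen 3 (2 * n) 0 ^ n) * D.U 1 := by
      rw [cu, map_pow (fl hN _), fl_gen, inv_pow, gen_n_inv hn]; congr 1
    rw [e]; exact D.KT_U1 hn haN _ hs0
  have hs2 : L (gen 3 (2 * n) 2 ^ n) ∈ D.KT n := by
    have e : L (gen 3 (2 * n) 2 ^ n) = D.w * L (gen 3 (2 * n) 1 ^ n) * D.w := by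
      rw [cw, map_pow (fl hN _), fl_gen, inv_pow, gen_n_inv hn]; congr 1
    rw [e]; exact D.KT_w hn haN _ hs1
  have hs : ∀ j, L (gen 3 (2 * n) j ^ n) ∈ D.KT n := by
    intro j
    fin_cases j
    · exact hs0
    · exact hs1
    · exact hs2
  -- forward inclusion
  have fwd : ∀ x ∈ KK 3 n, L x ∈ D.KT n := by
    intro x hx
    induction hx using Subgroup.closure_induction with
    | mem x hx =>
      obtain ⟨i, j, _, k, rfl⟩ := hx
      rw [map_mul, map_mul, map_inv, map_zpow]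
      have h1 : L (gen 3 (2 * n) i) ^ k ∈ Nm := Nm.zpow_mem (hgN i) k
      rw [memNm] at h1
      exact (h1 _).mp (hs j)
    | one => rw [map_one]; exact (D.KT n).one_mem
    | mul x y _ _ hx hy => rw [map_mul]; exact (D.KT n).mul_mem hx hy
    | inv x _ hx => rw [map_inv]; exact (D.KT n).inv_mem hx
  -- backward inclusion
  have bU : ∀ f, ∃ x ∈ KK 3 n, L x = D.U (cc' n * f) := by
    intro f
    induction f using P_induction with
    | h0 => exact ⟨1, (KK 3 n).one_mem, by rw [mul_zero, D.U_zero, map_one]⟩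
    | hX k =>
      refine ⟨(gen 3 (2 * n) 1 ^ (0 : ℤ) * gen 3 (2 * n) 0 ^ n * (gen 3 (2 * n) 1 ^ (0 : ℤ))⁻¹) *
        (gen 3 (2 * n) 0 ^ (k : ℤ) * gen 3 (2 * n) 1 ^ n * (gen 3 (2 * n) 0 ^ (k : ℤ))⁻¹),
        (KK 3 n).mul_mem (Subgroup.subset_closure ⟨1, 0, by decide, 0, rfl⟩)
        (Subgroup.subset_closure ⟨0, 1, by decide, k, rfl⟩), ?_⟩
      have e1 : L (gen 3 (2 * n) 1 ^ n) = D.U 1 * D.a ^ n * D.U 1 := by
        have : D.U 1 * D.a ^ n * D.U 1 = D.U 1 * L (gen 3 (2 * n) 0 ^ n) * D.U 1 := by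
          rw [map_pow, g0]
        rw [this, cu, map_pow (fl hN _), fl_gen, inv_pow, gen_n_inv hn]; congr 1
      have e2 : D.U (cc' n * X ^ k) = D.a ^ n * (D.a ^ k * (D.U 1 * D.a ^ n * D.U 1) *
          (D.a ^ k)⁻¹) := by
        rw [D.U1_s hn haN, ← mul_assoc (D.a ^ k), D.apow_U]
        have h5 : D.a ^ n * D.U (X ^ k * (cc' n * 1)) = D.U (cc' n * X ^ k) * D.a ^ n := by
          rw [show X ^ k * (cc' n * 1) = cc' n * X ^ k by ring]
          exact (D.s_U hn haN (X ^ k)).eq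
        have h6 : D.a ^ n * D.a ^ n = 1 := by rw [← pow_add, ← two_mul, haN]
        calc D.U (cc' n * X ^ k) = D.U (cc' n * X ^ k) * (D.a ^ n * D.a ^ n) := by
              rw [h6, mul_one]
          _ = (D.a ^ n * D.U (X ^ k * (cc' n * 1))) * D.a ^ n := by rw [h5]; group
          _ = (D.a ^ n * D.U (X ^ k * (cc' n * 1))) * (D.a ^ k * D.a ^ n * (D.a ^ k)⁻¹) := by
              congr 1; rw [← pow_add, add_comm, pow_add, mul_inv_cancel_right]
          _ = _ := by group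
      rw [e2, map_mul, map_mul, map_mul, map_mul, map_inv, map_zpow, map_mul, map_inv, map_zpow, e1,
        map_pow, g0]
      simp
    | hadd f g hf hg =>
      obtain ⟨x, hx, ex⟩ := hf
      obtain ⟨y, hy, ey⟩ := hg
      exact ⟨x * y, (KK 3 n).mul_mem hx hy, by rw [map_mul, ex, ey, mul_add, D.U_add]⟩
  have bV : ∀ f, ∃ x ∈ KK 3 n, L x = D.V (cc' n * f) := by
    intro f
    obtain ⟨x, hx, ex⟩ := bU f
    exact ⟨fl hN (Equiv.swap 1 2) x, fl_KK hn hN _ hx, by rw [← cw, ex]; rfl⟩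
  have bD : ∀ f, ∃ x ∈ KK 3 n, L x = D.D1 n f := by
    intro f
    obtain ⟨x, hx, ex⟩ := bV f
    exact ⟨fl hN (Equiv.swap 0 1) x, fl_KK hn hN _ hx, by rw [← cu, ex]; rfl⟩
  have bwd : ∀ z ∈ D.KT n, ∃ x ∈ KK 3 n, L x = z := by
    intro z hz
    induction hz using Subgroup.closure_induction with
    | mem z hz =>
      rcases hz with rfl | ⟨f, rfl | rfl | rfl⟩
      · refine ⟨gen 3 (2 * n) 1 ^ (0 : ℤ) * gen 3 (2 * n) 0 ^ n * (gen 3 (2 * n) 1 ^ (0 : ℤ))⁻¹,
          Subgroup.subset_closure ⟨1, 0, by decide, 0, rfl⟩, ?_⟩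
        simp [g0]
      · exact bU f
      · exact bV f
      · exact bD f
    | one => exact ⟨1, (KK 3 n).one_mem, map_one _⟩
    | mul x y _ _ hx hy =>
      obtain ⟨x', hx', ex⟩ := hx
      obtain ⟨y', hy', ey⟩ := hy
      exact ⟨x' * y', (KK 3 n).mul_mem hx' hy', by rw [map_mul, ex, ey]⟩
    | inv x _ hx =>
      obtain ⟨x', hx', ex⟩ := hx
      exact ⟨x'⁻¹, (KK 3 n).inv_mem hx', by rw [map_inv, ex]⟩
  have back : ∀ x, L x ∈ D.KT n → x ∈ KK 3 n := by
    intro x hx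
    obtain ⟨y, hy, e⟩ := bwd _ hx
    rwa [← hLinj e]
  refine ⟨fun x hx y hy => ?_, fun l x hx => ⟨?_, ?_⟩⟩
  · apply hLinj
    rw [map_mul, map_mul]
    exact D.KT_comm hn haN (fwd x hx) (fwd y hy)
  · apply back
    rw [map_mul, map_mul, map_inv]
    have h1 := hgN l
    rw [memNm] at h1
    exact (h1 _).mp (fwd x hx)
  · apply back
    rw [map_mul, map_mul, map_inv]
    have h1 := Nm.inv_mem (hgN l)
    rw [memNm] at h1
    have h2 := (h1 _).mp (fwd x hx)
    rwa [inv_inv] at h2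

end three

end Pool.Agent.Helper35.YG
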