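import Mathlib
import Pool.Agent.Helper35.YG.Y3

set_option autoImplicit false

open Polynomial

namespace Pool.Agent.Helper35.YG

lemma finite_closure_invol {G : Type*} [Group G] {S : Set G} (hS : S.Finite)
    (h2 : ∀ x ∈ S, x * x = 1) (hc : ∀ x ∈ S, ∀ y ∈ S, x * y = y * x) :
    Finite (Subgroup.closure S) := by
  have hcomm : IsMulCommutative (Subgroup.closure S) := Subgroup.isMulCommutative_closure hc
  let _ : CommGroup (Subgroup.closure S) :=
    { (inferInstance : Group (Subgroup.closure S)) with mul_comm := hcomm.is_comm.comm }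
  have hfg : Group.FG (Subgroup.closure S) := by
    rw [Group.fg_iff_subgroup_fg]
    exact (Subgroup.fg_iff _).mpr ⟨S, rfl, hS⟩
  have hcc : ∀ x ∈ Subgroup.closure S, ∀ y ∈ Subgroup.closure S, x * y = y * x := fun x hx y hy =>
    congrArg Subtype.val (hcomm.is_comm.comm (⟨x, hx⟩ : Subgroup.closure S) ⟨y, hy⟩)
  have htor : ∀ x : Subgroup.closure S, x * x = 1 := by
    rintro ⟨x, hx⟩
    apply Subtype.ext
    change x * x = 1
    induction hx using Subgroup.closure_induction with
    | mem x hx => exact h2 x hx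
    | one => simp
    | mul x y hx0 hy0 hx hy =>
      have := hcc x hx0 y hy0
      calc x * y * (x * y) = x * (y * x) * y := by group
        _ = (x * x) * (y * y) := by rw [← this]; group
        _ = 1 := by rw [hx, hy, one_mul]
    | inv x _ hx => rw [← mul_inv_rev, hx, inv_one]
  have ht : IsMulTorsion (Subgroup.closure S) := by
    intro x
    exact isOfFinOrder_iff_pow_eq_one.mpr ⟨2, by norm_num, by rw [sq, htor]⟩
  exact CommGroup.finite_of_fg_isMulTorsion _ ht

/-- `Y(2,n)` is finite -/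
theorem Y2_finite {n : ℕ} (hn : 0 < n) : Finite (Y 2 n) := by
  have hy := yrel_gen (m := 2) hn
  set a := gen 2 n 0 with ha
  set b := gen 2 n 1 with hb
  have ha1 : a ^ n = 1 := hy.pow 0
  have hb1 : b ^ n = 1 := hy.pow 1
  let u : ℤ → Y 2 n := fun k => a ^ k * b ^ k
  have hu2 : ∀ k, u k * u k = 1 := fun k => hy.rel 0 1 (by decide) k
  have huinv : ∀ k, (u k)⁻¹ = u k := fun k => inv_eq_of_mul_eq_one_left (hu2 k)
  have hconj : ∀ j k, a ^ j * u k * (a ^ j)⁻¹ = u (j + k) * u j := by
    intro j k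
    rw [← huinv j]
    simp only [u, zpow_add]
    rw [← zpow_add b j k, add_comm j k, zpow_add b k j]
    group
  have hcomm : ∀ i j, u i * u j = u j * u i := by
    have h1 : ∀ j k, u (j + k) * u j = u j * u (j + k) := by
      intro j k
      have h2 : (u (j + k) * u j) * (u (j + k) * u j) = 1 := by
        rw [← hconj]
        calc _ = a ^ j * (u k * u k) * (a ^ j)⁻¹ := by group
          _ = 1 := by rw [hu2]; group
      have h3 : u (j + k) * u j = (u (j + k) * u j)⁻¹ := eq_inv_of_mul_eq_one_left h2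
      rw [h3, mul_inv_rev, huinv, huinv]
    intro i j
    have := h1 j (i - j)
    rwa [show j + (i - j) = i by ring] at this
  have haz : ∀ k : ℤ, a ^ k = a ^ (k % (n : ℤ)) := by
    intro k
    conv_lhs => rw [← Int.emod_add_mul_ediv k n]
    rw [zpow_add, zpow_mul, zpow_natCast, ha1, one_zpow, mul_one]
  have hbz : ∀ k : ℤ, b ^ k = b ^ (k % (n : ℤ)) := by
    intro k
    conv_lhs => rw [← Int.emod_add_mul_ediv k n]
    rw [zpow_add, zpow_mul, zpow_natCast, hb1, one_zpow, mul_one]
  have hfinS : (Set.range u).Finite := by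
    have : Set.range u ⊆ Set.range (fun p : Fin n => u (p : ℕ)) := by
      rintro _ ⟨k, rfl⟩
      have hk1 : 0 ≤ k % (n : ℤ) := Int.emod_nonneg _ (by omega)
      have hk2 : k % (n : ℤ) < (n : ℤ) := Int.emod_lt_of_pos _ (by omega)
      refine ⟨⟨(k % (n : ℤ)).toNat, by omega⟩, ?_⟩
      change u (((k % (n : ℤ)).toNat : ℕ) : ℤ) = u k
      rw [Int.toNat_of_nonneg hk1]
      simp only [u]
      rw [← haz, ← hbz]
    exact (Set.finite_range _).subset this
  set E := Subgroup.closure (Set.range u) with hE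
  have hEfin : Finite E := by
    apply finite_closure_invol hfinS
    · rintro _ ⟨k, rfl⟩; exact hu2 k
    · rintro _ ⟨k, rfl⟩ _ ⟨l, rfl⟩; exact hcomm k l
  have hnorm_of : ∀ g : Y 2 n, (∀ k, g * u k * g⁻¹ ∈ E) → ∀ x ∈ E, g * x * g⁻¹ ∈ E := by
    intro g h x hx
    induction hx using Subgroup.closure_induction with
    | mem x hx => obtain ⟨k, rfl⟩ := hx; exact h k
    | one => simp
    | mul x y _ _ hx hy =>
      have : g * (x * y) * g⁻¹ = (g * x * g⁻¹) * (g * y * g⁻¹) := by group
      rw [this]; exact E.mul_mem hx hy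
    | inv x _ hx =>
      have : g * x⁻¹ * g⁻¹ = (g * x * g⁻¹)⁻¹ := by group
      rw [this]; exact E.inv_mem hx
  have hau : ∀ j : ℤ, ∀ x ∈ E, a ^ j * x * (a ^ j)⁻¹ ∈ E := by
    intro j
    apply hnorm_of
    intro k
    rw [hconj]
    exact E.mul_mem (Subgroup.subset_closure ⟨_, rfl⟩) (Subgroup.subset_closure ⟨_, rfl⟩)
  have hamem : a ∈ Subgroup.normalizer (E : Set (Y 2 n)) := by
    rw [Subgroup.mem_normalizer_iff]
    intro x
    have h1 := hau 1
    have h2 := hau (-1)
    rw [zpow_one] at h1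
    rw [zpow_neg, zpow_one, inv_inv] at h2
    refine ⟨h1 x, fun h => ?_⟩
    have h3 := h2 _ h
    have e : a⁻¹ * (a * x * a⁻¹) * a = x := by group
    rwa [e] at h3
  have hbe : b = a⁻¹ * u 1 := by simp [u]
  have hEle : E ≤ Subgroup.normalizer (E : Set (Y 2 n)) := Subgroup.le_normalizer
  have hbmem : b ∈ Subgroup.normalizer (E : Set (Y 2 n)) := by
    rw [hbe]
    exact Subgroup.mul_mem _ (Subgroup.inv_mem _ hamem) (hEle (Subgroup.subset_closure ⟨1, rfl⟩))
  have hnormal : E.Normal := by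
    rw [← Subgroup.normalizer_eq_top_iff, eq_top_iff, ← closure_gen, Subgroup.closure_le]
    rintro _ ⟨l, rfl⟩
    fin_cases l
    · exact hamem
    · exact hbmem
  have htop : Subgroup.zpowers (QuotientGroup.mk' E a) = ⊤ := by
    rw [eq_top_iff]
    have h1 : Subgroup.map (QuotientGroup.mk' E) ⊤ = ⊤ :=
      Subgroup.map_top_of_surjective _ (QuotientGroup.mk'_surjective _)
    rw [← h1, ← closure_gen, MonoidHom.map_closure, Subgroup.closure_le]
    rintro _ ⟨_, ⟨l, rfl⟩, rfl⟩
    fin_cases l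
    · exact Subgroup.mem_zpowers _
    · change QuotientGroup.mk' E b ∈ _
      have h2 : QuotientGroup.mk' E (u 1) = 1 :=
        (QuotientGroup.eq_one_iff _).mpr (Subgroup.subset_closure ⟨1, rfl⟩)
      rw [hbe, map_mul, map_inv, h2, mul_one]
      exact Subgroup.inv_mem _ (Subgroup.mem_zpowers _)
  have hfo : IsOfFinOrder (QuotientGroup.mk' E a) :=
    isOfFinOrder_iff_pow_eq_one.mpr ⟨n, hn, by rw [← map_pow, ha1, map_one]⟩
  have h3 : Finite (Subgroup.zpowers (QuotientGroup.mk' E a)) :=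
    (finite_zpowers.mpr hfo).to_subtype
  rw [htop] at h3
  have : Finite (Y 2 n ⧸ E) := (Subgroup.topEquiv (G := Y 2 n ⧸ E)).toEquiv.finite_iff.mp h3
  exact Finite.of_subgroup_quotient E

theorem Y_le2_finite {m n : ℕ} (hm : m ≤ 2) (hn : 0 < n) : Finite (Y m n) := by
  have h2 := Y2_finite hn
  interval_cases m
  · have : Subsingleton (Y 0 n) := by
      rw [← Subgroup.subsingleton_iff]
      constructor
      have key : (⊤ : Subgroup (Y 0 n)) = ⊥ := by
        rw [← closure_gen, Set.range_eq_empty, Subgroup.closure_empty]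
      intro x y
      have hx : x ≤ ⊥ := key ▸ le_top
      have hy : y ≤ ⊥ := key ▸ le_top
      rw [le_bot_iff.mp hx, le_bot_iff.mp hy]
    exact Finite.of_subsingleton
  · have hy : YRel n (fun k : Fin 2 => if k = 0 then gen 1 n 0 else (gen 1 n 0)⁻¹) := by
      have h0 := yrel_gen (m := 1) hn
      refine ⟨fun k => ?_, fun k l hkl i => ?_⟩
      · split_ifs
        · exact h0.pow 0
        · rw [inv_pow, h0.pow, inv_one]
      · fin_cases k <;> fin_cases l <;> simp at hkl ⊢
    obtain ⟨f, hf⟩ := exists_hom hy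
    refine Finite.of_surjective f ?_
    rw [← MonoidHom.range_eq_top, eq_top_iff, ← closure_gen, Subgroup.closure_le]
    rintro _ ⟨k, rfl⟩
    refine ⟨gen 2 n 0, ?_⟩
    rw [hf, Subsingleton.elim k 0]; rfl
  · exact h2

lemma triple_hom {m N : ℕ} (hN : 0 < N) (e : Fin 3 → Fin m) (he : Function.Injective e) :
    ∃ f : Y 3 N →* Y m N, ∀ k, f (gen 3 N k) = gen m N (e k) := by
  apply exists_hom (x := fun k => gen m N (e k))
  have := yrel_gen (m := m) hN
  exact ⟨fun k => this.pow _, fun k l hkl i => this.rel _ _ (fun h => hkl (he h)) i⟩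

lemma exists_triple {m : ℕ} (hm : 3 ≤ m) (i j l : Fin m) : ∃ e : Fin 3 → Fin m,
    Function.Injective e ∧ i ∈ Set.range e ∧ j ∈ Set.range e ∧ l ∈ Set.range e := by
  classical
  have h1 : ({i, j, l} : Finset (Fin m)).card ≤ 3 := Finset.card_le_three
  obtain ⟨s, hs, hcard⟩ := Finset.exists_superset_card_eq h1 (by simpa using hm)
  let e := s.orderEmbOfFin hcard
  have hr : Set.range e = s := Finset.range_orderEmbOfFin s hcard
  refine ⟨e, e.injective, ?_, ?_, ?_⟩ <;> rw [hr] <;> apply hs <;> simp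

section

variable {m n : ℕ} (hm : 3 ≤ m) (hn : 0 < n)
  (hNT : ∀ ℓ : ℕ, ℓ.Prime → ℓ ∣ 2 * n → NTprop ℓ)

lemma map_KK {e : Fin 3 → Fin m} (he : Function.Injective e) {f : Y 3 (2 * n) →* Y m (2 * n)}
    (hf : ∀ k, f (gen 3 (2 * n) k) = gen m (2 * n) (e k)) {x : Y 3 (2 * n)} (hx : x ∈ KK 3 n) :
    f x ∈ KK m n := by
  induction hx using Subgroup.closure_induction with
  | mem x hx =>
    obtain ⟨i, j, hij, k, rfl⟩ := hx
    refine Subgroup.subset_closure ⟨e i, e j, fun h => hij (he h), k, ?_⟩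
    rw [map_mul, map_mul, map_inv, map_zpow, map_pow, hf, hf]
  | one => rw [map_one]; exact (KK m n).one_mem
  | mul x y _ _ hx hy => rw [map_mul]; exact (KK m n).mul_mem hx hy
  | inv x _ hx => rw [map_inv]; exact (KK m n).inv_mem hx

include hm hn hNT

lemma KK_conj (l : Fin m) (x : Y m (2 * n)) (hx : x ∈ KK m n) :
    gen m (2 * n) l * x * (gen m (2 * n) l)⁻¹ ∈ KK m n ∧
      (gen m (2 * n) l)⁻¹ * x * gen m (2 * n) l ∈ KK m n := by
  induction hx using Subgroup.closure_induction with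
  | mem x hx =>
    obtain ⟨i, j, hij, k, rfl⟩ := hx
    obtain ⟨e, he, ⟨i', rfl⟩, ⟨j', rfl⟩, ⟨l', rfl⟩⟩ := exists_triple hm i j l
    obtain ⟨f, hf⟩ := triple_hom (m := m) (N := 2 * n) (by omega) e he
    have h := (KK3_facts hn hNT).2 l' (gen 3 (2 * n) i' ^ k * gen 3 (2 * n) j' ^ n *
      (gen 3 (2 * n) i' ^ k)⁻¹) (Subgroup.subset_closure ⟨i', j', fun h => hij (by rw [h]), k, rfl⟩)
    have h1 := map_KK he hf h.1
    have h2 := map_KK he hf h.2
    simp only [map_mul, map_inv, map_zpow, map_pow, hf] at h1 h2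
    exact ⟨h1, h2⟩
  | one => simp
  | mul x y _ _ hx hy =>
    constructor
    · have : gen m (2 * n) l * (x * y) * (gen m (2 * n) l)⁻¹ =
        (gen m (2 * n) l * x * (gen m (2 * n) l)⁻¹) * (gen m (2 * n) l * y * (gen m (2 * n) l)⁻¹) := by
        group
      rw [this]; exact (KK m n).mul_mem hx.1 hy.1
    · have : (gen m (2 * n) l)⁻¹ * (x * y) * (gen m (2 * n) l) =
        ((gen m (2 * n) l)⁻¹ * x * (gen m (2 * n) l)) * ((gen m (2 * n) l)⁻¹ * y * (gen m (2 * n) l)) := by
        group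
      rw [this]; exact (KK m n).mul_mem hx.2 hy.2
  | inv x _ hx =>
    constructor
    · have : gen m (2 * n) l * x⁻¹ * (gen m (2 * n) l)⁻¹ =
        (gen m (2 * n) l * x * (gen m (2 * n) l)⁻¹)⁻¹ := by group
      rw [this]; exact (KK m n).inv_mem hx.1
    · have : (gen m (2 * n) l)⁻¹ * x⁻¹ * gen m (2 * n) l =
        ((gen m (2 * n) l)⁻¹ * x * gen m (2 * n) l)⁻¹ := by group
      rw [this]; exact (KK m n).inv_mem hx.2

lemma KK_normal : (KK m n).Normal := by
  rw [← Subgroup.normalizer_eq_top_iff, eq_top_iff, ← closure_gen, Subgroup.closure_le]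
  rintro _ ⟨l, rfl⟩
  change _ ∈ Subgroup.normalizer _
  rw [Subgroup.mem_normalizer_iff]
  intro x
  refine ⟨fun h => (KK_conj hm hn hNT l x h).1, fun h => ?_⟩
  have := (KK_conj hm hn hNT l _ h).2
  have e : (gen m (2 * n) l)⁻¹ * (gen m (2 * n) l * x * (gen m (2 * n) l)⁻¹) * gen m (2 * n) l
    = x := by group
  rwa [e] at this

lemma s_mem (j : Fin m) : gen m (2 * n) j ^ n ∈ KK m n := by
  obtain ⟨i, hi⟩ : ∃ i : Fin m, i ≠ j := by
    have : Nontrivial (Fin m) := Fin.nontrivial_iff_two_le.mpr (by omega)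
    exact exists_ne j
  exact Subgroup.subset_closure ⟨i, j, hi, 0, by simp⟩

lemma s_comm (l : Fin m) (x : Y m (2 * n)) (hx : x ∈ KK m n) :
    gen m (2 * n) l ^ n * x = x * gen m (2 * n) l ^ n := by
  change Commute _ _
  induction hx using Subgroup.closure_induction with
  | mem x hx =>
    obtain ⟨i, j, hij, k, rfl⟩ := hx
    obtain ⟨e, he, ⟨i', rfl⟩, ⟨j', rfl⟩, ⟨l', rfl⟩⟩ := exists_triple hm i j l
    obtain ⟨f, hf⟩ := triple_hom (m := m) (N := 2 * n) (by omega) e he
    have h := (KK3_facts hn hNT).1 (gen 3 (2 * n) l' ^ n) (s_mem le_rfl hn hNT l')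
      (gen 3 (2 * n) i' ^ k * gen 3 (2 * n) j' ^ n *
      (gen 3 (2 * n) i' ^ k)⁻¹) (Subgroup.subset_closure ⟨i', j', fun h => hij (by rw [h]), k, rfl⟩)
    have h1 := congrArg f h
    simp only [map_mul, map_inv, map_zpow, map_pow, hf] at h1
    exact h1
  | one => exact Commute.one_right _
  | mul x y _ _ hx hy => exact hx.mul_right hy
  | inv x _ hx => exact hx.inv_right

lemma KK_comm (x y : Y m (2 * n)) (hx : x ∈ KK m n) (hy : y ∈ KK m n) : x * y = y * x := by
  have hnor : (KK m n).Normal := KK_normal hm hn hNT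
  have key : KK m n ≤ Subgroup.centralizer (KK m n : Set (Y m (2 * n))) := by
    unfold KK
    rw [Subgroup.closure_le]
    rintro _ ⟨i, j, _, k, rfl⟩
    have h1 : gen m (2 * n) j ^ n ∈ Subgroup.centralizer (KK m n : Set (Y m (2 * n))) := by
      rw [Subgroup.mem_centralizer_iff]
      intro x hx
      exact (s_comm hm hn hNT j x hx).symm
    have h2 : (Subgroup.centralizer (KK m n : Set (Y m (2 * n)))).Normal := inferInstance
    exact h2.conj_mem _ h1 _
  have := key hx
  rw [Subgroup.mem_centralizer_iff] at this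
  exact (this y hy).symm

lemma KK_finite : Finite (KK m n) := by
  have hN : 0 < 2 * n := by omega
  apply finite_closure_invol
  · have : KG m n ⊆ Set.range (fun p : Fin m × Fin m × Fin (2 * n) =>
        gen m (2 * n) p.1 ^ (p.2.2 : ℕ) * gen m (2 * n) p.2.1 ^ n *
          (gen m (2 * n) p.1 ^ (p.2.2 : ℕ))⁻¹) := by
      rintro _ ⟨i, j, _, k, rfl⟩
      have hk1 : 0 ≤ k % (2 * n : ℕ) := Int.emod_nonneg _ (by omega)
      have hk2 : k % (2 * n : ℕ) < (2 * n : ℕ) := Int.emod_lt_of_pos _ (by omega)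
      refine ⟨(i, j, ⟨(k % (2 * n : ℕ)).toNat, by omega⟩), ?_⟩
      have e : gen m (2 * n) i ^ k = gen m (2 * n) i ^ (k % (2 * n : ℕ)).toNat := by
        rw [← zpow_natCast, Int.toNat_of_nonneg hk1]
        conv_lhs => rw [← Int.emod_add_mul_ediv k (2 * n : ℕ)]
        rw [zpow_add, zpow_mul, zpow_natCast, (yrel_gen hN).pow, one_zpow, mul_one]
      rw [e]
    exact (Set.finite_range _).subset this
  · rintro _ ⟨i, j, _, k, rfl⟩
    have h1 : gen m (2 * n) j ^ n * gen m (2 * n) j ^ n = 1 := by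
      rw [← pow_add, ← two_mul, (yrel_gen hN).pow]
    calc _ = gen m (2 * n) i ^ k * (gen m (2 * n) j ^ n * gen m (2 * n) j ^ n) *
          (gen m (2 * n) i ^ k)⁻¹ := by group
      _ = 1 := by rw [h1]; group
  · intro x hx y hy
    exact KK_comm hm hn hNT x y (Subgroup.subset_closure hx) (Subgroup.subset_closure hy)

/-- **Doubling**: finiteness of `Y(m,n)` implies that of `Y(m,2n)` -/
theorem doubling (hfin : Finite (Y m n)) : Finite (Y m (2 * n)) := by
  have hnor : (KK m n).Normal := KK_normal hm hn hNT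
  have hN : 0 < 2 * n := by omega
  have hK : Finite (KK m n) := KK_finite hm hn hNT
  have hy : YRel n (fun k => (QuotientGroup.mk' (KK m n)) (gen m (2 * n) k)) := by
    refine ⟨fun k => ?_, fun k l hkl i => ?_⟩
    · rw [← map_pow]
      exact (QuotientGroup.eq_one_iff _).mpr (s_mem hm hn hNT k)
    · rw [← map_zpow, ← map_zpow, ← map_mul, ← map_mul, (yrel_gen hN).rel k l hkl i, map_one]
  obtain ⟨f, hf⟩ := exists_hom hy
  have hsurj : Function.Surjective f := by
    rw [← MonoidHom.range_eq_top, eq_top_iff]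
    have h1 : Subgroup.map (QuotientGroup.mk' (KK m n)) ⊤ = ⊤ :=
      Subgroup.map_top_of_surjective _ (QuotientGroup.mk'_surjective _)
    rw [← h1, ← closure_gen, MonoidHom.map_closure, Subgroup.closure_le]
    rintro _ ⟨_, ⟨k, rfl⟩, rfl⟩
    exact ⟨gen m n k, hf k⟩
  have : Finite (Y m (2 * n) ⧸ KK m n) := Finite.of_surjective f hsurj
  exact Finite.of_subgroup_quotient (KK m n)

end

/-- **Doubling**, all `m` -/
theorem doubling' {m n : ℕ} (hn : 0 < n) (hNT : ∀ ℓ : ℕ, ℓ.Prime → ℓ ∣ 2 * n → NTprop ℓ)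
    (hfin : Finite (Y m n)) : Finite (Y m (2 * n)) := by
  by_cases hm : 3 ≤ m
  · exact doubling hm hn hNT hfin
  · exact Y_le2_finite (by omega) (by omega)

/-- `Y(m, 2^k)` is finite -/
theorem Y_two_pow_finite (m k : ℕ) : Finite (Y m (2 ^ k)) := by
  induction k with
  | zero =>
    have h1 : ∀ k, gen m 1 k = 1 := fun k => by
      have := (yrel_gen (m := m) (n := 1) (by norm_num)).pow k
      rwa [pow_one] at this
    have : Subsingleton (Y m 1) := by
      rw [← Subgroup.subsingleton_iff]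
      constructor
      have key : (⊤ : Subgroup (Y m 1)) ≤ ⊥ := by
        rw [← closure_gen, Subgroup.closure_le]
        rintro _ ⟨k, rfl⟩
        exact h1 k
      intro x y
      rw [le_bot_iff.mp (le_top.trans key : x ≤ ⊥), le_bot_iff.mp (le_top.trans key : y ≤ ⊥)]
    exact Finite.of_subsingleton
  | succ k ih =>
    rw [pow_succ, mul_comm]
    apply doubling' (by positivity) _ ih
    intro ℓ hl hdvd
    rw [← pow_succ'] at hdvd
    have := (Nat.prime_dvd_prime_iff_eq hl Nat.prime_two).mp (hl.dvd_of_dvd_pow hdvd)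
    subst this
    exact NTprop_two

end Pool.Agent.Helper35.YG
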