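import Mathlib
import Pool.Agent.Helper35.YG.Main
import Pool.Agent.Helper80.NTodd

set_option autoImplicit false

open Polynomial

namespace Pool.Agent.Helper35.YG

theorem NTprop_all (ℓ : ℕ) (hl : ℓ.Prime) : NTprop ℓ := by
  by_cases h2 : ℓ = 2
  · subst h2; exact NTprop_two
  · intro M D₀ hM hX hc
    exact Pool.Agent.Helper80.NTodd.NT_odd ℓ hl h2 M D₀ hM hX hc

/-- **Doubling**, unconditional -/
theorem doubling_all {m n : ℕ} (hn : 0 < n) (hfin : Finite (Y m n)) : Finite (Y m (2 * n)) :=
  doubling' hn (fun ℓ hl _ => NTprop_all ℓ hl) hfin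

theorem two_pow_mul_finite {m n : ℕ} (hn : 0 < n) (hfin : Finite (Y m n)) (k : ℕ) :
    Finite (Y m (2 ^ k * n)) := by
  induction k with
  | zero => simpa using hfin
  | succ k ih =>
    rw [pow_succ', mul_assoc]
    exact doubling_all (by positivity) ih

end Pool.Agent.Helper35.YG
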