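import Mathlib
import Pool.Agent.Helper35.YG.CL

set_option autoImplicit false

open Polynomial

namespace Pool.Agent.Helper35.YG

/-- lower unipotent in `GL_2` -/
def low {R : Type*} [CommRing R] (z : R) : GL (Fin 2) R where
  val := !![1, 0; z, 1]
  inv := !![1, 0; -z, 1]
  val_inv := by ext i j; fin_cases i <;> fin_cases j <;> simp
  inv_val := by ext i j; fin_cases i <;> fin_cases j <;> simp

/-- Steinberg type data, `Φ` a polynomial -/
structure SD (G A : Type*) [Group G] [CommRing A] (Φ : P) where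
  U : P → G
  V : P → G
  a : G
  U_add : ∀ f g, U (f + g) = U f * U g
  V_add : ∀ f g, V (f + g) = V f * V g
  aU : ∀ f, a * U f * a⁻¹ = U (X * f)
  aV : ∀ f, a⁻¹ * V f * a = V (X * f)
  U_ker : ∀ f, Φ ∣ f → U f = 1
  V_ker : ∀ f, Φ ∣ f → V f = 1
  ψ : G →* GL (Fin 2) A
  char2 : ∀ z : A, z + z = 0
  σ : P → A
  σ_add : ∀ f g, σ (f + g) = σ f + σ g
  σ_mul : ∀ f g, σ (f * g) = σ f * σ g
  t : Aˣ
  t_sq : (t : A) * t = 1 + σ 1 + σ X
  ψU : ∀ f, ψ (U f) = upp (σ f)
  ψV : ∀ f, ψ (V f) = low (σ f)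
  ψa : ψ a = dia t
  κ : P
  hκ : Φ ∣ (1 + X) * κ + 1
  σ_ker : ∀ f, Φ ∣ f → σ f = 0
  cen : ∀ c, ψ c = 1 → Commute c a

namespace SD

variable {G A : Type*} [Group G] [CommRing A] {Φ : P} (D : SD G A Φ)

@[simp] lemma U_zero : D.U 0 = 1 := by
  have := D.U_add 0 0
  simpa using this
@[simp] lemma V_zero : D.V 0 = 1 := by
  have := D.V_add 0 0
  simpa using this
lemma U_self (f : P) : D.U f * D.U f = 1 := by rw [← D.U_add, P_add_self, U_zero]
lemma V_self (f : P) : D.V f * D.V f = 1 := by rw [← D.V_add, P_add_self, V_zero]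
lemma U_inv (f : P) : (D.U f)⁻¹ = D.U f := inv_eq_of_mul_eq_one_left (D.U_self f)
lemma V_inv (f : P) : (D.V f)⁻¹ = D.V f := inv_eq_of_mul_eq_one_left (D.V_self f)
lemma U_comm (f g : P) : Commute (D.U f) (D.U g) := by
  change _ * _ = _ * _
  rw [← D.U_add, add_comm, D.U_add]
lemma V_comm (f g : P) : Commute (D.V f) (D.V g) := by
  change _ * _ = _ * _
  rw [← D.V_add, add_comm, D.V_add]

lemma U_congr {f g : P} (h : Φ ∣ f + g) : D.U f = D.U g := by
  have h1 := D.U_ker _ h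
  rw [D.U_add] at h1
  rw [← D.U_inv g]
  exact eq_inv_of_mul_eq_one_left h1
lemma V_congr {f g : P} (h : Φ ∣ f + g) : D.V f = D.V g := by
  have h1 := D.V_ker _ h
  rw [D.V_add] at h1
  rw [← D.V_inv g]
  exact eq_inv_of_mul_eq_one_left h1
lemma σ_congr {f g : P} (h : Φ ∣ f + g) : D.σ f = D.σ g := by
  have h1 := D.σ_ker _ h
  rw [D.σ_add] at h1
  have h2 := D.char2 (D.σ g)
  linear_combination h1 - h2

/-- `(1+X)κ f ≡ f` -/
lemma hκ' (f : P) : Φ ∣ (1 + X) * (κ D * f) + f := by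
  have := D.hκ
  have e : (1 + X) * (D.κ * f) + f = ((1 + X) * D.κ + 1) * f := by ring
  rw [e]; exact this.mul_right f

lemma conj_ker {c g : G} (hc : D.ψ c = 1) : D.ψ (g * c * g⁻¹) = 1 := by
  rw [map_mul, map_mul, hc, mul_one, ← map_mul, mul_inv_cancel, map_one]

lemma cen_conj {c : G} (hc : D.ψ c = 1) (g : G) : Commute c (g * D.a * g⁻¹) := by
  have h1 := D.cen _ (D.conj_ker (g := g⁻¹) hc)
  rw [inv_inv] at h1
  have h2 : c = g * (g⁻¹ * c * g) * g⁻¹ := by group
  rw [h2]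
  change _ * _ = _ * _
  calc g * (g⁻¹ * c * g) * g⁻¹ * (g * D.a * g⁻¹) = g * ((g⁻¹ * c * g) * D.a) * g⁻¹ := by group
    _ = _ := by rw [h1.eq]; group

lemma cen_U {c : G} (hc : D.ψ c = 1) (f : P) : Commute c (D.U f) := by
  have e : D.U f = (D.a * (D.U (κ D * f) * D.a⁻¹ * (D.U (κ D * f))⁻¹)) := by
    have h1 := D.aU (κ D * f)
    have h2 := D.U_congr (D.hκ' f)
    rw [← h2, show (1 + X : P) * (κ D * f) = X * (κ D * f) + κ D * f by ring, D.U_add, ← h1,
      D.U_inv]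
    group
  rw [e]
  refine (D.cen _ hc).mul_right ?_
  have h3 := (D.cen_conj hc (D.U (κ D * f))).inv_right
  have e2 : (D.U (κ D * f) * D.a * (D.U (κ D * f))⁻¹)⁻¹ = D.U (κ D * f) * D.a⁻¹ *
      (D.U (κ D * f))⁻¹ := by group
  rwa [e2] at h3

lemma cen_V {c : G} (hc : D.ψ c = 1) (f : P) : Commute c (D.V f) := by
  have e : D.V f = (D.a⁻¹ * (D.V (κ D * f) * D.a * (D.V (κ D * f))⁻¹)) := by
    have h1 := D.aV (κ D * f)
    have h2 := D.V_congr (D.hκ' f)
    rw [← h2, show (1 + X : P) * (κ D * f) = X * (κ D * f) + κ D * f by ring, D.V_add, ← h1,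
      D.V_inv]
    group
  rw [e]
  exact (D.cen _ hc).inv_right.mul_right (D.cen_conj hc (D.V (κ D * f)))

/-- `w(u)` with `u'` the inverse of `u` -/
def w (u u' : P) : G := D.U u * D.V u' * D.U u

lemma w_self (u u' : P) : D.w u u' * D.w u u' = 1 := by
  unfold w
  calc _ = D.U u * D.V u' * (D.U u * D.U u) * D.V u' * D.U u := by group
    _ = D.U u * (D.V u' * D.V u') * D.U u := by rw [D.U_self]; group
    _ = 1 := by rw [D.V_self, mul_one, D.U_self]

lemma w_inv (u u' : P) : (D.w u u')⁻¹ = D.w u u' := inv_eq_of_mul_eq_one_left (D.w_self u u')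

lemma cen_w {c : G} (hc : D.ψ c = 1) (u u' : P) : Commute c (D.w u u') :=
  ((D.cen_U hc u).mul_right (D.cen_V hc u')).mul_right (D.cen_U hc u)

lemma e_sq : D.σ 1 * D.σ 1 = D.σ 1 := by rw [← D.σ_mul, mul_one]
lemma e_mul (f : P) : D.σ 1 * D.σ f = D.σ f := by rw [← D.σ_mul, one_mul]

lemma σ_inv {u u' : P} (h : Φ ∣ u * u' + 1) : D.σ u * D.σ u' = D.σ 1 := by
  rw [← D.σ_mul]; exact D.σ_congr h

/-- the matrix of `w(u)` -/
lemma ψw {u u' : P} (h : Φ ∣ u * u' + 1) :
    ((D.ψ (D.w u u') : GL (Fin 2) A) : Matrix (Fin 2) (Fin 2) A) =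
      !![1 + D.σ 1, D.σ u; D.σ u', 1 + D.σ 1] := by
  have h1 := D.σ_inv h
  have h2 := D.e_mul u
  have hz := D.char2 (D.σ u)
  unfold w
  rw [map_mul, map_mul, D.ψU, D.ψV, Units.val_mul, Units.val_mul]
  ext i j; fin_cases i <;> fin_cases j <;> simp [upp, low]
  · exact h1
  · linear_combination D.σ u * h1 + h2 + hz
  · linear_combination h1

lemma sigma_vanish (f : P) : (1 + D.σ 1) * D.σ f = 0 := by
  have h1 := D.e_mul f
  have h2 := D.char2 (D.σ f)
  linear_combination h1 + h2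

lemma t_e : (1 + D.σ 1) * ((D.t : A) * D.t) = 1 + D.σ 1 := by
  have h1 := D.t_sq
  have h2 := D.sigma_vanish X
  have h3 := D.e_sq
  have h4 := D.char2 (D.σ 1)
  linear_combination (1 + D.σ 1) * h1 + h2 + h3 + h4

lemma t_e' : (1 + D.σ 1) * (((D.t⁻¹ : Aˣ) : A) * ((D.t⁻¹ : Aˣ) : A)) = 1 + D.σ 1 := by
  have h1 := D.t_e
  have h2 : (D.t : A) * ((D.t⁻¹ : Aˣ) : A) = 1 := D.t.mul_inv
  linear_combination (-(((D.t⁻¹ : Aˣ) : A) * ((D.t⁻¹ : Aˣ) : A))) * h1 +
    (1 + D.σ 1) * ((D.t : A) * ((D.t⁻¹ : Aˣ) : A) + 1) * h2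

lemma ψwaw {u u' : P} (h : Φ ∣ u * u' + 1) :
    D.ψ (D.w u u' * D.a * D.w u u' * D.a) = 1 := by
  have h1 := D.σ_inv h
  have h2 := D.sigma_vanish u
  have h3 := D.sigma_vanish u'
  have h4 := D.t_e
  have h5 := D.t_e'
  have h6 : (D.t : A) * ((D.t⁻¹ : Aˣ) : A) = 1 := D.t.mul_inv
  have h7 := D.e_sq
  have h8 := D.char2 (D.σ 1)
  have h9 := D.char2 (1 : A)
  apply Units.ext
  rw [map_mul, map_mul, map_mul, Units.val_mul, Units.val_mul, Units.val_mul, D.ψw h, D.ψa]
  ext i j; fin_cases i <;> fin_cases j <;> simp [dia]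
  · linear_combination ((D.t : A) * D.t) * h7 + h4 + ((D.t : A) * D.t) * h8 + (D.σ 1) * h6 + (D.t : A) * ((D.t⁻¹ : Aˣ) : A) * h1 + h8
  · linear_combination ((D.t : A) + ((D.t⁻¹ : Aˣ) : A)) * h2
  · linear_combination ((D.t : A) + ((D.t⁻¹ : Aˣ) : A)) * h3
  · linear_combination (D.t : A) * h1 + ((D.t⁻¹ : Aˣ) : A) * (h7 + h8) + (D.t : A) * h8
      - ((D.t⁻¹ : Aˣ) : A) * h4 + (1 + D.σ 1) * (D.t : A) * h6

lemma ψwUw {u u' : P} (h : Φ ∣ u * u' + 1) (x : P) :
    D.ψ (D.w u u' * D.U x * D.w u u' * D.V (u' * u' * x)) = 1 := by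
  have h1 := D.σ_inv h
  have h2 := D.sigma_vanish u
  have h3 := D.sigma_vanish u'
  have h4 := D.sigma_vanish x
  have h7 := D.e_sq
  have h8 := D.char2 (D.σ 1)
  have h9 := D.char2 (1 : A)
  have h10 := D.e_mul x
  have h11 := D.e_mul u'
  have h12 := D.char2 (D.σ u' * D.σ u' * D.σ x)
  apply Units.ext
  rw [map_mul, map_mul, map_mul, Units.val_mul, Units.val_mul, Units.val_mul, D.ψw h, D.ψU, D.ψV,
    D.σ_mul, D.σ_mul]
  ext i j; fin_cases i <;> fin_cases j <;> simp [upp, low]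
  · linear_combination h7 + h1 + 2 * h8 + D.σ u' * h4 +
      (D.σ u' * D.σ u' * D.σ x) * (2 * h2 + (1 + D.σ 1) * h4)
  · linear_combination 2 * h2 + (1 + D.σ 1) * h4
  · linear_combination 2 * h3 + h12 + (D.σ u' * D.σ u' * D.σ x) * (h1 + D.σ u' * h4 + h7 + 2 * h8)
  · linear_combination h1 + D.σ u' * h4 + h7 + 2 * h8

/-- the conjugation relation, exact -/
theorem w_U {u u' : P} (h : Φ ∣ u * u' + 1) (x : P) :
    D.w u u' * D.U x * D.w u u' = D.V (u' * u' * x) := by
  have hW := D.w_self u u'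
  set W := D.w u u' with hWd
  set y := κ D * x with hy
  set v := u' * u' * y with hv
  obtain ⟨c0, hc0⟩ : ∃ c, c = W * D.a * W * D.a := ⟨_, rfl⟩
  obtain ⟨c1, hc1⟩ : ∃ c, c = W * D.U y * W * D.V v := ⟨_, rfl⟩
  have k0 : D.ψ c0 = 1 := by rw [hc0]; exact D.ψwaw h
  have k1 : D.ψ c1 = 1 := by rw [hc1]; exact D.ψwUw h y
  have c0a := D.cen _ k0
  have c1a := D.cen _ k1
  have c0V := D.cen_V k0 v
  have c1V := D.cen_V k1 v
  have c01 : Commute c0 c1 := by
    rw [hc1]
    exact (((D.cen_w k0 u u').mul_right (D.cen_U k0 y)).mul_right (D.cen_w k0 u u')).mul_right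
      (D.cen_V k0 v)
  have e1 : W * D.U y * W = c1 * D.V v := by
    rw [hc1, mul_assoc (W * D.U y * W), D.V_self, mul_one]
  have e0 : W * D.a * W = c0 * D.a⁻¹ := by
    rw [hc0, mul_inv_cancel_right]
  have e0' : W * D.a⁻¹ * W = D.a * c0⁻¹ := by
    have : W * D.a⁻¹ * W = (W * D.a * W)⁻¹ := by
      rw [mul_inv_rev, mul_inv_rev, D.w_inv, mul_assoc]
    rw [this, e0, mul_inv_rev, inv_inv]
  have e2 : D.U x = D.a * D.U y * D.a⁻¹ * D.U y := by
    have h1 := D.aU y
    have h2 := D.U_congr (D.hκ' x)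
    rw [← h2, show (1 + X : P) * (κ D * x) = X * y + y by rw [hy]; ring, D.U_add, ← h1]
  have e3 : D.V (u' * u' * x) = D.a⁻¹ * D.V v * D.a * D.V v := by
    have h1 := D.aV v
    have h2 := D.V_congr (D.hκ' (u' * u' * x))
    rw [← h2, show (1 + X : P) * (κ D * (u' * u' * x)) = X * v + v by rw [hv, hy]; ring, D.V_add,
      ← h1]
  have csq : c1 * c1 = 1 := by
    have h1 : (W * D.U y * W) * (W * D.U y * W) = 1 := by
      calc _ = W * D.U y * (W * W) * D.U y * W := by group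
        _ = W * (D.U y * D.U y) * W := by rw [hW]; group
        _ = 1 := by rw [D.U_self, mul_one, hW]
    rw [e1] at h1
    calc c1 * c1 = c1 * (D.V v * D.V v) * c1 := by rw [D.V_self]; group
      _ = c1 * D.V v * (D.V v * c1) := by group
      _ = 1 := by rw [← c1V.eq]; exact h1
  have c1ai : Commute c1 D.a⁻¹ := c1a.inv_right
  have c0i1 : Commute c0⁻¹ (c1 * D.V v) := (c01.mul_right c0V).inv_left
  calc W * D.U x * W = W * (D.a * D.U y * D.a⁻¹ * D.U y) * W := by rw [e2]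
    _ = (W * D.a) * 1 * (D.U y * 1 * D.a⁻¹ * 1 * D.U y) * W := by group
    _ = (W * D.a * W) * (W * D.U y * W) * (W * D.a⁻¹ * W) * (W * D.U y * W) := by
        rw [← hW]; group
    _ = (c0 * D.a⁻¹) * (c1 * D.V v) * (D.a * c0⁻¹) * (c1 * D.V v) := by rw [e0, e1, e0']
    _ = c0 * (D.a⁻¹ * c1) * D.V v * D.a * (c0⁻¹ * (c1 * D.V v)) := by group
    _ = c0 * (c1 * D.a⁻¹) * D.V v * D.a * ((c1 * D.V v) * c0⁻¹) := by rw [c0i1.eq, c1ai.eq]
    _ = c0 * (c1 * (D.a⁻¹ * D.V v * D.a * c1 * D.V v)) * c0⁻¹ := by group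
    _ = D.V (u' * u' * x) := by
        have h2 : D.a⁻¹ * D.V v * D.a * c1 = c1 * (D.a⁻¹ * D.V v * D.a) := by
          have : Commute c1 (D.a⁻¹ * D.V v * D.a) := (c1ai.mul_right c1V).mul_right c1a
          exact this.eq.symm
        rw [h2]
        have h3 : c1 * (c1 * (D.a⁻¹ * D.V v * D.a) * D.V v) = D.V (u' * u' * x) := by
          calc _ = (c1 * c1) * (D.a⁻¹ * D.V v * D.a * D.V v) := by group
            _ = _ := by rw [csq, one_mul, e3]
        rw [h3, (D.cen_V k0 _).eq, mul_inv_cancel_right]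

theorem w_V {u u' : P} (h : Φ ∣ u * u' + 1) (x : P) :
    D.w u u' * D.V x * D.w u u' = D.U (u * u * x) := by
  have h1 := D.w_U h (u * u * x)
  have h2 : D.V (u' * u' * (u * u * x)) = D.V x := by
    apply D.V_congr
    have e2 : (2 : P) = 0 := CharTwo.two_eq_zero
    have e : u' * u' * (u * u * x) + x = (u * u' + 1) * ((u * u' + 1) * x) := by
      linear_combination (-(u * u' * x)) * e2
    rw [e]
    exact h.mul_right _
  rw [h2] at h1
  have hW := D.w_self u u'
  rw [← h1]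
  calc _ = (D.w u u' * D.w u u') * D.U (u * u * x) * (D.w u u' * D.w u u') := by group
    _ = _ := by rw [hW]; group

/-- `H(u)` -/
noncomputable def H (u u' : P) : G := D.w u u' * D.w 1 1

lemma H_inv (u u' : P) : (D.H u u')⁻¹ = D.w 1 1 * D.w u u' := by
  unfold H
  rw [mul_inv_rev, D.w_inv, D.w_inv]

lemma h11 : Φ ∣ (1 : P) * 1 + 1 := by
  rw [mul_one, P_add_self]; exact dvd_zero _

lemma cen_H {c : G} (hc : D.ψ c = 1) (u u' : P) : Commute c (D.H u u') :=
  (D.cen_w hc u u').mul_right (D.cen_w hc 1 1)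

theorem H_U {u u' : P} (h : Φ ∣ u * u' + 1) (x : P) :
    D.H u u' * D.U x * (D.H u u')⁻¹ = D.U (u * u * x) := by
  rw [D.H_inv, H]
  have h1 := D.w_U h11 x
  rw [one_mul, one_mul] at h1
  calc _ = D.w u u' * (D.w 1 1 * D.U x * D.w 1 1) * D.w u u' := by group
    _ = _ := by rw [h1, D.w_V h]

theorem H_V {u u' : P} (h : Φ ∣ u * u' + 1) (x : P) :
    D.H u u' * D.V x * (D.H u u')⁻¹ = D.V (u' * u' * x) := by
  rw [D.H_inv, H]
  have h1 := D.w_V h11 x
  rw [one_mul, one_mul] at h1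
  calc _ = D.w u u' * (D.w 1 1 * D.V x * D.w 1 1) * D.w u u' := by group
    _ = _ := by rw [h1, D.w_U h]

/-- orthogonality -/
theorem orth {e x y : P} (he : Φ ∣ e * e + e) (hx : Φ ∣ e * x) (hy : Φ ∣ e * y + y) {X' : P}
    (hX : Φ ∣ X * X' + 1) : Commute (D.U x) (D.V y) := by
  have e2 : (2 : P) = 0 := CharTwo.two_eq_zero
  set u : P := 1 + e * (1 + X) with hu
  set u' : P := 1 + e * (1 + X') with hu'
  have h : Φ ∣ u * u' + 1 := by
    have e1 : u * u' + 1 = (e * e + e) * ((1 + X) * (1 + X')) + (X * X' + 1) * e := by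
      rw [hu, hu']
      linear_combination (1 - e * X * X') * e2
    rw [e1]
    exact dvd_add (he.mul_right _) (hX.mul_right _)
  have hux : D.U (u * u * x) = D.U x := by
    apply D.U_congr
    have e1 : u * u * x + x = (e * x) * ((u + 1) * (1 + X)) := by
      rw [hu]
      linear_combination (x - e * (1 + X) * x * 0) * e2
    rw [e1]
    exact hx.mul_right _
  have hyx : Φ ∣ x * y := by
    have e1 : x * y = (e * y + y) * x + (e * x) * y := by
      linear_combination (-(e * x * y)) * e2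
    rw [e1]
    exact dvd_add (hy.mul_right _) (hx.mul_right _)
  -- the commutator
  let β : P → G := fun z => D.V (y * z) * D.U x * D.V (y * z) * D.U x
  have hβ : ∀ z, D.ψ (β z) = 1 := by
    intro z
    have h1 : D.σ x * D.σ (y * z) = 0 := by
      rw [← D.σ_mul]
      apply D.σ_ker
      rw [← mul_assoc]
      exact hyx.mul_right _
    have h2 := D.char2 (D.σ x)
    have h3 := D.char2 (D.σ (y * z))
    change D.ψ (D.V (y * z) * D.U x * D.V (y * z) * D.U x) = 1
    rw [map_mul, map_mul, map_mul, D.ψU, D.ψV]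
    apply Units.ext
    rw [Units.val_mul, Units.val_mul, Units.val_mul]
    ext i j; fin_cases i <;> fin_cases j <;> simp [upp, low]
    · exact h1
    · linear_combination h2 + D.σ x * h1
    · linear_combination h3 + D.σ (y * z) * h1
    · linear_combination (3 + D.σ x * D.σ (y * z)) * h1
  have hadd : ∀ z z', β (z + z') = β z * β z' := by
    intro z z'
    have k := D.cen_V (hβ z') (y * z)
    change D.V (y * (z + z')) * D.U x * D.V (y * (z + z')) * D.U x = β z * β z'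
    have e1 : D.V (y * (z + z')) = D.V (y * z) * D.V (y * z') := by rw [mul_add, D.V_add]
    have e3 : D.V (y * (z + z')) = D.V (y * z') * D.V (y * z) := by
      rw [mul_add, add_comm, D.V_add]
    have k2 : Commute (β z') (D.V (y * z) * D.U x) := k.mul_right (D.cen_U (hβ z') x)
    calc D.V (y * (z + z')) * D.U x * D.V (y * (z + z')) * D.U x
        = (D.V (y * z) * D.V (y * z')) * D.U x * (D.V (y * z') * D.V (y * z)) * D.U x := by
          rw [← e1, ← e3]
      _ = D.V (y * z) * ((D.V (y * z') * D.U x * D.V (y * z') * D.U x) * (D.U x)⁻¹) *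
            D.V (y * z) * D.U x := by group
      _ = D.V (y * z) * (β z' * D.U x) * D.V (y * z) * D.U x := by rw [D.U_inv]
      _ = (D.V (y * z) * β z') * D.U x * D.V (y * z) * D.U x := by group
      _ = β z' * (D.V (y * z) * D.U x) * D.V (y * z) * D.U x := by rw [← k.eq]; group
      _ = (D.V (y * z) * D.U x) * β z' * D.V (y * z) * D.U x := by rw [k2.eq]
      _ = D.V (y * z) * D.U x * (β z' * (D.V (y * z) * D.U x)) := by group
      _ = β z * β z' := by rw [k2.eq]; simp only [β]; group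
  have h0 : β 0 = 1 := by
    simp [β, D.U_self]
  have hH : ∀ z, β (u' * u' * z) = β z := by
    intro z
    have k1 := D.H_V h (y * z)
    have k2 := D.H_U h x
    rw [hux] at k2
    have k3 := D.cen_H (hβ z) u u'
    have e1 : u' * u' * (y * z) = y * (u' * u' * z) := by ring
    rw [e1] at k1
    change D.V (y * (u' * u' * z)) * D.U x * D.V (y * (u' * u' * z)) * D.U x = β z
    rw [← k1]
    calc _ = D.H u u' * D.V (y * z) * (D.H u u')⁻¹ * (D.H u u' * D.U x * (D.H u u')⁻¹) *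
          (D.H u u' * D.V (y * z) * (D.H u u')⁻¹) * (D.H u u' * D.U x * (D.H u u')⁻¹) := by
          rw [k2]
      _ = D.H u u' * β z * (D.H u u')⁻¹ := by simp only [β]; group
      _ = β z := by rw [← k3.eq, mul_inv_cancel_right]
  obtain ⟨z0, hz0⟩ : ∃ z0, z0 = X * X * (κ D * κ D) := ⟨_, rfl⟩
  have h3 : β (z0 + u' * u' * z0) = 1 := by
    rw [hadd, hH, ← hadd, P_add_self, h0]
  have h4 : D.V (y * (z0 + u' * u' * z0)) = D.V y := by
    apply D.V_congr
    have hk := D.hκ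
    have e1 : y * (z0 + u' * u' * z0) + y = (e * y + y) * ((1 + X') * (u' - X') * z0)
        + ((1 + X) * κ D + 1) * (((1 + X) * κ D + 1) * y)
        + (X * X' + 1) * ((X * X' + 1) * (κ D * κ D * y)) := by
      rw [hz0, hu']
      linear_combination (y - ((1 + X) * κ D + 1) * y - (X * X' + 1) * (κ D * κ D * y)
        - X * (κ D * κ D) * y) * e2
    rw [e1]
    exact dvd_add (dvd_add (hy.mul_right _) (hk.mul_right _)) (hX.mul_right _)
  have h5 : D.V y * D.U x * D.V y * D.U x = 1 := by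
    have : β (z0 + u' * u' * z0) = D.V y * D.U x * D.V y * D.U x := by
      simp only [β]; rw [h4]
    rw [← this]; exact h3
  have h6 : D.V y * D.U x = (D.V y * D.U x)⁻¹ := by
    apply eq_inv_of_mul_eq_one_left
    rw [← mul_assoc]; exact h5
  rw [mul_inv_rev, D.U_inv, D.V_inv] at h6
  exact h6.symm

/-- the matrix of `H(u)` is diagonal -/
lemma ψH {u u' : P} (h : Φ ∣ u * u' + 1) :
    ((D.ψ (D.H u u') : GL (Fin 2) A) : Matrix (Fin 2) (Fin 2) A) =
      !![1 + D.σ 1 + D.σ u, 0; 0, 1 + D.σ 1 + D.σ u'] := by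
  have h2 := D.sigma_vanish u
  have h3 := D.sigma_vanish u'
  have h4 := D.e_mul u
  have h5 := D.e_mul u'
  have h7 := D.e_sq
  have h8 := D.char2 (D.σ 1)
  unfold H
  rw [map_mul, Units.val_mul, D.ψw h, D.ψw h11]
  ext i j; fin_cases i <;> fin_cases j <;> simp
  · linear_combination h4 + h7 + h8
  · linear_combination h7 + h8 + h2
  · linear_combination h7 + h8 + h3
  · linear_combination h5 + h7 + h8

theorem H_comm {u u' : P} (h : Φ ∣ u * u' + 1) (k l : ℕ) :
    Commute (D.H (u ^ k) (u' ^ k)) (D.H (u ^ l) (u' ^ l)) := by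
  have hk : ∀ k : ℕ, Φ ∣ u ^ k * u' ^ k + 1 := by
    intro k
    have h1 : (u * u' - 1 : P) ∣ (u * u') ^ k - 1 ^ k := sub_dvd_pow_sub_pow _ _ _
    rw [one_pow, P_sub, P_sub, mul_pow] at h1
    exact h.trans h1
  have hpow : ∀ k : ℕ, D.ψ (D.H (u ^ k) (u' ^ k) * (D.H u u' ^ k)⁻¹) = 1 := by
    intro k
    rw [map_mul, map_inv, map_pow, mul_inv_eq_one]
    induction k with
    | zero =>
      apply Units.ext
      rw [D.ψH (hk 0)]
      have h8 := D.char2 (D.σ 1)
      ext i j; fin_cases i <;> fin_cases j <;> simp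
      · linear_combination h8
      · linear_combination h8
    | succ k ih =>
      rw [pow_succ (D.ψ (D.H u u')), ← ih]
      apply Units.ext
      rw [Units.val_mul, D.ψH (hk _), D.ψH (hk _), D.ψH h]
      have h2 := D.sigma_vanish u
      have h3 := D.sigma_vanish u'
      have h4 := D.sigma_vanish (u ^ k)
      have h5 := D.sigma_vanish (u' ^ k)
      have h7 := D.e_sq
      have h8 := D.char2 (D.σ 1)
      have h9 := D.σ_mul (u ^ k) u
      have h10 := D.σ_mul (u' ^ k) u'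
      ext i j; fin_cases i <;> fin_cases j <;> simp
      · rw [pow_succ, h9]
        linear_combination -h2 - h4 - h7 - h8
      · rw [pow_succ, h10]
        linear_combination -h3 - h5 - h7 - h8
  have c1 := D.cen_H (hpow k) u u'
  have c2 := D.cen_H (hpow l) u u'
  have c3 := (D.cen_H (hpow k) (u ^ l) (u' ^ l))
  have e1 : ∀ k, D.H (u ^ k) (u' ^ k) = D.H (u ^ k) (u' ^ k) * (D.H u u' ^ k)⁻¹ * D.H u u' ^ k := by
    intro k; rw [inv_mul_cancel_right]
  rw [e1 k]
  apply Commute.mul_left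
  · exact c3
  · rw [e1 l]
    exact (c2.pow_right k).symm.mul_right ((Commute.refl _).pow_pow k l)

end SD

end Pool.Agent.Helper35.YG
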