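import Mathlib
import Pool.Agent.Helper35.YG.CenA
import Pool.Agent.Helper35.YG.SD
import Pool.Agent.Helper35.YG.Dbl2

set_option autoImplicit false

open Polynomial

namespace Pool.Agent.Helper35.YG

/-- `1 + X + … + X^{n-1}` -/
noncomputable def Ph (n : ℕ) : P := ∑ i ∈ Finset.range n, X ^ i

lemma Ph_mul (n : ℕ) : (1 + X) * Ph n = X ^ n + 1 := by
  have h := mul_geom_sum (X : P) n
  have h2 : (2 : P) = 0 := CharTwo.two_eq_zero
  unfold Ph
  linear_combination h + (∑ i ∈ Finset.range n, (X : P) ^ i + 1 - 1) * h2 * 0 +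
    (∑ i ∈ Finset.range n, (X : P) ^ i) * h2 - h2

lemma exists_kappa {n : ℕ} (hn : Odd n) : ∃ κ : P, (1 + X) * κ + 1 = Ph n := by
  have h1 : (X - C 1 : P) ∣ Ph n - C ((Ph n).eval 1) := X_sub_C_dvd_sub_C_eval
  have h2 : (Ph n).eval 1 = 1 := by
    unfold Ph
    rw [eval_finsetSum]
    simp only [eval_pow, eval_X, one_pow, Finset.sum_const, Finset.card_range, nsmul_eq_mul,
      mul_one]
    obtain ⟨k, rfl⟩ := hn
    have : (2 : ZMod 2) = 0 := by decide
    push_cast
    rw [this]; ring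
  rw [h2, map_one] at h1
  obtain ⟨κ, hκ⟩ := h1
  refine ⟨κ, ?_⟩
  have h2 : (2 : P) = 0 := CharTwo.two_eq_zero
  linear_combination (κ) * h2 - hκ

namespace Dat

variable {T : Type*} [Group T] (D : Dat T)

/-- the Steinberg data in the data group -/
theorem exists_SD {n : ℕ} (hn : Odd n) (haN : D.a ^ n = 1) (hN : 0 < n) :
    ∃ S : SD (D.prod (datQ hN)).GG (RN n) (Ph n),
      (∀ f, ((S.U f).1).1 = D.U ((Ph n + 1) * f)) ∧ (∀ f, ((S.V f).1).1 = D.V ((Ph n + 1) * f)) ∧
      (S.a.1).1 = D.a := by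
  obtain ⟨κ, hκ⟩ := exists_kappa hn
  have h2 : (2 : P) = 0 := CharTwo.two_eq_zero
  set E := D.prod (datQ hN) with hE
  have hdvd : ∀ f, Ph n ∣ f → (X ^ n + 1 : P) ∣ (Ph n + 1) * f := by
    rintro f ⟨g, rfl⟩
    refine ⟨κ * g, ?_⟩
    rw [← Ph_mul]
    linear_combination (-(Ph n * g)) * hκ + (Ph n * g) * h2
  have hphi2 : phi n (Ph n + 1) * phi n (Ph n + 1) = phi n (Ph n + 1) := by
    have h3 : phi n ((Ph n + 1) * Ph n) = 0 := by
      rw [phi_eq_zero]
      exact hdvd _ dvd_rfl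
    rw [map_mul] at h3
    have h4 := RN_add_self (phi n (Ph n + 1))
    rw [map_add, map_one] at h3 h4 ⊢
    linear_combination h3
  refine ⟨{
    U := fun f => ⟨E.U ((Ph n + 1) * f), E.U_GG _⟩
    V := fun f => ⟨E.V ((Ph n + 1) * f), E.V_GG _⟩
    a := ⟨E.a, E.a_GG⟩
    U_add := ?_
    V_add := ?_
    aU := ?_
    aV := ?_
    U_ker := ?_
    V_ker := ?_
    ψ := (MonoidHom.snd T (GL (Fin 2) (RN n))).comp (Subgroup.subtype _)
    char2 := RN_add_self
    σ := fun f => phi n ((Ph n + 1) * f)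
    σ_add := ?_
    σ_mul := ?_
    t := xu hN
    t_sq := ?_
    ψU := ?_
    ψV := ?_
    ψa := ?_
    κ := κ
    hκ := ?_
    σ_ker := ?_
    cen := ?_ }, ?_, ?_, ?_⟩
  · intro f g
    apply Subtype.ext
    change E.U _ = E.U _ * E.U _
    rw [mul_add, E.U_add]
  · intro f g
    apply Subtype.ext
    change E.V _ = E.V _ * E.V _
    rw [mul_add, E.V_add]
  · intro f
    apply Subtype.ext
    change E.a * E.U _ * E.a⁻¹ = E.U _
    rw [E.aU, mul_inv_cancel_right]
    congr 1; ring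
  · intro f
    apply Subtype.ext
    change E.a⁻¹ * E.V _ * E.a = E.V _
    rw [mul_assoc, ← E.aV, inv_mul_cancel_left]
    congr 1; ring
  · intro f hf
    apply Subtype.ext
    change (D.U _, upp (phi n _)) = _
    rw [D.U_dvd haN (hdvd f hf), phi_eq_zero.mpr (hdvd f hf)]
    ext i j
    · rfl
    · fin_cases i <;> fin_cases j <;> simp [upp]
  · intro f hf
    apply Subtype.ext
    have hU : E.U ((Ph n + 1) * f) = 1 := by
      change (D.U _, upp (phi n _)) = _
      rw [D.U_dvd haN (hdvd f hf), phi_eq_zero.mpr (hdvd f hf)]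
      ext i j
      · rfl
      · fin_cases i <;> fin_cases j <;> simp [upp]
    change E.V _ = 1
    rw [Dat.V, hU, mul_one, E.w2]
  · intro f g
    rw [mul_add, map_add]
  · intro f g
    rw [map_mul, map_mul, map_mul, map_mul]
    linear_combination (-(phi n f * phi n g)) * hphi2
  · have h3 : phi n ((1 + X) * Ph n) = 0 := by
      rw [phi_eq_zero, Ph_mul]
    have h4 : ((xu hN : (RN n)ˣ) : RN n) * xu hN = phi n X := by
      rw [phi_X, sq]; rfl
    have h5 := RN_add_self (1 : RN n)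
    rw [h4, mul_one, map_mul, map_add, map_one]
    rw [map_mul, map_add, map_one] at h3
    linear_combination -h3 - h5
  · intro f; rfl
  · intro f
    change swp * upp (phi n _) * swp = low _
    apply Units.ext
    rw [Units.val_mul, Units.val_mul]
    ext i j; fin_cases i <;> fin_cases j <;> simp [swp, upp, low]
  · rfl
  · rw [hκ]
  · intro f hf
    rw [phi_eq_zero]; exact hdvd f hf
  · intro c hc
    have hc2 : (c.1).2 = 1 := hc
    have h6 := D.cen hN haN (fun ℓ hl _ => NTprop_all ℓ hl) c.2 hc2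
    change _ * _ = _ * _
    apply Subtype.ext
    change c.1 * E.a = E.a * c.1
    apply Prod.ext
    · exact h6.eq
    · change (c.1).2 * _ = _ * (c.1).2
      rw [hc2, one_mul, mul_one]
  · intro f; rfl
  · intro f; rfl
  · rfl

end Dat

end Pool.Agent.Helper35.YG
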