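import Mathlib
import Pool.Agent.Helper35.YG.MkSD
import Pool.Agent.Helper35.YG.Y3
import Pool.Agent.Helper35.YG.QE

set_option autoImplicit false

open Polynomial

namespace Pool.Agent.Helper35.YG

lemma P_two : (2 : P) = 0 := CharTwo.two_eq_zero

/-- Frobenius periodicity modulo `X^n + 1` -/
lemma exists_period {n : ℕ} (hn : Odd n) :
    ∃ k : ℕ, 3 ≤ k ∧ ∀ f : P, (X ^ n + 1 : P) ∣ f ^ k + f := by
  have hn0 : 0 < n := hn.pos
  have hc : Nat.Coprime 2 n := (Nat.coprime_two_left).mpr hn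
  set r := 2 * n.totient with hr
  have hr2 : 2 ≤ r := by
    have := Nat.totient_pos.mpr hn0
    omega
  have hdiv : n ∣ 2 ^ r - 1 := by
    have h1 := Nat.ModEq.pow_totient hc
    have h2 : 2 ^ r ≡ 1 [MOD n] := by
      rw [hr, mul_comm, pow_mul]
      have := h1.pow 2
      simpa using this
    exact (Nat.modEq_iff_dvd' Nat.one_le_two_pow).mp h2.symm
  obtain ⟨m, hm⟩ := hdiv
  have hpow : 2 ^ r = n * m + 1 := by
    have := Nat.one_le_two_pow (n := r)
    omega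
  refine ⟨2 ^ r, ?_, ?_⟩
  · calc 3 ≤ 2 ^ 2 := by norm_num
      _ ≤ 2 ^ r := Nat.pow_le_pow_right (by norm_num) hr2
  · intro f
    induction f using P_induction with
    | h0 => rw [zero_pow (by positivity)]; simp
    | hX j =>
      rw [← pow_mul, hpow, show j * (n * m + 1) = j + n * (m * j) by ring, pow_add]
      have h1 : (X ^ n - 1 : P) ∣ (X ^ n) ^ (m * j) - 1 ^ (m * j) := sub_dvd_pow_sub_pow _ _ _
      rw [one_pow, ← pow_mul, P_sub, P_sub] at h1
      have e : (X : P) ^ j * X ^ (n * (m * j)) + X ^ j = (X ^ (n * (m * j)) + 1) * X ^ j := by ring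
      rw [e]
      exact h1.mul_right _
    | hadd f g hf hg =>
      rw [add_pow_two_pow]
      have e : f ^ 2 ^ r + g ^ 2 ^ r + (f + g) = (f ^ 2 ^ r + f) + (g ^ 2 ^ r + g) := by ring
      rw [e]
      exact dvd_add hf hg

lemma Ph_dvd (n : ℕ) : Ph n ∣ X ^ n + 1 := ⟨1 + X, by rw [← Ph_mul]; ring⟩

section

variable {n : ℕ} (hn : Odd n) {E : Type*} [CommRing E] (ε : P →+* E)
  (hε : Function.Surjective ε) (hPh : ε (Ph n) = 0)

include hε in
lemma E_char2 (z : E) : z + z = 0 := by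
  obtain ⟨f, rfl⟩ := hε z
  rw [← map_add, P_add_self, map_zero]

include hPh in
lemma ε_dvd {f g : P} (h : Ph n ∣ f + g) : ε f = ε g := by
  obtain ⟨k, hk⟩ := h
  have h1 : ε (f + g) = 0 := by rw [hk, map_mul, hPh, zero_mul]
  have h2 : ε (g + g) = 0 := by rw [P_add_self, map_zero]
  rw [map_add] at h1 h2
  exact add_right_cancel (h1.trans h2.symm)

include hn hε hPh in
lemma E_period : ∃ k : ℕ, 3 ≤ k ∧ (∀ z : E, z ^ k = z) ∧ ∀ f : P, Ph n ∣ f ^ k + f := by
  obtain ⟨k, hk, h⟩ := exists_period hn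
  refine ⟨k, hk, ?_, fun f => (Ph_dvd n).trans (h f)⟩
  intro z
  obtain ⟨f, rfl⟩ := hε z
  rw [← map_pow]
  exact ε_dvd ε hPh ((Ph_dvd n).trans (h f))

include hn hε hPh in
/-- lifting units -/
lemma lift_unit (u : Eˣ) : ∃ f g : P, ε f = u ∧ ε g = ((u⁻¹ : Eˣ) : E) ∧ Ph n ∣ f * g + 1 := by
  obtain ⟨k, hk, hz, hper⟩ := E_period hn ε hε hPh
  obtain ⟨f, hf⟩ := hε u
  have hp := hper f
  obtain ⟨m, rfl⟩ : ∃ m, k = m + 3 := ⟨k - 3, by omega⟩
  set e := f ^ (m + 2) with he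
  have hue : ε e = 1 := by
    have h1 := hz (u : E)
    have h2 : (u : E) ^ (m + 2) * u = 1 * u := by rw [← pow_succ, h1, one_mul]
    rw [he, map_pow, hf]
    exact (Units.mul_left_inj u).mp h2
  have hprod : Ph n ∣ (f + (1 + e)) * (f ^ (m + 1) + (1 + e)) + 1 := by
    have e1 : (f + (1 + e)) * (f ^ (m + 1) + (1 + e)) + 1
        = (f ^ (m + 3) + f) * (1 + f ^ m + f ^ (m + 1)) := by
      rw [he]
      linear_combination (f ^ (m + 2) + 1) * P_two
    rw [e1]
    exact hp.mul_right _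
  refine ⟨f + (1 + e), f ^ (m + 1) + (1 + e), ?_, ?_, hprod⟩
  · have h2 := E_char2 ε hε (1 : E)
    rw [map_add, map_add, map_one, hue, hf, h2, add_zero]
  · have h2 := E_char2 ε hε (1 : E)
    rw [map_add, map_add, map_one, hue, h2, add_zero, map_pow, hf]
    have h3 : (u : E) ^ (m + 1) * u = 1 := by
      rw [← pow_succ, ← hf, ← map_pow]; exact hue
    calc (u : E) ^ (m + 1) = (u : E) ^ (m + 1) * (u * ((u⁻¹ : Eˣ) : E)) := by simp
      _ = _ := by rw [← mul_assoc, h3, one_mul]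

/-- the transfer of relations -/
structure Tr (n : ℕ) (E Γ : Type*) [CommRing E] [Group Γ] (ε : P →+* E) (x : Fin 3 → Γ)
    (U V : E → Γ) : Prop where
  U_add : ∀ e f, U (e + f) = U e * U f
  V_add : ∀ e f, V (e + f) = V e * V f
  hU : ∀ k : ℕ, U (1 + ε X ^ k) = x 0 ^ k * x 1 ^ k
  hV : ∀ k : ℕ, V (1 + ε X ^ k) = (x 0 ^ k)⁻¹ * (x 2 ^ k)⁻¹

end

section

variable {n : ℕ} (hn : Odd n) {E Γ : Type*} [CommRing E] [Group Γ] {ε : P →+* E}
  (hε : Function.Surjective ε) (hPh : ε (Ph n) = 0) {x : Fin 3 → Γ} (hx : YRel n x)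
  {U V : E → Γ} (ht : Tr n E Γ ε x U V)

include hn hε hPh hx ht in
/-- all relations needed -/
theorem transfer : 
    (∀ e, x 0 * U e * (x 0)⁻¹ = U (ε X * e)) ∧ (∀ e, (x 0)⁻¹ * V e * x 0 = V (ε X * e)) ∧
    (∀ (u : Eˣ) (z : E), (U u * V ((u⁻¹ : Eˣ) : E) * U u) * U z * (U u * V ((u⁻¹ : Eˣ) : E) * U u) =
      V (((u⁻¹ : Eˣ) : E) * ((u⁻¹ : Eˣ) : E) * z)) ∧
    (∀ y z : E, y * z = 0 → U y * V z = V z * U y) ∧
    (∀ (u : Eˣ) (k l : ℕ), Commute
      (U ((u ^ k : Eˣ) : E) * V (((u ^ k)⁻¹ : Eˣ) : E) * U ((u ^ k : Eˣ) : E) * (U 1 * V 1 * U 1))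
      (U ((u ^ l : Eˣ) : E) * V (((u ^ l)⁻¹ : Eˣ) : E) * U ((u ^ l : Eˣ) : E) *
        (U 1 * V 1 * U 1))) := by
  have hN : 0 < n := hn.pos
  obtain ⟨D, hDa, hDw, hD1, hDX⟩ := exists_dat3 hN
  set L := LL 3 n with hL
  have hLinj : Function.Injective L := LL_inj
  have haN : D.a ^ n = 1 := by
    rw [hDa, ← map_pow, (yrel_gen hN).pow, map_one]
  obtain ⟨S, hSU, hSV, hSa⟩ := D.exists_SD hn haN hN
  obtain ⟨f, hf⟩ := exists_hom hx
  have g0 : L (gen 3 n 0) = D.a := hDa.symm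
  have cw : ∀ y, D.w * L y * D.w = L (fl hN (Equiv.swap 1 2) y) := by
    intro y; rw [hDw]; exact th_conj _ _ _ y
  have cu : ∀ y, D.U 1 * L y * D.U 1 = L (fl hN (Equiv.swap 0 1) y) := by
    intro y; rw [hD1]; exact th_conj _ _ _ y
  have e2 := E_char2 ε hε (1 : E)
  -- the basic words
  have t1 : ∀ k : ℕ, D.U (1 + X ^ k) = L (gen 3 n 0 ^ k * gen 3 n 1 ^ k) := by
    intro k
    have h1 := cu (gen 3 n 0 ^ k)
    rw [map_pow (fl hN _), fl_gen, show (Equiv.swap (0 : Fin 3) 1) 0 = 1 by decide] at h1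
    have h2 : D.U (X ^ k) = D.a ^ k * D.U 1 * (D.a ^ k)⁻¹ := by
      rw [hDX, hDa, hD1]
    have h3 : (gen 3 n 0 ^ k * gen 3 n 1 ^ k) = (gen 3 n 1 ^ k)⁻¹ * (gen 3 n 0 ^ k)⁻¹ := by
      rw [← mul_inv_rev]
      apply eq_inv_of_mul_eq_one_left
      have := (yrel_gen (m := 3) hN).rel 0 1 (by decide) k
      simpa using this
    rw [D.U_add, h2, h3, map_mul, map_inv (LL 3 n) (gen 3 n 0 ^ k), map_pow (LL 3 n) (gen 3 n 0),
      ← hDa, ← mul_assoc, ← mul_assoc, hDa, ← map_pow]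
    congr 1
    rw [← inv_pow]
    exact h1
  have t2 : ∀ k : ℕ, D.V (1 + X ^ k) = L ((gen 3 n 0 ^ k)⁻¹ * (gen 3 n 2 ^ k)⁻¹) := by
    intro k
    have h1 := cw (gen 3 n 0 ^ k * gen 3 n 1 ^ k)
    rw [← t1] at h1
    rw [Dat.V, h1, map_mul, map_pow, map_pow, fl_gen, fl_gen,
      show (Equiv.swap (1 : Fin 3) 2) 0 = 0 by decide,
      show (Equiv.swap (1 : Fin 3) 2) 1 = 2 by decide, inv_pow, inv_pow]
  -- transfer of U and V
  have TU0 : ∀ g : P, ∃ y, L y = D.U ((1 + X) * g) ∧ f y = U (ε ((1 + X) * g)) := by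
    intro g
    induction g using P_induction with
    | h0 =>
      refine ⟨1, ?_, ?_⟩
      · rw [mul_zero, D.U_zero, map_one]
      · rw [mul_zero, map_zero, map_one]
        have := ht.U_add 0 0
        rw [add_zero] at this
        exact (left_eq_mul.mp this).symm
    | hX j =>
      refine ⟨(gen 3 n 0 ^ j * gen 3 n 1 ^ j) * (gen 3 n 0 ^ (j + 1) * gen 3 n 1 ^ (j + 1)), ?_, ?_⟩
      · rw [map_mul, ← t1, ← t1, ← D.U_add]
        congr 1
        linear_combination P_two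
      · rw [map_mul, map_mul f (gen 3 n 0 ^ j), map_mul f (gen 3 n 0 ^ (j + 1)), map_pow, map_pow,
          map_pow, map_pow, hf, hf, ← ht.hU, ← ht.hU, ← ht.U_add]
        congr 1
        rw [map_mul, map_add, map_one, map_pow]
        linear_combination e2
    | hadd g h hg hh =>
      obtain ⟨y, h1, h2⟩ := hg
      obtain ⟨z, h3, h4⟩ := hh
      refine ⟨y * z, ?_, ?_⟩
      · rw [map_mul, h1, h3, mul_add, D.U_add]
      · rw [map_mul, h2, h4, mul_add, map_add, ht.U_add]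
  have TV0 : ∀ g : P, ∃ y, L y = D.V ((1 + X) * g) ∧ f y = V (ε ((1 + X) * g)) := by
    intro g
    induction g using P_induction with
    | h0 =>
      refine ⟨1, ?_, ?_⟩
      · rw [mul_zero, map_one, Dat.V, D.U_zero, mul_one, D.w2]
      · rw [mul_zero, map_zero, map_one]
        have := ht.V_add 0 0
        rw [add_zero] at this
        exact (left_eq_mul.mp this).symm
    | hX j =>
      refine ⟨((gen 3 n 0 ^ j)⁻¹ * (gen 3 n 2 ^ j)⁻¹) *
        ((gen 3 n 0 ^ (j + 1))⁻¹ * (gen 3 n 2 ^ (j + 1))⁻¹), ?_, ?_⟩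
      · rw [map_mul, ← t2, ← t2, ← D.V_add]
        congr 1
        linear_combination P_two
      · rw [map_mul, map_mul f (gen 3 n 0 ^ j)⁻¹, map_mul f (gen 3 n 0 ^ (j + 1))⁻¹, map_inv,
          map_inv, map_inv, map_inv, map_pow, map_pow,
          map_pow, map_pow, hf, hf, ← ht.hV, ← ht.hV, ← ht.V_add]
        congr 1
        rw [map_mul, map_add, map_one, map_pow]
        linear_combination e2
    | hadd g h hg hh =>
      obtain ⟨y, h1, h2⟩ := hg
      obtain ⟨z, h3, h4⟩ := hh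
      refine ⟨y * z, ?_, ?_⟩
      · rw [map_mul, h1, h3, mul_add, D.V_add]
      · rw [map_mul, h2, h4, mul_add, map_add, ht.V_add]
  obtain ⟨κ, hκ⟩ := exists_kappa hn
  have hκ2 : (Ph n + 1 : P) = (1 + X) * κ := by
    rw [← hκ]; linear_combination P_two
  have hεκ : ∀ g : P, ε ((1 + X) * (κ * g)) = ε g := by
    intro g
    rw [← mul_assoc, ← hκ2, map_mul, map_add, hPh, map_one, zero_add, one_mul]
  have TU : ∀ g : P, ∃ y, L y = D.U ((Ph n + 1) * g) ∧ f y = U (ε g) := by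
    intro g
    obtain ⟨y, h1, h2⟩ := TU0 (κ * g)
    refine ⟨y, ?_, ?_⟩
    · rw [h1, ← mul_assoc, hκ2]
    · rw [h2, hεκ]
  have TV : ∀ g : P, ∃ y, L y = D.V ((Ph n + 1) * g) ∧ f y = V (ε g) := by
    intro g
    obtain ⟨y, h1, h2⟩ := TV0 (κ * g)
    refine ⟨y, ?_, ?_⟩
    · rw [h1, ← mul_assoc, hκ2]
    · rw [h2, hεκ]
  choose yU hyU hfU using TU
  choose yV hyV hfV using TV
  have hSU' : ∀ g, L (yU g) = ((S.U g).1).1 := fun g => by rw [hyU, hSU]
  have hSV' : ∀ g, L (yV g) = ((S.V g).1).1 := fun g => by rw [hyV, hSV]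
  have mul11 : ∀ a b : (D.prod (datQ hN)).GG, ((a * b).1).1 = (a.1).1 * (b.1).1 := fun _ _ => rfl
  refine ⟨?_, ?_, ?_, ?_, ?_⟩
  · intro e
    obtain ⟨g, rfl⟩ := hε e
    have h1 : gen 3 n 0 * yU g * (gen 3 n 0)⁻¹ = yU (X * g) := by
      apply hLinj
      rw [map_mul, map_mul, map_inv, hyU, hyU, g0, D.aU, mul_inv_cancel_right]
      congr 1; ring
    have h2 := congrArg f h1
    rw [map_mul, map_mul, map_inv, hf, hfU, hfU, map_mul] at h2
    exact h2
  · intro e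
    obtain ⟨g, rfl⟩ := hε e
    have h1 : (gen 3 n 0)⁻¹ * yV g * (gen 3 n 0) = yV (X * g) := by
      apply hLinj
      rw [map_mul, map_mul, map_inv, hyV, hyV, g0, mul_assoc, ← D.aV, inv_mul_cancel_left]
      congr 1; ring
    have h2 := congrArg f h1
    rw [map_mul, map_mul, map_inv, hf, hfV, hfV, map_mul] at h2
    exact h2
  · intro u z
    obtain ⟨p, p', hp, hp', hpp⟩ := lift_unit hn ε hε hPh u
    obtain ⟨g, rfl⟩ := hε z
    have h1 : (yU p * yV p' * yU p) * yU g * (yU p * yV p' * yU p) = yV (p' * p' * g) := by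
      apply hLinj
      have h := congrArg (fun z : (D.prod (datQ hN)).GG => (z.1).1) (S.w_U hpp g)
      simp only [SD.w, mul11] at h
      simp only [map_mul, hSU', hSV']
      exact h
    have h2 := congrArg f h1
    simp only [map_mul, hfU, hfV, hp, hp'] at h2
    rw [← h2]
  · intro y z hyz
    obtain ⟨k, hk, hzk, hper⟩ := E_period hn ε hε hPh
    obtain ⟨b, rfl⟩ := hε z
    obtain ⟨a, rfl⟩ := hε y
    obtain ⟨m, rfl⟩ : ∃ m, k = m + 3 := ⟨k - 3, by omega⟩
    have hb := hper b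
    set e : P := b ^ (m + 2) with he
    have he1 : Ph n ∣ e * b + b := by
      rw [he, ← pow_succ]; exact hb
    have he2 : Ph n ∣ e * e + e := by
      have e1 : e * e + e = (e * b + b) * b ^ (m + 1) := by rw [he]; ring
      rw [e1]; exact he1.mul_right _
    have he3 : Ph n ∣ e * (a * (1 + e)) := by
      have e1 : e * (a * (1 + e)) = (e * e + e) * a := by ring
      rw [e1]; exact he2.mul_right _
    have hεa : ε (a * (1 + e)) = ε a := by
      rw [map_mul, map_add, map_one, he, map_pow, pow_succ]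
      linear_combination (ε b ^ (m + 1)) * hyz
    have hXX : Ph n ∣ X * X ^ (n - 1) + 1 := by
      rw [← pow_succ', Nat.sub_add_cancel hN]; exact Ph_dvd n
    have h1 : yU (a * (1 + e)) * yV b = yV b * yU (a * (1 + e)) := by
      apply hLinj
      have h := congrArg (fun z : (D.prod (datQ hN)).GG => (z.1).1)
        (S.orth he2 he3 he1 hXX).eq
      simp only [mul11] at h
      simp only [map_mul, hSU', hSV']
      exact h
    have h2 := congrArg f h1
    simp only [map_mul, hfU, hfV] at h2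
    rw [← map_mul, hεa] at h2
    exact h2
  · intro u k l
    obtain ⟨p, p', hp, hp', hpp⟩ := lift_unit hn ε hε hPh u
    have hq : ∀ j : ℕ, U ((u ^ j : Eˣ) : E) = f (yU (p ^ j)) := by
      intro j
      rw [hfU, map_pow, hp, Units.val_pow_eq_pow_val]
    have hq' : ∀ j : ℕ, V (((u ^ j)⁻¹ : Eˣ) : E) = f (yV (p' ^ j)) := by
      intro j
      rw [hfV, map_pow, hp', ← inv_pow, Units.val_pow_eq_pow_val]
    have hU1 : U 1 = f (yU 1) := by rw [hfU, map_one]
    have hV1 : V 1 = f (yV 1) := by rw [hfV, map_one]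
    have h1 : (yU (p ^ k) * yV (p' ^ k) * yU (p ^ k) * (yU 1 * yV 1 * yU 1)) *
        (yU (p ^ l) * yV (p' ^ l) * yU (p ^ l) * (yU 1 * yV 1 * yU 1)) =
        (yU (p ^ l) * yV (p' ^ l) * yU (p ^ l) * (yU 1 * yV 1 * yU 1)) *
        (yU (p ^ k) * yV (p' ^ k) * yU (p ^ k) * (yU 1 * yV 1 * yU 1)) := by
      apply hLinj
      have h := congrArg (fun z : (D.prod (datQ hN)).GG => (z.1).1) (S.H_comm hpp k l).eq
      simp only [SD.H, SD.w, mul11] at h
      simp only [map_mul, hSU', hSV']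
      exact h
    have h2 := congrArg f h1
    rw [hq, hq', hq, hq', hU1, hV1]
    change _ * _ = _ * _
    simp only [← map_mul]
    exact h2

end

end Pool.Agent.Helper35.YG
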