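import Mathlib
import Pool.Agent.Helper35.YG.TA

set_option autoImplicit false

open Polynomial

namespace Pool.Agent.Helper35.YG

/-- A group `Γ` with elements `x i` satisfying the relations of `Y(m,n)`, together with
homomorphisms `U i j : (E,+) → Γ` such that `U i j (1 + ζ^k) = x_i^k x_j^k`, `ζ = ε X`. -/
structure YE (n m : ℕ) (E Γ : Type*) [CommRing E] [Group Γ] (ε : P →+* E) where
  x : Fin m → Γ
  rel : YRel n x
  U : Fin m → Fin m → E → Γ
  U_add : ∀ i j, i ≠ j → ∀ e f, U i j (e + f) = U i j e * U i j f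
  hU : ∀ i j, i ≠ j → ∀ k : ℕ, U i j (1 + ε X ^ k) = x i ^ k * x j ^ k

end Pool.Agent.Helper35.YG
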