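import Mathlib
import Pool.Agent.Helper35.YG.YE
import Pool.Agent.Helper97.YG.Stein

set_option autoImplicit false

open Polynomial Matrix

namespace Pool.Agent.Helper35.YG

open Pool.Agent.Helper97.YG (stein_ring sl2_ext sl2_mul_apply uu_00 uu_01 uu_10 uu_11 vv_00 vv_01
  vv_10 vv_11)

lemma dd_eq {R : Type*} [CommRing R] {x y x' y' : R} (h : x * y = 1) (h' : x' * y' = 1)
    (hx : x = x') (hy : y = y') : dd x y h = dd x' y' h' := by
  subst hx hy; rfl

section
variable {R : Type*} [CommRing R]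
lemma dd_00 {x y : R} (h : x * y = 1) : (dd x y h) 0 0 = x := rfl
lemma dd_01 {x y : R} (h : x * y = 1) : (dd x y h) 0 1 = 0 := rfl
lemma dd_10 {x y : R} (h : x * y = 1) : (dd x y h) 1 0 = 0 := rfl
lemma dd_11 {x y : R} (h : x * y = 1) : (dd x y h) 1 1 = y := rfl
lemma JJ_00 (h : (2 : R) = 0) : (JJ h) 0 0 = 0 := rfl
lemma JJ_01 (h : (2 : R) = 0) : (JJ h) 0 1 = 1 := rfl
lemma JJ_10 (h : (2 : R) = 0) : (JJ h) 1 0 = 1 := rfl
lemma JJ_11 (h : (2 : R) = 0) : (JJ h) 1 1 = 0 := rfl
lemma one_00 : (1 : SpecialLinearGroup (Fin 2) R) 0 0 = 1 := rfl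
lemma one_01 : (1 : SpecialLinearGroup (Fin 2) R) 0 1 = 0 := rfl
lemma one_10 : (1 : SpecialLinearGroup (Fin 2) R) 1 0 = 0 := rfl
lemma one_11 : (1 : SpecialLinearGroup (Fin 2) R) 1 1 = 1 := rfl
end

/-- `SL_2` of a ring with `z^k = z` is generated by unipotents -/
theorem slE_gen {R : Type*} [CommRing R] {k : ℕ} (hk : 3 ≤ k) (hper : ∀ z : R, z ^ k = z)
    (S : Submonoid (SpecialLinearGroup (Fin 2) R)) (hu : ∀ x, uu x ∈ S) (hv : ∀ x, vv x ∈ S)
    (M : SpecialLinearGroup (Fin 2) R) : M ∈ S := by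
  have hdiag : ∀ (u v : R) (h : u * v = 1), dd u v h ∈ S := by
    intro u v h
    have e : dd u v h = (uu u * vv (-v) * uu u) * (uu (-1) * vv 1 * uu (-1)) := by
      apply sl2_ext <;> simp only [sl2_mul_apply, uu_00, uu_01, uu_10, uu_11, vv_00, vv_01,
        vv_10, vv_11, dd_00, dd_01, dd_10, dd_11]
      · linear_combination u * h
      · linear_combination (-1 : R) * h
      · linear_combination (1 : R) * h
      · linear_combination h - h
    rw [e]
    exact S.mul_mem (S.mul_mem (S.mul_mem (hu _) (hv _)) (hu _))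
      (S.mul_mem (S.mul_mem (hu _) (hv _)) (hu _))
  obtain ⟨m, rfl⟩ : ∃ m, k = m + 3 := ⟨k - 3, by omega⟩
  have hdet : M 0 0 * M 1 1 - M 0 1 * M 1 0 = 1 := by
    have := M.det_coe
    rwa [Matrix.det_fin_two] at this
  set α := M 0 0 with hα
  set β := M 0 1 with hβ
  set γ := M 1 0 with hγ
  set δ := M 1 1 with hδ
  obtain ⟨e, he⟩ : ∃ e, e = γ ^ (m + 2) := ⟨_, rfl⟩
  have heγ : e * γ = γ := by rw [he, ← pow_succ]; exact hper γ
  have hee : e * e = e := by
    have h1 : e * e = (e * γ) * γ ^ (m + 1) := by rw [he]; ring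
    rw [h1, heγ, he]; ring
  obtain ⟨x, hx⟩ : ∃ x, x = (1 - α) * γ ^ (m + 1) := ⟨_, rfl⟩
  obtain ⟨u, hu'⟩ : ∃ u, u = α + x * γ := ⟨_, rfl⟩
  have hux : u = e + (1 - e) * α := by
    rw [hu', hx, he]; ring
  obtain ⟨v, hv'⟩ : ∃ v, v = e + (1 - e) * δ := ⟨_, rfl⟩
  have huv : u * v = 1 := by
    rw [hux, hv']
    linear_combination (1 - α - δ + α * δ) * hee + (1 - e) * hdet - β * heγ
  have hM : M = uu (-x) * (vv (γ * v) * dd u v huv * uu (v * (β + x * δ))) := by
    apply sl2_ext <;> simp only [sl2_mul_apply, uu_00, uu_01, uu_10, uu_11, vv_00, vv_01,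
        vv_10, vv_11, dd_00, dd_01, dd_10, dd_11, ← hα, ← hβ, ← hγ, ← hδ]
    · linear_combination hu' * (-1) + x * γ * huv
    · linear_combination (-(β + x * δ) + x * δ + x * γ * (β + x * δ) * v) * huv
        - x * v * δ * hu' - x * v * hdet
    · linear_combination (-γ) * huv
    · linear_combination (-δ - γ * (β + x * δ) * v) * huv + v * δ * hu' + v * hdet
  rw [hM]
  exact S.mul_mem (hu _) (S.mul_mem (S.mul_mem (hv _) (hdiag _ _ _)) (hu _))

/-- the homomorphism from `SL_2` attached to three generators -/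
theorem TA {n : ℕ} (hn : Odd n) {E Γ : Type*} [CommRing E] [Nontrivial E] [Group Γ] {ε : P →+* E}
    (hε : Function.Surjective ε) (hPh : ε (Ph n) = 0) {x : Fin 3 → Γ} (hx : YRel n x)
    {U V : E → Γ} (ht : Tr n E Γ ε x U V) :
    ∃ φ : SpecialLinearGroup (Fin 2) E →* Γ, (∀ e, φ (uu e) = U e) ∧ (∀ e, φ (vv e) = V e) ∧
      (∀ e, x 0 * U e * (x 0)⁻¹ = U (ε X * e)) ∧
      x 1 = U 1 * (x 0)⁻¹ * U 1 ∧ x 2 = V 1 * (x 0)⁻¹ * V 1 ∧
      (∀ h, φ (dd (ε X ^ ((n + 1) / 2)) (ε X ^ ((n - 1) / 2)) h) = x 0) := by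
  obtain ⟨h1, h2, h3, h4, h5⟩ := transfer hn hε hPh hx ht
  obtain ⟨k, hk, hper, hperP⟩ := E_period hn ε hε hPh
  have c2 := E_char2 ε hε
  have hred : IsReduced E := by
    constructor
    rintro z ⟨j, hj⟩
    have hz : ∀ l : ℕ, z ^ k ^ l = z := by
      intro l
      induction l with
      | zero => simp
      | succ l ih => rw [pow_succ, pow_mul, ih, hper]
    have h6 : j ≤ k ^ j := (Nat.lt_pow_self (by omega)).le
    rw [← hz j]
    exact pow_eq_zero_of_le h6 hj
  have hchar : CharP E 2 := CharTwo.of_one_ne_zero_of_two_eq_zero one_ne_zero (by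
    have := c2 1
    rw [one_add_one_eq_two] at this
    exact this)
  have hfin : Finite E := by
    have hne : Ph n ≠ 0 := by
      intro h
      have := Ph_mul n
      rw [h, mul_zero] at this
      have h7 := (monic_X_pow_add_C (1 : ZMod 2) hn.pos.ne').ne_zero
      apply h7
      rw [map_one]; exact this.symm
    have hfq0 : Finite (AdjoinRoot (Ph n)) := finite_adjoin hne
    have hfq : Finite (P ⧸ Ideal.span {Ph n}) := hfq0
    have hkill : ∀ f ∈ Ideal.span {Ph n}, ε f = 0 := by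
      intro f hf
      obtain ⟨g, rfl⟩ := Ideal.mem_span_singleton.mp hf
      rw [map_mul, hPh, zero_mul]
    refine Finite.of_surjective (Ideal.Quotient.lift (Ideal.span {Ph n}) ε hkill) ?_
    intro z
    obtain ⟨f, rfl⟩ := hε z
    exact ⟨Ideal.Quotient.mk _ f, Ideal.Quotient.lift_mk _ _ _⟩
  obtain ⟨φ, hφu, hφv⟩ := stein_ring U V ht.U_add ht.V_add h3 h4 h5
  have hζn : ε X ^ n = 1 := by
    have := ε_dvd ε hPh (f := X ^ n) (g := 1) (Ph_dvd n)
    rwa [map_pow, map_one] at this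
  have hU0 : U 0 = 1 := by
    have := ht.U_add 0 0
    rw [add_zero] at this
    exact left_eq_mul.mp this
  have hV0 : V 0 = 1 := by
    have := ht.V_add 0 0
    rw [add_zero] at this
    exact left_eq_mul.mp this
  have hUU : ∀ e, U e * U e = 1 := fun e => by rw [← ht.U_add, c2, hU0]
  have hVV : ∀ e, V e * V e = 1 := fun e => by rw [← ht.V_add, c2, hV0]
  have hx1 : x 1 = U 1 * (x 0)⁻¹ * U 1 := by
    have e1 := ht.hU 1
    rw [pow_one, pow_one, pow_one, add_comm, ht.U_add] at e1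
    have e2 := h1 1
    rw [mul_one] at e2
    rw [← e2] at e1
    calc x 1 = (x 0)⁻¹ * (x 0 * x 1) := by group
      _ = (x 0)⁻¹ * (x 0 * U 1 * (x 0)⁻¹ * U 1) := by rw [e1]
      _ = _ := by group
  have hx2 : x 2 = V 1 * (x 0)⁻¹ * V 1 := by
    have e1 := ht.hV 1
    rw [pow_one, pow_one, pow_one, add_comm, ht.V_add] at e1
    have e2 := h2 1
    rw [mul_one] at e2
    rw [← e2] at e1
    have hVi : (V 1)⁻¹ = V 1 := inv_eq_of_mul_eq_one_left (hVV 1)
    have e3 : (x 2)⁻¹ = V 1 * x 0 * V 1 := by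
      calc (x 2)⁻¹ = x 0 * ((x 0)⁻¹ * (x 2)⁻¹) := by group
        _ = x 0 * ((x 0)⁻¹ * V 1 * x 0 * V 1) := by rw [e1]
        _ = _ := by group
    rw [← inv_inv (x 2), e3, _root_.mul_inv_rev, _root_.mul_inv_rev, hVi, mul_assoc]
  refine ⟨φ, hφu, hφv, h1, hx1, hx2, ?_⟩
  intro h
  obtain ⟨η, hη⟩ : ∃ η, η = ε X ^ ((n + 1) / 2) := ⟨_, rfl⟩
  obtain ⟨η', hη'⟩ : ∃ η', η' = ε X ^ ((n - 1) / 2) := ⟨_, rfl⟩
  obtain ⟨l, hl⟩ := hn
  have e1 : (n + 1) / 2 = l + 1 := by omega
  have e2 : (n - 1) / 2 = l := by omega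
  rw [e1] at hη
  rw [e2] at hη'
  have hηη' : η * η' = 1 := by
    rw [hη, hη', ← pow_add, show l + 1 + l = n by omega, hζn]
  have hηsq : η * η = ε X := by
    rw [hη, ← pow_add, show l + 1 + (l + 1) = n + 1 by omega, pow_succ, hζn, one_mul]
  have hηn : η ^ n = 1 := by rw [hη, ← pow_mul, mul_comm, pow_mul, hζn, one_pow]
  have hη'n : η' ^ n = 1 := by rw [hη', ← pow_mul, mul_comm, pow_mul, hζn, one_pow]
  have hd : dd (ε X ^ ((n + 1) / 2)) (ε X ^ ((n - 1) / 2)) h = dd η η' hηη' :=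
    dd_eq _ _ (by rw [hη, e1]) (by rw [hη', e2])
  rw [hd]
  have hη'η : η' * η = 1 := by rw [mul_comm]; exact hηη'
  set d := dd η η' hηη' with hdd
  set d' := dd η' η hη'η with hdd'
  have hd' : d * d' = 1 := by
    apply sl2_ext <;> simp only [sl2_mul_apply, hdd, hdd', dd_00, dd_01, dd_10, dd_11, one_00,
      one_01, one_10, one_11]
    · linear_combination hηη'
    · ring
    · ring
    · linear_combination hηη'
  have hdi : d⁻¹ = d' := inv_eq_of_mul_eq_one_right hd'
  obtain ⟨c, hc⟩ : ∃ c, c = x 0 * (φ d)⁻¹ := ⟨_, rfl⟩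
  have hx0 : x 0 = c * φ d := by rw [hc, inv_mul_cancel_right]
  -- c commutes with everything
  have cU : ∀ e, c * U e = U e * c := by
    intro e
    have e3 : d * uu e = uu (ε X * e) * d := by
      apply sl2_ext <;> simp only [sl2_mul_apply, hdd, dd_00, dd_01, dd_10, dd_11,
        uu_00, uu_01, uu_10, uu_11]
      · ring
      · rw [← hηsq]; linear_combination (-(η * e)) * hηη'
      · ring
      · ring
    have e4 := congrArg φ e3
    rw [map_mul, map_mul, hφu, hφu] at e4
    have e5 := h1 e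
    calc c * U e = x 0 * (φ d)⁻¹ * (U e) := by rw [hc]
      _ = c * U e := by rw [hc]
      _ = U e * c := by
        -- write e = ζ e'
        have e6 : ∀ e', (φ d)⁻¹ * U (ε X * e') = U e' * (φ d)⁻¹ := by
          intro e'
          have e3 : d * uu e' = uu (ε X * e') * d := by
            apply sl2_ext <;> simp only [sl2_mul_apply, hdd, dd_00, dd_01, dd_10, dd_11,
              uu_00, uu_01, uu_10, uu_11]
            · ring
            · rw [← hηsq]; linear_combination (-(η * e')) * hηη'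
            · ring
            · ring
          have e4 := congrArg φ e3
          rw [map_mul, map_mul, hφu, hφu] at e4
          calc (φ d)⁻¹ * U (ε X * e') = (φ d)⁻¹ * (U (ε X * e') * φ d) * (φ d)⁻¹ := by group
            _ = (φ d)⁻¹ * (φ d * U e') * (φ d)⁻¹ := by rw [e4]
            _ = _ := by group
        have e7 : ε X * (ε X ^ (n - 1) * e) = e := by
          rw [← mul_assoc, ← pow_succ', Nat.sub_add_cancel (by omega), hζn, one_mul]
        have e8 := h1 (ε X ^ (n - 1) * e)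
        have e9 := e6 (ε X ^ (n - 1) * e)
        rw [e7] at e8 e9
        calc c * U e = x 0 * ((φ d)⁻¹ * U e) := by rw [hc]; group
          _ = x 0 * (U (ε X ^ (n - 1) * e) * (φ d)⁻¹) := by rw [e9]
          _ = (x 0 * U (ε X ^ (n - 1) * e) * (x 0)⁻¹) * (x 0 * (φ d)⁻¹) := by group
          _ = U e * c := by rw [e8, hc]
  have cV : ∀ e, c * V e = V e * c := by
    intro e
    have e3 : d * vv (ε X * e) = vv e * d := by
      apply sl2_ext <;> simp only [sl2_mul_apply, hdd, dd_00, dd_01, dd_10, dd_11,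
        vv_00, vv_01, vv_10, vv_11]
      · ring
      · ring
      · rw [← hηsq]; linear_combination (η * e) * hηη'
      · ring
    have e4 := congrArg φ e3
    rw [map_mul, map_mul, hφv, hφv] at e4
    have e5 := h2 e
    calc c * V e = x 0 * (φ d)⁻¹ * (V e * φ d) * (φ d)⁻¹ := by rw [hc]; group
      _ = x 0 * (φ d)⁻¹ * (φ d * V (ε X * e)) * (φ d)⁻¹ := by rw [e4]
      _ = x 0 * V (ε X * e) * (φ d)⁻¹ := by group
      _ = x 0 * ((x 0)⁻¹ * V e * x 0) * (φ d)⁻¹ := by rw [e5]
      _ = V e * c := by rw [hc]; group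
  have cφ : ∀ g, Commute c (φ g) := by
    intro g
    let S : Submonoid (SpecialLinearGroup (Fin 2) E) :=
      { carrier := {g | Commute c (φ g)}
        one_mem' := by
          change Commute c (φ 1)
          rw [map_one]; exact Commute.one_right _
        mul_mem' := by
          intro a b ha hb
          change Commute c (φ (a * b))
          rw [map_mul]
          exact Commute.mul_right ha hb }
    exact slE_gen hk hper S (fun y => by change Commute _ _; rw [hφu]; exact cU y)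
      (fun y => by change Commute _ _; rw [hφv]; exact cV y) g
  have cn : c ^ n = 1 := by
    have e3 : (c * φ d) ^ n = c ^ n * φ d ^ n := (cφ d).mul_pow n
    rw [← hx0, hx.pow, ← map_pow] at e3
    have e4 : ∀ j : ℕ, d ^ j = dd (η ^ j) (η' ^ j) (by rw [← mul_pow, hηη', one_pow]) := by
      intro j
      induction j with
      | zero => apply sl2_ext <;> simp [dd]
      | succ j ih =>
        rw [pow_succ, ih]
        apply sl2_ext <;> simp only [sl2_mul_apply, hdd, dd_00, dd_01, dd_10, dd_11] <;> ring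
    have e5 : d ^ n = 1 := by
      rw [e4]
      apply sl2_ext <;> simp only [dd_00, dd_01, dd_10, dd_11, one_00, one_01, one_10, one_11]
      · exact hηn
      · exact hη'n
    rw [e5, map_one, mul_one] at e3
    exact e3.symm
  have c4 : c ^ 4 = 1 := by
    by_cases hn1 : n = 1
    · subst hn1
      rw [pow_one] at cn
      rw [cn, one_pow]
    have r12 := hx.rel 1 2 (by decide) 1
    rw [zpow_one, zpow_one] at r12
    have ec : (x 0)⁻¹ = c⁻¹ * φ d' := by
      rw [hx0, _root_.mul_inv_rev, ← map_inv, hdi]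
      exact ((cφ d').inv_left).eq.symm
    have ci : ∀ g, Commute c⁻¹ (φ g) := fun g => (cφ g).inv_left
    have f1 : x 1 = c⁻¹ * φ (uu 1 * d' * uu 1) := by
      rw [hx1, ec, map_mul, map_mul, ← hφu]
      calc φ (uu 1) * (c⁻¹ * φ d') * φ (uu 1) = (φ (uu 1) * c⁻¹) * φ d' * φ (uu 1) := by group
        _ = _ := by rw [← (ci (uu 1)).eq]; group
    have f2 : x 2 = c⁻¹ * φ (vv 1 * d' * vv 1) := by
      rw [hx2, ec, map_mul, map_mul, ← hφv]
      calc φ (vv 1) * (c⁻¹ * φ d') * φ (vv 1) = (φ (vv 1) * c⁻¹) * φ d' * φ (vv 1) := by group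
        _ = _ := by rw [← (ci (vv 1)).eq]; group
    have f3 : x 1 * x 2 = c⁻¹ * c⁻¹ * φ ((uu 1 * d' * uu 1) * (vv 1 * d' * vv 1)) := by
      rw [f1, f2, map_mul φ (uu 1 * d' * uu 1)]
      calc c⁻¹ * φ (uu 1 * d' * uu 1) * (c⁻¹ * φ (vv 1 * d' * vv 1))
          = c⁻¹ * (φ (uu 1 * d' * uu 1) * c⁻¹) * φ (vv 1 * d' * vv 1) := by group
        _ = _ := by rw [← (ci _).eq]; group
    have f4 : ((uu 1 * d' * uu 1) * (vv 1 * d' * vv 1)) * ((uu 1 * d' * uu 1) * (vv 1 * d' * vv 1))
        = 1 := by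
      have c21 := c2 1
      have g0 : (uu 1 * d' * uu 1) * (vv 1 * d' * vv 1) = uu 1 * vv (1 + ε X) * uu (1 : E) := by
        apply sl2_ext <;> simp only [sl2_mul_apply, hdd', dd_00, dd_01, dd_10, dd_11,
          uu_00, uu_01, uu_10, uu_11, vv_00, vv_01, vv_10, vv_11]
        · linear_combination (η' * η' + η * η' - 1) * c21 + hηsq
        · linear_combination hηη' + hηsq - c21
        · linear_combination hηη' + hηsq
        · linear_combination hηsq - c21
      have g1 : vv (1 + ε X) * vv (1 + ε X) = 1 := by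
        apply sl2_ext <;> simp only [sl2_mul_apply, vv_00, vv_01, vv_10, vv_11, one_00, one_01,
          one_10, one_11]
        · ring
        · ring
        · linear_combination (1 + ε X) * c21
        · ring
      have g2 : uu (1 : E) * uu 1 = 1 := by
        apply sl2_ext <;> simp only [sl2_mul_apply, uu_00, uu_01, uu_10, uu_11, one_00, one_01,
          one_10, one_11]
        · ring
        · linear_combination c21
        · ring
        · ring
      rw [g0]
      calc uu 1 * vv (1 + ε X) * uu 1 * (uu 1 * vv (1 + ε X) * uu 1)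
          = uu 1 * vv (1 + ε X) * (uu 1 * uu 1) * vv (1 + ε X) * uu 1 := by group
        _ = uu 1 * (vv (1 + ε X) * vv (1 + ε X)) * uu 1 := by rw [g2]; group
        _ = 1 := by rw [g1, mul_one, g2]
    rw [f3] at r12
    have f5 : (c⁻¹ * c⁻¹) * (c⁻¹ * c⁻¹) = 1 := by
      have h8 := ci ((uu 1 * d' * uu 1) * (vv 1 * d' * vv 1))
      have h9 := h8.mul_left h8
      have h10 := congrArg φ f4
      rw [map_mul, map_one] at h10
      calc (c⁻¹ * c⁻¹) * (c⁻¹ * c⁻¹) = (c⁻¹ * c⁻¹) * ((c⁻¹ * c⁻¹) *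
            (φ ((uu 1 * d' * uu 1) * (vv 1 * d' * vv 1)) *
            φ ((uu 1 * d' * uu 1) * (vv 1 * d' * vv 1)))) := by rw [h10, mul_one]
        _ = (c⁻¹ * c⁻¹) * ((c⁻¹ * c⁻¹) *
            φ ((uu 1 * d' * uu 1) * (vv 1 * d' * vv 1))) *
            φ ((uu 1 * d' * uu 1) * (vv 1 * d' * vv 1)) := by group
        _ = 1 := by rw [h9.eq, ← r12]; group
    have f6 : (c ^ 4)⁻¹ = 1 := by
      rw [← f5]; group
    exact inv_eq_one.mp f6
  have hc1 : c = 1 := by
    have h8 : orderOf c ∣ 4 := orderOf_dvd_of_pow_eq_one c4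
    have h9 : orderOf c ∣ n := orderOf_dvd_of_pow_eq_one cn
    have h10 : Nat.Coprime 4 n := by
      have : Nat.Coprime 2 n := Nat.coprime_two_left.mpr ⟨l, hl⟩
      exact Nat.Coprime.pow_left 2 this
    have h11 := Nat.dvd_gcd h8 h9
    rw [h10] at h11
    exact orderOf_eq_one_iff.mp (Nat.dvd_one.mp h11)
  rw [hx0, hc1, one_mul]

/-- matrix identity -/
lemma mat_id {R : Type*} [CommRing R] (h2 : (1 : R) + 1 = 0) {a b : R} (h : a * b = 1)
    (h' : b * a = 1) :
    (uu 1 * dd b a h' * uu 1) * (vv 1 * dd b a h' * vv 1) = uu 1 * vv (1 + a * a) * uu (1 : R) := by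
  apply sl2_ext <;> simp only [sl2_mul_apply, dd_00, dd_01, dd_10, dd_11,
    uu_00, uu_01, uu_10, uu_11, vv_00, vv_01, vv_10, vv_11]
  · linear_combination (b * b + a * b - 1) * h2
  · linear_combination h - h2
  · linear_combination h
  · linear_combination - h2

lemma dd_pow {R : Type*} [CommRing R] {a b : R} (h : a * b = 1) (j : ℕ) :
    (dd a b h) ^ j = dd (a ^ j) (b ^ j) (by rw [← mul_pow, h, one_pow]) := by
  induction j with
  | zero =>
    rw [pow_zero]
    apply sl2_ext <;> simp only [dd_00, dd_01, dd_10, dd_11, one_00, one_01, one_10, one_11,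
      pow_zero]
  | succ j ih =>
    rw [pow_succ, ih]
    apply sl2_ext <;> simp only [sl2_mul_apply, dd_00, dd_01, dd_10, dd_11] <;> ring

lemma uu_add {R : Type*} [CommRing R] (a b : R) : uu (a + b) = uu a * uu b := by
  apply sl2_ext <;> simp only [sl2_mul_apply, uu_00, uu_01, uu_10, uu_11] <;> ring

lemma vv_add {R : Type*} [CommRing R] (a b : R) : vv (a + b) = vv a * vv b := by
  apply sl2_ext <;> simp only [sl2_mul_apply, vv_00, vv_01, vv_10, vv_11] <;> ring

lemma uu_zero {R : Type*} [CommRing R] : uu (0 : R) = 1 := by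
  apply sl2_ext <;> simp only [uu_00, uu_01, uu_10, uu_11, one_00, one_01, one_10, one_11]

lemma vv_zero {R : Type*} [CommRing R] : vv (0 : R) = 1 := by
  apply sl2_ext <;> simp only [vv_00, vv_01, vv_10, vv_11, one_00, one_01, one_10, one_11]

/-- induction in `E`: the elements `1 + ζ^k` generate `E` additively -/
lemma E_ind {n : ℕ} (hn : Odd n) {E : Type*} [CommRing E] {ε : P →+* E}
    (hε : Function.Surjective ε) (hPh : ε (Ph n) = 0) {p : E → Prop} (h0 : p 0)
    (h1 : ∀ k : ℕ, p (1 + ε X ^ k)) (hadd : ∀ a b, p a → p b → p (a + b)) : ∀ e, p e := by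
  have key : ∀ f : P, p (ε ((1 + X) * f)) := by
    intro f
    induction f using P_induction with
    | h0 => rw [mul_zero, map_zero]; exact h0
    | hX k =>
      have e : ε ((1 + X) * X ^ k) = (1 + ε X ^ k) + (1 + ε X ^ (k + 1)) := by
        have h2 := E_char2 ε hε 1
        rw [map_mul, map_add, map_pow, map_one]
        linear_combination - h2
      rw [e]
      exact hadd _ _ (h1 _) (h1 _)
    | hadd f g hf hg => rw [mul_add, map_add]; exact hadd _ _ hf hg
  intro e
  obtain ⟨f, rfl⟩ := hε e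
  obtain ⟨κ, hκ⟩ := exists_kappa hn
  have h3 : ε ((1 + X) * κ) = 1 := by
    have h4 : ε ((1 + X) * κ + 1) = 0 := by rw [hκ, hPh]
    have h2 := E_char2 ε hε 1
    rw [map_add, map_one] at h4
    linear_combination h4 - h2
  have h4 : ε f = ε ((1 + X) * (κ * f)) := by
    rw [← mul_assoc, map_mul ε ((1 + X) * κ), h3, one_mul]
  rw [h4]
  exact key _

theorem triple {n m : ℕ} (hn : Odd n) {E Γ : Type*} [CommRing E] [Nontrivial E] [Group Γ]
    {ε : P →+* E} (hε : Function.Surjective ε) (hPh : ε (Ph n) = 0) (bar : E →+* E)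
    (hbar : bar (ε X) = ε X ^ (n - 1)) (D : YE n m E Γ ε) (i j k : Fin m) (hij : i ≠ j)
    (hik : i ≠ k) (hjk : j ≠ k) : ∃ φ : SpecialLinearGroup (Fin 2) E →* Γ,
      (∀ e, φ (uu e) = D.U i j e) ∧ (∀ e, φ (vv e) = D.U i k (bar e)) ∧
      (∀ e, φ (uu 1 * vv e * uu 1) = D.U j k e) ∧
      (∀ e, D.x i * D.U i j e * (D.x i)⁻¹ = D.U i j (ε X * e)) ∧
      D.x j = D.U i j 1 * (D.x i)⁻¹ * D.U i j 1 ∧
      D.x k = D.U i k 1 * (D.x i)⁻¹ * D.U i k 1 ∧
      (∀ h, φ (dd (ε X ^ ((n + 1) / 2)) (ε X ^ ((n - 1) / 2)) h) = D.x i) := by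
  set f : Fin 3 → Fin m := ![i, j, k] with hf
  have hfinj : ∀ a b, a ≠ b → f a ≠ f b := by
    intro a b hab
    fin_cases a <;> fin_cases b <;> simp_all [Ne.symm]
  have hx : YRel n (D.x ∘ f) :=
    ⟨fun a => D.rel.pow (f a), fun a b hab l => D.rel.rel (f a) (f b) (hfinj a b hab) l⟩
  have hζn : ε X ^ n = 1 := by
    have := ε_dvd ε hPh (f := X ^ n) (g := 1) (Ph_dvd n)
    rwa [map_pow, map_one] at this
  have ht : Tr n E Γ ε (D.x ∘ f) (D.U i j) (fun e => D.U i k (bar e)) := by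
    refine ⟨D.U_add i j hij, ?_, ?_, ?_⟩
    · intro a b
      rw [map_add, D.U_add i k hik]
    · intro l
      exact D.hU i j hij l
    · intro l
      rw [map_add, map_one, map_pow, hbar, ← pow_mul, D.hU i k hik]
      have e : ∀ y : Γ, y ^ n = 1 → y ^ ((n - 1) * l) = (y ^ l)⁻¹ := by
        intro y hy
        rw [eq_inv_iff_mul_eq_one, ← pow_add]
        have : (n - 1) * l + l = n * l := by
          obtain ⟨k, rfl⟩ := hn
          rw [Nat.add_sub_cancel]; ring
        rw [this, pow_mul, hy, one_pow]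
      rw [e _ (D.rel.pow i), e _ (D.rel.pow k)]
      rfl
  obtain ⟨φ, h1, h2, h3, h4, h5, h6⟩ := TA hn hε hPh hx ht
  have hbar1 : bar 1 = 1 := map_one _
  refine ⟨φ, h1, h2, ?_, h3, h4, ?_, h6⟩
  · have c21 : (1 : E) + 1 = 0 := E_char2 ε hε 1
    obtain ⟨η, hη⟩ : ∃ η, η = ε X ^ ((n + 1) / 2) := ⟨_, rfl⟩
    obtain ⟨η', hη'⟩ : ∃ η', η' = ε X ^ ((n - 1) / 2) := ⟨_, rfl⟩
    rw [← hη, ← hη'] at h6
    obtain ⟨l, hl⟩ := hn
    have e1 : (n + 1) / 2 = l + 1 := by omega
    have e2 : (n - 1) / 2 = l := by omega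
    rw [e1] at hη
    rw [e2] at hη'
    have hηη' : η * η' = 1 := by
      rw [hη, hη', ← pow_add, show l + 1 + l = n by omega, hζn]
    have hη'η : η' * η = 1 := by rw [mul_comm]; exact hηη'
    have hηsq : η * η = ε X := by
      rw [hη, ← pow_add, show l + 1 + (l + 1) = n + 1 by omega, pow_succ, hζn, one_mul]
    have hUU : D.U i j 1 * D.U i j 1 = 1 := by
      rw [← D.U_add i j hij, c21]
      have := D.U_add i j hij 0 0
      rw [add_zero] at this
      exact left_eq_mul.mp this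
    have hVV : D.U i k 1 * D.U i k 1 = 1 := by
      rw [← D.U_add i k hik, c21]
      have := D.U_add i k hik 0 0
      rw [add_zero] at this
      exact left_eq_mul.mp this
    have hinv : ∀ q : ℕ, (D.x i ^ q)⁻¹ = φ (dd (η' ^ q) (η ^ q) (by rw [← mul_pow, hη'η, one_pow])) := by
      intro q
      have h6' : φ (dd η η' hηη') = D.x i := h6 hηη'
      rw [← h6', ← map_pow, ← map_inv, dd_pow]
      congr 1
      rw [inv_eq_iff_mul_eq_one]
      have a1 : η ^ q * η' ^ q = 1 := by rw [← mul_pow, hηη', one_pow]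
      apply sl2_ext <;> simp only [sl2_mul_apply, dd_00, dd_01, dd_10, dd_11, one_00, one_01,
        one_10, one_11]
      · linear_combination a1
      · ring
      · ring
      · linear_combination a1
    have conjpow : ∀ (t y : Γ) (q : ℕ), t * t = 1 → (t * y⁻¹ * t) ^ q = t * (y ^ q)⁻¹ * t := by
      intro t y q ht
      induction q with
      | zero => simp [ht]
      | succ q ih =>
        rw [pow_succ, ih]
        calc t * (y ^ q)⁻¹ * t * (t * y⁻¹ * t) = t * (y ^ q)⁻¹ * (t * t) * y⁻¹ * t := by group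
          _ = _ := by rw [ht, pow_succ']; group
    have step : ∀ q : ℕ, D.U j k (1 + ε X ^ q) = φ (uu 1 * vv (1 + ε X ^ q) * uu 1) := by
      intro q
      have h5' : D.x k = D.U i k 1 * (D.x i)⁻¹ * D.U i k 1 := by
        have h5'' := h5
        simp only [hbar1] at h5''
        exact h5''
      have h4' : D.x j = D.U i j 1 * (D.x i)⁻¹ * D.U i j 1 := h4
      have a1 : η ^ q * η' ^ q = 1 := by rw [← mul_pow, hηη', one_pow]
      have a2 : η' ^ q * η ^ q = 1 := by rw [← mul_pow, hη'η, one_pow]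
      have a3 : ε X ^ q = η ^ q * η ^ q := by rw [← hηsq]; ring
      rw [D.hU j k hjk, h4', h5', conjpow _ _ _ hUU, conjpow _ _ _ hVV, hinv, a3,
        ← mat_id c21 a1 a2, map_mul, map_mul, map_mul, map_mul, map_mul, h1, h2, hbar1]
    intro e
    induction e using E_ind ⟨l, hl⟩ hε hPh with
    | h0 =>
      rw [vv_zero, mul_one, ← uu_add, c21, uu_zero, map_one]
      have := D.U_add j k hjk 0 0
      rw [add_zero] at this
      exact (left_eq_mul.mp this).symm
    | h1 q => exact (step q).symm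
    | hadd a b ha hb =>
      rw [D.U_add j k hjk, ← ha, ← hb, ← map_mul]
      congr 1
      rw [vv_add]
      have g2 : uu (1 : E) * uu 1 = 1 := by rw [← uu_add, c21, uu_zero]
      calc uu 1 * (vv a * vv b) * uu 1 = uu 1 * vv a * 1 * vv b * uu 1 := by group
        _ = uu 1 * vv a * (uu 1 * uu 1) * vv b * uu 1 := by rw [g2]
        _ = _ := by group
  · have h5'' := h5
    simp only [hbar1] at h5''
    exact h5''

end Pool.Agent.Helper35.YG
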