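import Mathlib
import Pool.Agent.Helper35.YG.Triple

set_option autoImplicit false

open Polynomial

namespace Pool.Agent.Helper35.YG

/-- the ring `F_2[X]/(1 + X + ... + X^(n-1))` -/
abbrev RQ (n : ℕ) : Type := P ⧸ Ideal.span {Ph n}

lemma Ph_ne_zero {n : ℕ} (hn : 0 < n) : Ph n ≠ 0 := by
  intro h
  have := Ph_mul n
  rw [h, mul_zero] at this
  have h7 := (monic_X_pow_add_C (1 : ZMod 2) hn.ne').ne_zero
  apply h7
  rw [map_one]; exact this.symm

lemma RQ_finite {n : ℕ} (hn : 0 < n) : Finite (RQ n) := finite_adjoin (Ph_ne_zero hn)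

lemma pairU {n : ℕ} (hn : Odd n) {G : Type*} [Group G] {a b : G} (ha : a ^ n = 1)
    (hb : b ^ n = 1) (h : ∀ k : ℤ, (a ^ k * b ^ k) * (a ^ k * b ^ k) = 1) :
    ∃ U : RQ n → G, (∀ e f, U (e + f) = U e * U f) ∧
      ∀ k : ℕ, U (1 + (Ideal.Quotient.mk (Ideal.span {Ph n}) X) ^ k) = a ^ k * b ^ k := by
  let u : ℤ → G := fun k => a ^ k * b ^ k
  have hu2 : ∀ k, u k * u k = 1 := h
  have huinv : ∀ k, (u k)⁻¹ = u k := fun k => inv_eq_of_mul_eq_one_left (hu2 k)
  have hconj : ∀ j k, a ^ j * u k * (a ^ j)⁻¹ = u (j + k) * u j := by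
    intro j k
    rw [← huinv j]
    simp only [u, zpow_add]
    rw [← zpow_add b j k, add_comm j k, zpow_add b k j]
    group
  have hcomm : ∀ i j, u i * u j = u j * u i := by
    have h1 : ∀ j k, u (j + k) * u j = u j * u (j + k) := by
      intro j k
      have h2 : (u (j + k) * u j) * (u (j + k) * u j) = 1 := by
        rw [← hconj]
        calc _ = a ^ j * (u k * u k) * (a ^ j)⁻¹ := by group
          _ = 1 := by rw [hu2]; group
      have h3 : u (j + k) * u j = (u (j + k) * u j)⁻¹ := eq_inv_of_mul_eq_one_left h2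
      rw [h3, mul_inv_rev, huinv, huinv]
    intro i j
    have := h1 j (i - j)
    rwa [show j + (i - j) = i by ring] at this
  obtain ⟨W, hW, hWX⟩ := mkU (fun k : ℕ => u k) (fun i j => hcomm i j) (fun i => hu2 i)
  have hW0 : W 0 = 1 := by
    have := hW 0 0
    rw [add_zero] at this
    exact left_eq_mul.mp this
  have hWW : ∀ f, W f * W f = 1 := by
    intro f
    rw [← hW, P_add_self, hW0]
  have hWn : ∀ f, W ((X ^ n + 1) * f) = 1 := by
    intro f
    induction f using P_induction with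
    | h0 => rw [mul_zero, hW0]
    | hX k =>
      have e : (X ^ n + 1) * X ^ k = X ^ (n + k) + (X ^ k : P) := by ring
      rw [e, hW, hWX, hWX]
      have e2 : u ((n + k : ℕ) : ℤ) = u (k : ℤ) := by
        simp only [u]
        rw [zpow_natCast, zpow_natCast, zpow_natCast, zpow_natCast, pow_add, pow_add, ha, hb,
          one_mul, one_mul]
      rw [e2]
      exact hu2 _
    | hadd f g hf hg => rw [mul_add, hW, hf, hg, one_mul]
  obtain ⟨κ, hκ⟩ := exists_kappa hn
  have hkey : ∀ f g : P, Ideal.Quotient.mk (Ideal.span {Ph n}) f =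
      Ideal.Quotient.mk (Ideal.span {Ph n}) g → W ((1 + X) * κ * f) = W ((1 + X) * κ * g) := by
    intro f g hfg
    have h1 : f - g ∈ Ideal.span {Ph n} := Ideal.Quotient.eq.mp hfg
    obtain ⟨q, hq⟩ := Ideal.mem_span_singleton.mp h1
    have e1 : (1 + X) * κ * f + (1 + X) * κ * g = (X ^ n + 1) * (κ * q) := by
      rw [← Ph_mul]
      linear_combination ((1 + X) * κ) * hq + ((1 + X) * κ * g) * P_two
    have h2 : W ((1 + X) * κ * f) * W ((1 + X) * κ * g) = 1 := by rw [← hW, e1, hWn]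
    have h3 := hWW ((1 + X) * κ * g)
    rw [← h3] at h2
    exact mul_right_cancel h2
  refine ⟨fun e => W ((1 + X) * κ * e.out), ?_, ?_⟩
  · intro e f
    change W _ = W _ * W _
    rw [← hW, ← mul_add]
    apply hkey
    rw [map_add]
    have h1 : ∀ e : RQ n, Ideal.Quotient.mk (Ideal.span {Ph n}) e.out = e := fun e =>
      Quotient.out_eq e
    rw [h1, h1, h1]
  · intro k
    have h1 : ∀ e : RQ n, Ideal.Quotient.mk (Ideal.span {Ph n}) e.out = e := fun e =>
      Quotient.out_eq e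
    change W _ = _
    rw [hkey _ (1 + X ^ k) (by rw [h1, map_add, map_one, map_pow])]
    have h2 : (1 + X : P) ∣ 1 + X ^ k := by
      have := sub_dvd_pow_sub_pow (X : P) 1 k
      rw [one_pow, P_sub, P_sub] at this
      rwa [add_comm 1 X, add_comm 1 (X ^ k)]
    obtain ⟨q, hq⟩ := h2
    have e1 : (1 + X) * κ * (1 + X ^ k) = (1 + X ^ k) + (X ^ n + 1) * q := by
      rw [← Ph_mul]
      linear_combination (1 + X ^ k) * hκ + Ph n * hq - (1 + X ^ k) * P_two
    rw [e1, hW, hWn, mul_one, hW]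
    have h3 := hWX 0
    rw [pow_zero] at h3
    rw [h3, hWX]
    simp only [u]
    rw [Nat.cast_zero, zpow_zero, zpow_zero, one_mul, one_mul, zpow_natCast, zpow_natCast]

theorem exists_YE {n m : ℕ} (hn : Odd n) : ∃ (E : Type) (_ : CommRing E) (_ : Finite E)
    (ε : P →+* E) (bar : E →+* E), Function.Surjective ε ∧ ε (Ph n) = 0 ∧
      bar (ε X) = ε X ^ (n - 1) ∧ ∃ D : YE n m E (Y m n) ε, D.x = gen m n := by
  obtain ⟨ε, hε⟩ : ∃ ε : P →+* RQ n, ε = Ideal.Quotient.mk (Ideal.span {Ph n}) := ⟨_, rfl⟩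
  have hsurj : Function.Surjective ε := by rw [hε]; exact Ideal.Quotient.mk_surjective
  have hPh : ε (Ph n) = 0 := by
    rw [hε]
    exact Ideal.Quotient.eq_zero_iff_mem.mpr (Ideal.mem_span_singleton_self _)
  have hζn : ε X ^ n = 1 := by
    have := ε_dvd ε hPh (f := X ^ n) (g := 1) (Ph_dvd n)
    rwa [map_pow, map_one] at this
  let g : P →+* RQ n := Polynomial.eval₂RingHom (ε.comp C) (ε X ^ (n - 1))
  have hgX : g X = ε X ^ (n - 1) := by
    change Polynomial.eval₂ _ _ _ = _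
    rw [Polynomial.eval₂_X]
  have hgPh : g (Ph n) = 0 := by
    have hPh' : ε (∑ i ∈ Finset.range n, (X : P) ^ i) = 0 := hPh
    change g (∑ i ∈ Finset.range n, (X : P) ^ i) = 0
    rw [map_sum] at hPh' ⊢
    rw [← Finset.sum_range_reflect] at hPh'
    have : ∑ x ∈ Finset.range n, g (X ^ x) = ε X * ∑ j ∈ Finset.range n, ε (X ^ (n - 1 - j)) := by
      rw [Finset.mul_sum]
      apply Finset.sum_congr rfl
      intro j hj
      have hj' : j < n := Finset.mem_range.mp hj
      rw [map_pow, map_pow, hgX, ← pow_mul, ← pow_succ']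
      have e1 : ε X ^ ((n - 1) * j) * ε X ^ j = 1 := by
        rw [← pow_add]
        have : (n - 1) * j + j = n * j := by
          obtain ⟨l, rfl⟩ := hn
          rw [Nat.add_sub_cancel]; ring
        rw [this, pow_mul, hζn, one_pow]
      have e2 : ε X ^ (n - 1 - j + 1) * ε X ^ j = 1 := by
        rw [← pow_add, show n - 1 - j + 1 + j = n by omega, hζn]
      calc ε X ^ ((n - 1) * j) = ε X ^ ((n - 1) * j) * (ε X ^ (n - 1 - j + 1) * ε X ^ j) := by
            rw [e2, mul_one]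
        _ = (ε X ^ ((n - 1) * j) * ε X ^ j) * ε X ^ (n - 1 - j + 1) := by ring
        _ = _ := by rw [e1, one_mul]
    rw [this, hPh', mul_zero]
  let bar : RQ n →+* RQ n := Ideal.Quotient.lift (Ideal.span {Ph n}) g (by
    intro f hf
    obtain ⟨q, rfl⟩ := Ideal.mem_span_singleton.mp hf
    rw [map_mul, hgPh, zero_mul])
  have hrel := yrel_gen (m := m) hn.pos
  have hU : ∀ i j : Fin m, ∃ U : RQ n → Y m n, i ≠ j → (∀ e f, U (e + f) = U e * U f) ∧
      ∀ k : ℕ, U (1 + (Ideal.Quotient.mk (Ideal.span {Ph n}) X) ^ k) =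
        gen m n i ^ k * gen m n j ^ k := by
    intro i j
    by_cases hij : i = j
    · exact ⟨fun _ => 1, fun h => absurd hij h⟩
    · obtain ⟨U, hU⟩ := pairU hn (hrel.pow i) (hrel.pow j) (hrel.rel i j hij)
      exact ⟨U, fun _ => hU⟩
  choose U hU using hU
  refine ⟨RQ n, inferInstance, RQ_finite hn.pos, ε, bar, hsurj, hPh, ?_, ?_⟩
  · have : bar (ε X) = g X := by rw [hε]; exact Ideal.Quotient.lift_mk _ _ _
    rw [this, hgX]
  · refine ⟨⟨gen m n, hrel, U, fun i j hij => (hU i j hij).1, fun i j hij k => ?_⟩, rfl⟩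
    rw [hε]
    exact (hU i j hij).2 k

end Pool.Agent.Helper35.YG
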