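import Mathlib
import Pool.Agent.Helper35.YG.Dbl2

set_option autoImplicit false

namespace Pool.Agent.Helper35.YG

theorem all_of_odd (h : ∀ n : ℕ, Odd n → ∀ m : ℕ, Finite (Y m n)) :
    ∀ m n : ℕ, 1 ≤ n → Finite (Y m n) := by
  intro m n hn
  obtain ⟨k, l, hl, rfl⟩ := Nat.exists_eq_two_pow_mul_odd (by omega : n ≠ 0)
  exact two_pow_mul_finite hl.pos (h l hl m) k

end Pool.Agent.Helper35.YG
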