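import Mathlib
import Pool.Agent.Helper35.YG.Model

set_option autoImplicit false

namespace Pool.Agent.Helper35.YG

/-- one step of the induction: a group generated by a subgroup `H` fixing a point `o` and an
involution `s` -/
theorem grp_step {A V : Type*} [Group A] (act : A → V → V) (act_one : ∀ v, act 1 v = v)
    (act_mul : ∀ a b v, act (a * b) v = act a (act b v)) (X : Set V) (Adj : V → V → Prop)
    (Spec : V → V → V → Prop) (H : Subgroup A) (s t : A) (o : V)
    (hgen : Subgroup.closure ((H : Set A) ∪ {s}) = ⊤)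
    (hX : ∀ g, ∀ x ∈ X, act g x ∈ X)
    (hAdj : ∀ g, ∀ x y, Adj x y → Adj (act g x) (act g y))
    (hSpec : ∀ g, ∀ x y z, Spec x y z → Spec (act g x) (act g y) (act g z))
    (ho : o ∈ X) (hHo : ∀ h ∈ H, act h o = o)
    (hss : s * s = 1) (hos : Adj o (act s o))
    (hT : ∀ v ∈ X, Adj o v → ∃ h ∈ H, act h (act s o) = v)
    (hS : ∀ h ∈ H, act h (act s o) = act s o → Commute h s)
    (ht : t ∈ H) (hst : s * t * s = t * s * t)
    (hLT : ∀ v ∈ X, Adj o v → Adj (act s o) v → ¬ Spec (act s o) o v →
      ∃ l ∈ H, act l (act s o) = act s o ∧ act l (act t (act s o)) = v)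
    (hSC : ∀ (R : A ⧸ H → A ⧸ H → Prop) (π : A ⧸ H → V), Cover' X Adj Spec R π →
      Function.Injective π)
    (hfin : X.Finite) (hHfin : Finite H)
    (hconn : ∀ y ∈ X, ∀ z ∈ X, Relation.ReflTransGen (fun a b => b ∈ X ∧ Adj a b) y z) :
    (∀ g, act g o = o → g ∈ H) ∧ (∀ v ∈ X, ∃ g, act g o = v) ∧ Finite A := by
  have act_inv : ∀ g v, act g⁻¹ (act g v) = v := by
    intro g v
    rw [← act_mul, inv_mul_cancel, act_one]
  have act_inv' : ∀ g v, act g (act g⁻¹ v) = v := by
    intro g v
    rw [← act_mul, mul_inv_cancel, act_one]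
  have hAdj' : ∀ g x y, Adj (act g x) (act g y) → Adj x y := by
    intro g x y h
    have := hAdj g⁻¹ _ _ h
    rwa [act_inv, act_inv] at this
  have sinv : s⁻¹ = s := inv_eq_of_mul_eq_one_left hss
  -- the set `H s H`
  let D : Set A := {g | ∃ h ∈ H, ∃ h' ∈ H, g = h * s * h'}
  have Dinv : ∀ g ∈ D, g⁻¹ ∈ D := by
    rintro g ⟨h, hh, h', hh', rfl⟩
    exact ⟨h'⁻¹, H.inv_mem hh', h⁻¹, H.inv_mem hh, by
      rw [mul_inv_rev, mul_inv_rev, sinv, mul_assoc]⟩
  have Dl : ∀ h ∈ H, ∀ g ∈ D, h * g ∈ D := by
    rintro k hk g ⟨h, hh, h', hh', rfl⟩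
    exact ⟨k * h, H.mul_mem hk hh, h', hh', by group⟩
  have Dr : ∀ h ∈ H, ∀ g ∈ D, g * h ∈ D := by
    rintro k hk g ⟨h, hh, h', hh', rfl⟩
    exact ⟨h, hh, h' * k, H.mul_mem hh' hk, by group⟩
  let R : A ⧸ H → A ⧸ H → Prop := fun a b => ∃ g g' : A, a = (g : A ⧸ H) ∧ b = (g' : A ⧸ H) ∧
    g⁻¹ * g' ∈ D
  have Riff : ∀ g g' : A, R (g : A ⧸ H) (g' : A ⧸ H) ↔ g⁻¹ * g' ∈ D := by
    intro g g'
    constructor
    · rintro ⟨k, k', h1, h2, h3⟩
      have h1' := QuotientGroup.eq.mp h1
      have h2' := QuotientGroup.eq.mp h2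
      have e : g⁻¹ * g' = (g⁻¹ * k) * (k⁻¹ * k') * (g'⁻¹ * k')⁻¹ := by group
      rw [e]
      exact Dr _ (H.inv_mem h2') _ (Dl _ h1' _ h3)
    · intro h
      exact ⟨g, g', rfl, rfl, h⟩
  let π : A ⧸ H → V := Quotient.lift (s := QuotientGroup.leftRel H) (fun g => act g o) (by
    intro a b hab
    have h1 : a⁻¹ * b ∈ H := QuotientGroup.leftRel_apply.mp hab
    change act a o = act b o
    have e : b = a * (a⁻¹ * b) := by group
    rw [e, act_mul, hHo _ h1])
  have πmk : ∀ g : A, π (g : A ⧸ H) = act g o := fun g => rfl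
  have Rtr : ∀ g a b : A, R (a : A ⧸ H) (b : A ⧸ H) ↔ R ((g * a : A) : A ⧸ H) ((g * b : A) : A ⧸ H) := by
    intro g a b
    rw [Riff, Riff]
    have : (g * a)⁻¹ * (g * b) = a⁻¹ * b := by group
    rw [this]
  have Rsymm : ∀ a b, R a b → R b a := by
    rintro a b ⟨g, g', rfl, rfl, h⟩
    refine ⟨g', g, rfl, rfl, ?_⟩
    have := Dinv _ h
    rwa [mul_inv_rev, inv_inv] at this
  -- uniqueness at the base point
  have uniq0 : ∀ g ∈ D, ∀ g' ∈ D, act g o = act g' o → (g : A ⧸ H) = (g' : A ⧸ H) := by
    rintro g ⟨h, hh, h', hh', rfl⟩ g' ⟨k, hk, k', hk', rfl⟩ he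
    rw [act_mul, act_mul, hHo _ hh', act_mul, act_mul, hHo _ hk'] at he
    have h1 : act (k⁻¹ * h) (act s o) = act s o := by
      rw [act_mul, he, act_inv]
    have h2 := hS _ (H.mul_mem (H.inv_mem hk) hh) h1
    rw [QuotientGroup.eq]
    have e : (h * s * h')⁻¹ * (k * s * k') = h'⁻¹ * (s⁻¹ * (k⁻¹ * h)⁻¹ * s) * k' := by group
    have e2 : s⁻¹ * (k⁻¹ * h)⁻¹ * s = (k⁻¹ * h)⁻¹ := by
      have h3 := h2.inv_left
      rw [mul_assoc, h3.eq, ← mul_assoc, inv_mul_cancel, one_mul]
    rw [e, e2]
    exact H.mul_mem (H.mul_mem (H.inv_mem hh') (H.inv_mem (H.mul_mem (H.inv_mem hk) hh))) hk'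
  have hcov : Cover' X Adj Spec R π := by
    refine ⟨?_, Rsymm, ?_, ?_, ?_, ?_, ?_⟩
    · intro ω
      induction ω using QuotientGroup.induction_on with
      | H g => exact hX g o ho
    · rintro a b ⟨g, g', rfl, rfl, h, hh, h', hh', he⟩
      rw [πmk, πmk]
      have e : g' = g * (h * s * h') := by rw [← he]; group
      rw [e, act_mul g]
      apply hAdj
      rw [act_mul, act_mul, hHo _ hh']
      have := hAdj h _ _ hos
      rwa [hHo _ hh] at this
    · intro ω v hv hadj
      induction ω using QuotientGroup.induction_on with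
      | H g =>
        rw [πmk] at hadj
        have h1 : Adj o (act g⁻¹ v) := by
          have := hAdj g⁻¹ _ _ hadj
          rwa [act_inv] at this
        obtain ⟨h, hh, he⟩ := hT _ (hX _ _ hv) h1
        refine ⟨((g * (h * s) : A) : A ⧸ H), ?_, ?_⟩
        · rw [Riff]
          exact ⟨h, hh, 1, H.one_mem, by group⟩
        · rw [πmk, act_mul, act_mul, he, act_inv']
    · intro ω ω₁ ω₂ h1 h2 he
      induction ω using QuotientGroup.induction_on with
      | H g =>
      induction ω₁ using QuotientGroup.induction_on with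
      | H g₁ =>
      induction ω₂ using QuotientGroup.induction_on with
      | H g₂ =>
      rw [Riff] at h1 h2
      rw [πmk, πmk] at he
      have h3 := uniq0 _ h1 _ h2 (by rw [act_mul, act_mul, he])
      rw [QuotientGroup.eq] at h3 ⊢
      have e : (g⁻¹ * g₁)⁻¹ * (g⁻¹ * g₂) = g₁⁻¹ * g₂ := by group
      rwa [e] at h3
    · intro ω ω₁ ω₂ h1 h2 hadj hns
      induction ω using QuotientGroup.induction_on with
      | H g =>
      induction ω₁ using QuotientGroup.induction_on with
      | H g₁ =>
      induction ω₂ using QuotientGroup.induction_on with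
      | H g₂ =>
      rw [πmk, πmk] at hadj
      rw [πmk, πmk, πmk] at hns
      have h1' := Rsymm _ _ h1
      rw [Riff] at h1' h2
      obtain ⟨h, hh, h', hh', he⟩ := h1'
      -- translate by `(g₁ h)⁻¹`
      set y := (g₁ * h)⁻¹ with hy
      have hyg : y * g = s * h' := by
        rw [hy]
        calc (g₁ * h)⁻¹ * g = h⁻¹ * (g₁⁻¹ * g) := by group
          _ = s * h' := by rw [he]; group
      have hyg₁ : y * g₁ = h⁻¹ := by rw [hy]; group
      have hy2 : y * g₂ ∈ D := by
        have e : y * g₂ = h⁻¹ * (g₁⁻¹ * g₂) := by rw [hy]; group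
        rw [e]
        exact Dl _ (H.inv_mem hh) _ h2
      have a1 : act y (act g o) = act s o := by
        rw [← act_mul, hyg, act_mul, hHo _ hh']
      have a2 : act y (act g₁ o) = o := by
        rw [← act_mul, hyg₁, hHo _ (H.inv_mem hh)]
      have a3 : Adj (act s o) (act (y * g₂) o) := by
        have := hAdj y _ _ hadj
        rwa [a1, ← act_mul] at this
      have a4 : Adj o (act (y * g₂) o) := by
        obtain ⟨k, hk, k', hk', hke⟩ := hy2
        rw [hke, act_mul, act_mul, hHo _ hk']
        have := hAdj k _ _ hos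
        rwa [hHo _ hk] at this
      have a5 : ¬ Spec (act s o) o (act (y * g₂) o) := by
        intro hsp
        apply hns
        have := hSpec y⁻¹ _ _ _ hsp
        rw [← a1, act_inv, ← act_mul, inv_mul_cancel_left] at this
        have e : act y⁻¹ o = act g₁ o := by
          rw [← a2, act_inv, a2]
        rwa [e] at this
      obtain ⟨l, hl, hl1, hl2⟩ := hLT _ (hX _ _ ho) a4 a3 a5
      have hlt : (((y * g₂ : A) : A ⧸ H)) = ((l * t * s : A) : A ⧸ H) := by
        apply uniq0 _ hy2 _ ⟨l * t, H.mul_mem hl ht, 1, H.one_mem, by group⟩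
        rw [← hl2, act_mul (l * t), act_mul l]
      have hls := hS l hl hl1
      rw [Rtr y, hlt]
      have e1 : (((y * g : A) : A ⧸ H)) = ((l * s : A) : A ⧸ H) := by
        rw [hyg, QuotientGroup.eq, hls.eq]
        have : (s * h')⁻¹ * (s * l) = h'⁻¹ * l := by group
        rw [this]
        exact H.mul_mem (H.inv_mem hh') hl
      rw [e1, Riff]
      refine ⟨t, ht, t, ht, ?_⟩
      rw [← hst]
      calc (l * s)⁻¹ * (l * t * s) = s⁻¹ * t * s := by group
        _ = s * t * s := by rw [sinv]
    · -- connectedness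
      have base : ∀ g : A, Relation.ReflTransGen R ((1 : A) : A ⧸ H) (g : A ⧸ H) := by
        intro g
        have hg : g ∈ Subgroup.closure ((H : Set A) ∪ {s}) := by rw [hgen]; trivial
        induction hg using Subgroup.closure_induction_right with
        | one => exact Relation.ReflTransGen.refl
        | mul_right x _ y hy ih =>
          rcases hy with hy | hy
          · have : (((x * y : A) : A ⧸ H)) = (x : A ⧸ H) := by
              rw [QuotientGroup.eq]
              have e : (x * y)⁻¹ * x = y⁻¹ := by group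
              rw [e]; exact H.inv_mem hy
            rw [this]; exact ih
          · rw [Set.mem_singleton_iff] at hy
            subst hy
            refine ih.tail ?_
            rw [Riff]
            exact ⟨1, H.one_mem, 1, H.one_mem, by group⟩
        | mul_inv_cancel x _ y hy ih =>
          rcases hy with hy | hy
          · have : (((x * y⁻¹ : A) : A ⧸ H)) = (x : A ⧸ H) := by
              rw [QuotientGroup.eq]
              have e : (x * y⁻¹)⁻¹ * x = y := by group
              rw [e]; exact hy
            rw [this]; exact ih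
          · rw [Set.mem_singleton_iff] at hy
            subst hy
            refine ih.tail ?_
            rw [Riff]
            exact ⟨1, H.one_mem, 1, H.one_mem, by rw [sinv]; group⟩
      have hsym : ∀ a b, Relation.ReflTransGen R a b → Relation.ReflTransGen R b a := by
        intro a b h
        induction h with
        | refl => exact Relation.ReflTransGen.refl
        | tail _ h ih => exact (Relation.ReflTransGen.single (Rsymm _ _ h)).trans ih
      intro ω ω'
      induction ω using QuotientGroup.induction_on with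
      | H g =>
      induction ω' using QuotientGroup.induction_on with
      | H g' =>
        exact (hsym _ _ (base g)).trans (base g')
  have hinj := hSC R π hcov
  have hfinΩ : Finite (A ⧸ H) := by
    have : Finite X := hfin
    exact Finite.of_injective (fun ω => (⟨π ω, hcov.mem ω⟩ : X))
      (fun a b h => hinj (congrArg Subtype.val h))
  refine ⟨?_, ?_, ?_⟩
  · intro g hg
    have h1 : π (g : A ⧸ H) = π ((1 : A) : A ⧸ H) := by rw [πmk, πmk, hg, act_one]
    have h2 := hinj h1
    rw [QuotientGroup.eq] at h2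
    have := H.inv_mem h2
    rwa [mul_one, inv_inv] at this
  · intro v hv
    have h1 := hconn o ho v hv
    clear hv
    induction h1 with
    | refl => exact ⟨1, act_one o⟩
    | @tail b c _ hbc ih =>
      obtain ⟨g, hg⟩ := ih
      obtain ⟨ω', h1, h2⟩ := hcov.lift (g : A ⧸ H) c hbc.1 (by rw [πmk, hg]; exact hbc.2)
      induction ω' using QuotientGroup.induction_on with
      | H g' => exact ⟨g', h2⟩
  · exact Finite.of_equiv _ (Subgroup.groupEquivQuotientProdSubgroup (s := H)).symm

end Pool.Agent.Helper35.YG
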