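import Mathlib
import Pool.Agent.Helper35.YG.GrpCover

set_option autoImplicit false

open Matrix

namespace Pool.Agent.Helper35.YG

/-- the data and relations of the main theorem, together with an action on the model space -/
structure MF {F E : Type} [Field F] [CommRing E] [Algebra F E] (q : QE F E) (K : ℕ) (A : Type)
    [Group A] where
  h2 : (2 : E) = 0
  φ : SpecialLinearGroup (Fin 2) E →* A
  τ : A
  s : ℕ → A
  act : A →* (QE.W F E ≃ₗ[F] QE.W F E)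
  hτ : τ * τ = 1
  hφτ : ∀ g, τ * φ g * τ = φ (q.barSL g)
  hs : ∀ j, j < K → s j * s j = 1
  hsτ : ∀ j, j < K → Commute (s j) τ
  hsu : ∀ j, j < K → ∀ e, Commute (s j) (φ (uu e))
  htor : ∀ ξ (h : ξ * q.bar ξ = 1), 0 < K → Commute (s 0) (φ (dd ξ (q.bar ξ) h))
  hsφ : ∀ j, j < K → 1 ≤ j → ∀ g, Commute (s j) (φ g)
  hfar : ∀ i j, j < K → i + 2 ≤ j → Commute (s i) (s j)
  hbr : ∀ j, j + 1 < K → s j * s (j + 1) * s j = s (j + 1) * s j * s (j + 1)
  hbr0 : 0 < K → s 0 * (φ (JJ h2) * τ) * s 0 = (φ (JJ h2) * τ) * s 0 * (φ (JJ h2) * τ)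
  mXφ : ∀ i, i < K → ∀ y ∈ q.XX (K + 2) i, ∀ g, act (φ g) y ∈ q.XX (K + 2) i
  mXτ : ∀ i, i < K → ∀ y ∈ q.XX (K + 2) i, act τ y ∈ q.XX (K + 2) i
  mXs : ∀ i, i < K → ∀ y ∈ q.XX (K + 2) i, ∀ j, j ≤ i → act (s j) y ∈ q.XX (K + 2) i
  mBφ : ∀ g y z, q.BM (K + 2) (act (φ g) y) (act (φ g) z) = q.BM (K + 2) y z
  mBτ : ∀ y z, q.BM (K + 2) (act τ y) (act τ z) = q.BM (K + 2) y z
  mBs : ∀ j, j < K → ∀ y z, q.BM (K + 2) (act (s j) y) (act (s j) z) = q.BM (K + 2) y z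
  m1φ : ∀ i, Even i → i < K + 1 → ∀ g, act (φ g) (QE.ones F E i) = QE.ones F E i
  m1τ : ∀ i, Even i → i < K + 1 → act τ (QE.ones F E i) = QE.ones F E i
  m1s : ∀ i, Even i → i < K + 1 → ∀ j, j ≤ i → j < K → act (s j) (QE.ones F E i) = QE.ones F E i
  moφ : ∀ i, i < K → ∀ g, act (φ g) (QE.oo F E i) = QE.oo F E i
  moτ : ∀ i, i < K → act τ (QE.oo F E i) = QE.oo F E i
  mos : ∀ i, i < K → ∀ j, j < i → act (s j) (QE.oo F E i) = QE.oo F E i
  m6 : ∀ j, j + 1 < K → act (s (j + 1)) (QE.oo F E (j + 1)) = QE.oo F E (j + 1) + QE.oo F E j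
  m60 : 0 < K → act (s 0) (QE.oo F E 0) = ((1, 0, 0), Pi.single 1 1)
  m7 : 0 < K → ∀ x : F × F × E, q.Q3 x = 0 → x ≠ 0 →
    ∃ g, act (φ g) ((1, 0, 0), Pi.single 1 1) = (x, Pi.single 1 1)
  m8 : 0 < K → ∀ g, act (φ g) ((1, 0, 0), Pi.single 1 1) = ((1, 0, 0), Pi.single 1 1) →
    ∃ (ξ : E) (h : ξ * q.bar ξ = 1) (e : E), g = dd ξ (q.bar ξ) h * uu e
  m9 : 0 < K → ∀ x : F × F × E, q.Q3 x = 0 → q.B3 x (1, 0, 0) = 1 →
    ∃ e, act (φ (uu e)) ((0, 1, 0), Pi.single 1 1) = (x, Pi.single 1 1)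
  m10 : 0 < K → act (φ (JJ h2)) (act τ ((1, 0, 0), Pi.single 1 1)) = ((0, 1, 0), Pi.single 1 1)

/-- the geometric facts about the sets `XX` -/
structure Geo {F E : Type} [Field F] [CommRing E] [Algebra F E] (q : QE F E) (K : ℕ) : Prop where
  SC : ∀ i, i < K → ∀ {Ω : Type} {R : Ω → Ω → Prop} {π : Ω → QE.W F E},
    Cover' (q.XX (K + 2) i) (q.AA (K + 2) i) (QE.SS i) R π → Function.Injective π
  conn : ∀ i, i < K → ∀ y ∈ q.XX (K + 2) i, ∀ z ∈ q.XX (K + 2) i,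
    Relation.ReflTransGen (fun a b => b ∈ q.XX (K + 2) i ∧ q.AA (K + 2) i a b) y z
  fin : ∀ i, i < K → (q.XX (K + 2) i).Finite
  nb : ∀ j, j + 1 < K → ∀ y ∈ q.XX (K + 2) (j + 1), q.AA (K + 2) (j + 1) (QE.oo F E (j + 1)) y →
    ∃ z ∈ q.XX (K + 2) j, y = QE.oo F E (j + 1) + z
  nb2 : ∀ j, j + 1 < K → ∀ z ∈ q.XX (K + 2) j,
    q.AA (K + 2) (j + 1) (QE.oo F E (j + 1) + QE.oo F E j) (QE.oo F E (j + 1) + z) →
    ¬ QE.SS (j + 1) (QE.oo F E (j + 1)) (QE.oo F E (j + 1) + QE.oo F E j)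
      (QE.oo F E (j + 1) + z) → q.AA (K + 2) j (QE.oo F E j) z
  nb0 : 0 < K → ∀ y ∈ q.XX (K + 2) 0, q.AA (K + 2) 0 (QE.oo F E 0) y →
    ∃ x : F × F × E, y = (x, Pi.single 1 1) ∧ q.Q3 x = 0 ∧ x ≠ 0
  nb02 : 0 < K → ∀ x : F × F × E, q.Q3 x = 0 →
    q.AA (K + 2) 0 (((1, 0, 0) : F × F × E), Pi.single 1 1) (x, Pi.single 1 1) →
    q.B3 x (1, 0, 0) = 1
  oo_mem : ∀ i, i < K → QE.oo F E i ∈ q.XX (K + 2) i
  oo_adj0 : 0 < K → q.AA (K + 2) 0 (QE.oo F E 0) ((1, 0, 0), Pi.single 1 1)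
  oo_adj : ∀ j, j + 1 < K →
    q.AA (K + 2) (j + 1) (QE.oo F E (j + 1)) (QE.oo F E (j + 1) + QE.oo F E j)

namespace MF

variable {F E : Type} [Field F] [CommRing E] [Algebra F E] {q : QE F E} {K : ℕ} {A : Type}
    [Group A] (D : MF q K A)

/-- the chain of subgroups -/
def GG (i : ℕ) : Subgroup A :=
  Subgroup.closure (Set.range D.φ ∪ {D.τ} ∪ {g | ∃ j, j < i ∧ g = D.s j})

lemma φ_GG (i : ℕ) (g) : D.φ g ∈ D.GG i := Subgroup.subset_closure (Or.inl (Or.inl ⟨g, rfl⟩))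

lemma τ_GG (i : ℕ) : D.τ ∈ D.GG i := Subgroup.subset_closure (Or.inl (Or.inr rfl))

lemma s_GG {i j : ℕ} (h : j < i) : D.s j ∈ D.GG i := Subgroup.subset_closure (Or.inr ⟨j, h, rfl⟩)

lemma GG_mono {i j : ℕ} (h : i ≤ j) : D.GG i ≤ D.GG j := by
  apply Subgroup.closure_mono
  rintro x (hx | ⟨k, hk, rfl⟩)
  · exact Or.inl hx
  · exact Or.inr ⟨k, by omega, rfl⟩

lemma GG_ind {i : ℕ} (hi : i ≤ K) {p : A → Prop} (h1 : p 1) (hφ : ∀ g, p (D.φ g)) (hτ : p D.τ)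
    (hs : ∀ j, j < i → p (D.s j)) (hmul : ∀ a b, p a → p b → p (a * b)) :
    ∀ a ∈ D.GG i, p a := by
  intro a ha
  have h : a ∈ Submonoid.closure ((Set.range D.φ ∪ {D.τ} ∪ {g | ∃ j, j < i ∧ g = D.s j}) ∪
      (Set.range D.φ ∪ {D.τ} ∪ {g | ∃ j, j < i ∧ g = D.s j})⁻¹) := by
    rw [← Subgroup.closure_toSubmonoid]; exact ha
  have hgen : ∀ x ∈ (Set.range D.φ ∪ {D.τ} ∪ {g | ∃ j, j < i ∧ g = D.s j}), p x ∧ p x⁻¹ := by
    rintro x ((⟨g, rfl⟩ | hx) | ⟨j, hj, rfl⟩)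
    · refine ⟨hφ g, ?_⟩
      rw [← map_inv]; exact hφ _
    · rw [Set.mem_singleton_iff] at hx
      subst hx
      rw [inv_eq_of_mul_eq_one_left D.hτ]
      exact ⟨hτ, hτ⟩
    · rw [inv_eq_of_mul_eq_one_left (D.hs j (by omega))]
      exact ⟨hs j hj, hs j hj⟩
  clear ha
  induction h using Submonoid.closure_induction with
  | mem x hx =>
    rcases hx with hx | hx
    · exact (hgen x hx).1
    · have := (hgen _ hx).2
      rwa [inv_inv] at this
  | one => exact h1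
  | mul x y _ _ ihx ihy => exact hmul _ _ ihx ihy

lemma act_one (v : QE.W F E) : D.act 1 v = v := by rw [map_one]; rfl

lemma act_mul (a b : A) (v : QE.W F E) : D.act (a * b) v = D.act a (D.act b v) := by
  rw [map_mul]; rfl

lemma X_inv {i : ℕ} (hi : i < K) : ∀ a ∈ D.GG (i + 1), ∀ y ∈ q.XX (K + 2) i,
    D.act a y ∈ q.XX (K + 2) i := by
  apply D.GG_ind (i := i + 1) (by omega) (p := fun a => ∀ y ∈ q.XX (K + 2) i,
    D.act a y ∈ q.XX (K + 2) i)
  · intro y hy; rw [act_one]; exact hy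
  · intro g y hy; exact D.mXφ i hi y hy g
  · intro y hy; exact D.mXτ i hi y hy
  · intro j hj y hy; exact D.mXs i hi y hy j (by omega)
  · intro a b ha hb y hy; rw [act_mul]; exact ha _ (hb _ hy)

lemma B_inv {i : ℕ} (hi : i ≤ K) : ∀ a ∈ D.GG i, ∀ y z,
    q.BM (K + 2) (D.act a y) (D.act a z) = q.BM (K + 2) y z := by
  apply D.GG_ind hi (p := fun a => ∀ y z,
    q.BM (K + 2) (D.act a y) (D.act a z) = q.BM (K + 2) y z)
  · intro y z; rw [act_one, act_one]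
  · exact D.mBφ
  · exact D.mBτ
  · intro j hj; exact D.mBs j (by omega)
  · intro a b ha hb y z; rw [act_mul, act_mul, ha, hb]

lemma ones_inv {i k : ℕ} (hi : i ≤ K) (hk : Even k) (hk2 : k < K + 1) (hik : i ≤ k + 1) :
    ∀ a ∈ D.GG i, D.act a (QE.ones F E k) = QE.ones F E k := by
  apply D.GG_ind hi (p := fun a => D.act a (QE.ones F E k) = QE.ones F E k)
  · rw [act_one]
  · exact D.m1φ k hk hk2
  · exact D.m1τ k hk hk2
  · intro j hj; exact D.m1s k hk hk2 j (by omega) (by omega)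
  · intro a b ha hb; rw [act_mul, hb, ha]

lemma oo_inv {i k : ℕ} (hk : k < K) (hik : i ≤ k) :
    ∀ a ∈ D.GG i, D.act a (QE.oo F E k) = QE.oo F E k := by
  apply D.GG_ind (i := i) (by omega) (p := fun a => D.act a (QE.oo F E k) = QE.oo F E k)
  · rw [act_one]
  · exact D.moφ k hk
  · exact D.moτ k hk
  · intro j hj; exact D.mos k hk j (by omega)
  · intro a b ha hb; rw [act_mul, hb, ha]

lemma A_inv {i : ℕ} (hi : i < K) : ∀ a ∈ D.GG (i + 1), ∀ y z, q.AA (K + 2) i y z →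
    q.AA (K + 2) i (D.act a y) (D.act a z) := by
  intro a ha y z h
  refine ⟨?_, ?_⟩
  · rw [D.B_inv (by omega) a ha]; exact h.1
  · intro hev he
    apply h.2 hev
    rw [← map_add, ← D.ones_inv (by omega) hev (by omega) (by omega) a ha] at he
    exact (D.act a).injective he

lemma S_inv {i : ℕ} (hi : i < K) : ∀ a ∈ D.GG (i + 1), ∀ x y z, QE.SS i x y z →
    QE.SS i (D.act a x) (D.act a y) (D.act a z) := by
  intro a ha x y z h
  refine ⟨h.1, ?_⟩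
  rw [← map_add, ← map_add, h.2,
    D.ones_inv (by omega) (by have := h.1; exact this.add_one) (by omega) (by omega) a ha]

/-- the hypotheses of one step -/
structure Stage (i : ℕ) : Prop where
  fin : Finite (D.GG i)
  T : ∀ v ∈ q.XX (K + 2) i, q.AA (K + 2) i (QE.oo F E i) v →
    ∃ h ∈ D.GG i, D.act h (D.act (D.s i) (QE.oo F E i)) = v
  S : ∀ h ∈ D.GG i, D.act h (D.act (D.s i) (QE.oo F E i)) = D.act (D.s i) (QE.oo F E i) →
    Commute h (D.s i)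
  LT : ∃ t ∈ D.GG i, D.s i * t * D.s i = t * D.s i * t ∧
    ∀ v ∈ q.XX (K + 2) i, q.AA (K + 2) i (QE.oo F E i) v →
      q.AA (K + 2) i (D.act (D.s i) (QE.oo F E i)) v →
      ¬ QE.SS i (D.act (D.s i) (QE.oo F E i)) (QE.oo F E i) v →
      ∃ l ∈ D.GG i, D.act l (D.act (D.s i) (QE.oo F E i)) = D.act (D.s i) (QE.oo F E i) ∧
        D.act l (D.act t (D.act (D.s i) (QE.oo F E i))) = v

/-- the conclusions of one step -/
theorem stage_step (G : Geo q K) {i : ℕ} (hi : i < K) (h : D.Stage i) :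
    (∀ g ∈ D.GG (i + 1), D.act g (QE.oo F E i) = QE.oo F E i → g ∈ D.GG i) ∧
    (∀ v ∈ q.XX (K + 2) i, ∃ g ∈ D.GG (i + 1), D.act g (QE.oo F E i) = v) ∧
    Finite (D.GG (i + 1)) := by
  obtain ⟨t, ht, hst, hLT⟩ := h.LT
  have hle := D.GG_mono (Nat.le_succ i)
  set B := D.GG (i + 1) with hB
  have hsB : D.s i ∈ B := D.s_GG (by omega)
  have htB : t ∈ B := hle ht
  set H : Subgroup B := (D.GG i).subgroupOf B with hH
  have memH : ∀ x : B, x ∈ H ↔ (x : A) ∈ D.GG i := fun x => Subgroup.mem_subgroupOf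
  have hHfin : Finite H := by
    have := h.fin
    have e : H ≃ (D.GG i) := (Subgroup.subgroupOfEquivOfLe hle).toEquiv
    exact Finite.of_equiv _ e.symm
  have key := grp_step (A := B) (V := QE.W F E) (fun a v => D.act (a : A) v)
    (fun v => D.act_one v) (fun a b v => D.act_mul a b v) (q.XX (K + 2) i) (q.AA (K + 2) i)
    (QE.SS i) H ⟨D.s i, hsB⟩ ⟨t, htB⟩ (QE.oo F E i) ?_
    (fun a x hx => D.X_inv hi a a.2 x hx) (fun a x y hxy => D.A_inv hi a a.2 x y hxy)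
    (fun a x y z hxyz => D.S_inv hi a a.2 x y z hxyz) (G.oo_mem i hi)
    (fun a ha => D.oo_inv hi le_rfl a ((memH a).mp ha)) (Subtype.ext (D.hs i hi)) ?_ ?_ ?_
    ((memH _).mpr ht) (Subtype.ext hst) ?_ (fun R π hc => G.SC i hi hc) (G.fin i hi) hHfin
    (G.conn i hi)
  · obtain ⟨k1, k2, k3⟩ := key
    refine ⟨?_, ?_, k3⟩
    · intro g hg hgo
      exact (memH ⟨g, hg⟩).mp (k1 ⟨g, hg⟩ hgo)
    · intro v hv
      obtain ⟨g, hg⟩ := k2 v hv
      exact ⟨g, g.2, hg⟩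
  · -- generation
    rw [eq_top_iff]
    have h1 := Subgroup.closure_closure_coe_preimage
      (k := (Set.range D.φ ∪ {D.τ} ∪ {g | ∃ j, j < i + 1 ∧ g = D.s j} : Set A))
    have h2 : (Subtype.val ⁻¹' (Set.range D.φ ∪ {D.τ} ∪ {g | ∃ j, j < i + 1 ∧ g = D.s j} : Set A)
        : Set B) ⊆ (H : Set B) ∪ {⟨D.s i, hsB⟩} := by
      rintro ⟨x, hx⟩ hx'
      rcases hx' with (⟨g, hg⟩ | hx') | ⟨j, hj, hx'⟩
      · left
        change (⟨x, hx⟩ : B) ∈ H
        rw [memH]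
        change x ∈ D.GG i
        change D.φ g = x at hg
        rw [← hg]; exact D.φ_GG i g
      · left
        change (⟨x, hx⟩ : B) ∈ H
        rw [memH]
        change x ∈ D.GG i
        change x = D.τ at hx'
        rw [hx']; exact D.τ_GG i
      · change x = D.s j at hx'
        by_cases hji : j = i
        · right
          subst hji
          exact Subtype.ext hx'
        · left
          change (⟨x, hx⟩ : B) ∈ H
          rw [memH]
          change x ∈ D.GG i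
          rw [hx']; exact D.s_GG (by omega)
    have h3 := Subgroup.closure_mono h2
    exact le_trans (le_of_eq h1.symm) h3
  · -- adjacency of `o` and `s o`
    change q.AA (K + 2) i (QE.oo F E i) (D.act (D.s i) (QE.oo F E i))
    rcases i with _ | j
    · rw [D.m60 hi]; exact G.oo_adj0 hi
    · rw [D.m6 j hi]; exact G.oo_adj j hi
  · intro v hv hadj
    obtain ⟨g, hg, he⟩ := h.T v hv hadj
    exact ⟨⟨g, hle hg⟩, (memH _).mpr hg, he⟩
  · intro g hg he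
    have := h.S g ((memH g).mp hg) he
    exact Subtype.ext this
  · intro v hv h1 h2 h3
    obtain ⟨l, hl, h4, h5⟩ := hLT v hv h1 h2 h3
    exact ⟨⟨l, hle hl⟩, (memH _).mpr hl, h4, h5⟩

lemma GG0_form : ∀ a ∈ D.GG 0, ∃ g, a = D.φ g ∨ a = D.φ g * D.τ := by
  have sw : ∀ g, D.τ * D.φ g = D.φ (q.barSL g) * D.τ := by
    intro g
    rw [← D.hφτ, mul_assoc, D.hτ, mul_one]
  apply D.GG_ind (i := 0) (by omega) (p := fun a => ∃ g, a = D.φ g ∨ a = D.φ g * D.τ)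
  · exact ⟨1, Or.inl (by rw [map_one])⟩
  · intro g; exact ⟨g, Or.inl rfl⟩
  · exact ⟨1, Or.inr (by rw [map_one, one_mul])⟩
  · intro j hj; omega
  · rintro a b ⟨g, rfl | rfl⟩ ⟨g', rfl | rfl⟩
    · exact ⟨g * g', Or.inl (by rw [map_mul])⟩
    · exact ⟨g * g', Or.inr (by rw [map_mul, mul_assoc])⟩
    · exact ⟨g * q.barSL g', Or.inr (by rw [map_mul, mul_assoc, sw, mul_assoc])⟩
    · refine ⟨g * q.barSL g', Or.inl ?_⟩
      rw [map_mul]
      calc D.φ g * D.τ * (D.φ g' * D.τ) = D.φ g * (D.τ * D.φ g') * D.τ := by group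
        _ = D.φ g * D.φ (q.barSL g') * (D.τ * D.τ) := by rw [sw]; group
        _ = _ := by rw [D.hτ, mul_one]

lemma GG0_finite [Finite E] : Finite (D.GG 0) := by
  have h : (D.GG 0 : Set A) ⊆ Set.range D.φ ∪ Set.range (fun g => D.φ g * D.τ) := by
    intro a ha
    obtain ⟨g, h | h⟩ := D.GG0_form a ha
    · exact Or.inl ⟨g, h.symm⟩
    · exact Or.inr ⟨g, h.symm⟩
  have hf : Finite (SpecialLinearGroup (Fin 2) E) := by
    have : Finite (Matrix (Fin 2) (Fin 2) E) := inferInstance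
    exact Finite.of_injective (fun g => g.1) Subtype.coe_injective
  have := (Set.finite_range D.φ).union (Set.finite_range (fun g => D.φ g * D.τ))
  exact (this.subset h).to_subtype

theorem stage_zero [Finite E] (G : Geo q K) (hK : 0 < K) : D.Stage 0 := by
  have hτo : D.act D.τ ((1, 0, 0), Pi.single 1 1) = ((1, 0, 0), Pi.single 1 1) := by
    rw [← D.m60 hK, ← act_mul, ← (D.hsτ 0 hK).eq, act_mul, D.moτ 0 hK]
  refine ⟨D.GG0_finite, ?_, ?_, ?_⟩
  · intro v hv hadj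
    obtain ⟨x, rfl, h1, h2⟩ := G.nb0 hK v hv hadj
    obtain ⟨g, hg⟩ := D.m7 hK x h1 h2
    exact ⟨D.φ g, D.φ_GG 0 g, by rw [D.m60 hK]; exact hg⟩
  · intro h hh he
    rw [D.m60 hK] at he
    have key : ∀ g, D.act (D.φ g) ((1, 0, 0), Pi.single 1 1) = ((1, 0, 0), Pi.single 1 1) →
        Commute (D.φ g) (D.s 0) := by
      intro g hg
      obtain ⟨ξ, hξ, e, rfl⟩ := D.m8 hK g hg
      rw [map_mul]
      exact ((D.htor ξ hξ hK).symm).mul_left (D.hsu 0 hK e).symm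
    obtain ⟨g, rfl | rfl⟩ := D.GG0_form h hh
    · exact key g he
    · rw [act_mul, hτo] at he
      exact (key g he).mul_left (D.hsτ 0 hK).symm
  · refine ⟨D.φ (JJ D.h2) * D.τ, (D.GG 0).mul_mem (D.φ_GG 0 _) (D.τ_GG 0), D.hbr0 hK, ?_⟩
    intro v hv h1 h2 _
    obtain ⟨x, rfl, h3, -⟩ := G.nb0 hK v hv h1
    rw [D.m60 hK] at h2
    obtain ⟨e, he⟩ := D.m9 hK x h3 (G.nb02 hK x h3 h2)
    refine ⟨D.φ (uu e), D.φ_GG 0 _, ?_, ?_⟩
    · rw [← act_mul, ← (D.hsu 0 hK e).eq, act_mul, D.moφ 0 hK]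
    · rw [D.m60 hK, act_mul, D.m10 hK, he]

theorem stage_succ (G : Geo q K) {j : ℕ} (hj : j + 1 < K) (h : D.Stage j) : D.Stage (j + 1) := by
  obtain ⟨k1, k2, k3⟩ := D.stage_step G (by omega) h
  refine ⟨k3, ?_, ?_, ?_⟩
  · intro v hv hadj
    obtain ⟨z, hz, rfl⟩ := G.nb j hj v hv hadj
    obtain ⟨g, hg, he⟩ := k2 z hz
    refine ⟨g, hg, ?_⟩
    rw [D.m6 j hj, map_add, he, D.oo_inv hj le_rfl g hg]
  · intro g hg he
    rw [D.m6 j hj, map_add, D.oo_inv hj le_rfl g hg] at he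
    have h1 := k1 g hg (add_left_cancel he)
    apply D.GG_ind (i := j) (by omega) (p := fun a => Commute a (D.s (j + 1))) ?_ ?_ ?_ ?_ ?_ g h1
    · exact Commute.one_left _
    · intro g; exact (D.hsφ (j + 1) hj (by omega) g).symm
    · exact (D.hsτ (j + 1) hj).symm
    · intro k hk; exact D.hfar k (j + 1) hj (by omega)
    · intro a b ha hb; exact ha.mul_left hb
  · refine ⟨D.s j, D.s_GG (by omega), (D.hbr j hj).symm, ?_⟩
    intro v hv h1 h2 h3
    obtain ⟨z, hz, rfl⟩ := G.nb j hj v hv h1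
    rw [D.m6 j hj] at h2 h3
    have h4 := G.nb2 j hj z hz h2 (by
      rintro ⟨h5, h6⟩
      apply h3
      refine ⟨h5, ?_⟩
      rw [← h6]; abel)
    obtain ⟨l, hl, he⟩ := h.T z hz h4
    have hlo := D.oo_inv (i := j) hj (by omega) l hl
    have hlo' := D.oo_inv (i := j) (k := j) (by omega) (by omega) l hl
    refine ⟨l, D.GG_mono (Nat.le_succ j) hl, ?_, ?_⟩
    · rw [D.m6 j hj, map_add, hlo, hlo']
    · rw [D.m6 j hj, map_add, map_add, D.mos (j + 1) hj j (by omega), hlo, he]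

theorem finite_GG [Finite E] (G : Geo q K) : Finite (D.GG K) := by
  rcases Nat.eq_zero_or_pos K with rfl | hK
  · exact D.GG0_finite
  · have key : ∀ i, i < K → D.Stage i := by
      intro i
      induction i with
      | zero => intro _; exact D.stage_zero G hK
      | succ i ih => intro hi; exact D.stage_succ G hi (ih (by omega))
    obtain ⟨i, rfl⟩ : ∃ i, K = i + 1 := ⟨K - 1, by omega⟩
    exact (D.stage_step G (by omega) (key i (by omega))).2.2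

end MF

end Pool.Agent.Helper35.YG
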