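import Mathlib
import Pool.Agent.Helper35.YG.MF
import Pool.Agent.Helper37.YGmodel

set_option autoImplicit false

namespace Pool.Agent.Helper35.YG

open Pool.Agent.Helper37.YGm

section

variable {F E : Type*} [Field F] [CommRing E] [Algebra F E] [Nontrivial E] [CharP F 2]
  (q : QE F E)

lemma W_ext {x y : QE.W F E} (h1 : x.1 = y.1) (h2 : ∀ k, x.2 k = y.2 k) : x = y :=
  Prod.ext h1 (funext h2)

lemma F_add_self (a : F) : a + a = 0 := CharTwo.add_self_eq_zero a

omit [Algebra F E] [Nontrivial E] [CharP F 2] in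
lemma ones_fst (i : ℕ) : (QE.ones F E i).1 = 0 := rfl

omit [Algebra F E] [Nontrivial E] [CharP F 2] in
lemma ones_snd (i k : ℕ) : (QE.ones F E i).2 k = if k ≤ i then 1 else 0 := rfl

omit [Algebra F E] [Nontrivial E] [CharP F 2] in
lemma oo_ne_ones {j : ℕ} (hj : 0 < j) (k : ℕ) : QE.oo F E j ≠ QE.ones F E k := by
  intro h
  have := congrArg (fun y : QE.W F E => y.2 0) h
  simp only [oo_snd, ones_snd] at this
  rw [if_neg (by omega), if_neg (by omega), if_pos (by omega)] at this
  simp at this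

lemma oo_add_ones (j : ℕ) : QE.oo F E (j + 1) + QE.ones F E j = QE.ones F E (j + 2) := by
  apply W_ext
  · rw [Prod.fst_add, oo_fst, ones_fst, ones_fst, add_zero]
  · intro k
    rw [Prod.snd_add, Pi.add_apply, oo_snd, ones_snd, ones_snd]
    rcases lt_trichotomy k (j + 1) with h | h | h
    · rw [if_neg (by omega), if_neg (by omega), if_pos (by omega), if_pos (by omega)]; simp
    · rw [if_pos (by omega), if_neg (by omega), if_neg (by omega), if_pos (by omega)]; simp
    · by_cases h' : k = j + 2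
      · rw [if_neg (by omega), if_pos (by omega), if_neg (by omega), if_pos (by omega)]; simp
      · rw [if_neg (by omega), if_neg (by omega), if_neg (by omega), if_neg (by omega)]; simp

theorem g_mem {M i : ℕ} (hM : i + 2 ≤ M) : QE.oo F E i ∈ q.XX M i := by
  refine ⟨?_, ?_, QM_oo q M i (by omega), ?_⟩
  · intro j hj
    rw [oo_snd, if_neg (by omega), if_neg (by omega), add_zero]
  · rw [oo_snd, if_neg (by omega), if_pos rfl, zero_add]
  · intro ho
    exact oo_ne_ones ho.pos _

theorem g_adj0 {M : ℕ} (hM : 2 ≤ M) : q.AA M 0 (QE.oo F E 0) ((1, 0, 0), Pi.single 1 1) := by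
  refine ⟨?_, ?_⟩
  · rw [BM_comm, BM_oo q M 0 (by omega)]
    simp
  · intro _ h
    have := congrArg (fun y : QE.W F E => y.1.1) h
    simp [oo_fst, ones_fst] at this

theorem g_adj {M j : ℕ} (hM : j + 3 ≤ M) :
    q.AA M (j + 1) (QE.oo F E (j + 1)) (QE.oo F E (j + 1) + QE.oo F E j) := by
  refine ⟨?_, ?_⟩
  · rw [BM_add_right, BM_self, zero_add, BM_oo q M j (by omega), oo_snd, oo_snd]
    rw [if_neg (by omega), if_neg (by omega), if_pos rfl, if_neg (by omega)]
    ring
  · intro he h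
    rw [← add_assoc, add_self_W (F := F), zero_add] at h
    have : Odd j := by
      by_contra h'
      rw [Nat.not_odd_iff_even] at h'
      exact (Nat.not_even_iff_odd.mpr h'.add_one) he
    exact oo_ne_ones this.pos _ h

theorem nb_gen {M j : ℕ} (hM : j + 3 ≤ M) (y : QE.W F E) (hy : y ∈ q.XX M (j + 1))
    (hadj : q.AA M (j + 1) (QE.oo F E (j + 1)) y) :
    ∃ z ∈ q.XX M j, y = QE.oo F E (j + 1) + z := by
  obtain ⟨h1, h2, h3, h4⟩ := hy
  obtain ⟨h5, h6⟩ := hadj
  have h5' : y.2 (j + 1) + y.2 (j + 1 + 1) = 1 := by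
    rw [← BM_oo q M (j + 1) (by omega), BM_comm]; exact h5
  have h7 : y.2 (j + 1) = 0 := by
    rw [h2] at h5'
    linear_combination h5'
  refine ⟨y + QE.oo F E (j + 1), ⟨?_, ?_, ?_, ?_⟩, ?_⟩
  · intro k hk
    rw [Prod.snd_add, Pi.add_apply, oo_snd]
    by_cases h : k = j + 1 + 1
    · rw [h, h2, if_neg (by omega), if_pos rfl, zero_add, F_add_self]
    · rw [h1 k (by omega), if_neg (by omega), if_neg h]; simp
  · rw [Prod.snd_add, Pi.add_apply, oo_snd, h7, if_pos rfl, if_neg (by omega)]; simp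
  · rw [QM_add, h3, QM_oo q M (j + 1) (by omega), BM_comm, h5, F_add_self, zero_add]
  · intro ho h
    apply h6 ho.add_one
    rw [add_comm, h]
  · rw [add_comm y, ← add_assoc, add_self_W (F := F), zero_add]

theorem nb2_gen {M j : ℕ} (hM : j + 3 ≤ M) (z : QE.W F E) (hz : z ∈ q.XX M j)
    (h1 : q.AA M (j + 1) (QE.oo F E (j + 1) + QE.oo F E j) (QE.oo F E (j + 1) + z))
    (h2 : ¬ QE.SS (j + 1) (QE.oo F E (j + 1)) (QE.oo F E (j + 1) + QE.oo F E j)
      (QE.oo F E (j + 1) + z)) : q.AA M j (QE.oo F E j) z := by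
  obtain ⟨z1, z2, z3, z4⟩ := hz
  refine ⟨?_, ?_⟩
  · have e := h1.1
    rw [BM_add_left, BM_add_right, BM_add_right, BM_self, BM_comm q M _ z,
      BM_oo q M (j + 1) (by omega), z2, z1 _ (by omega), BM_comm q M (QE.oo F E j) (QE.oo F E (j + 1)),
      BM_oo q M j (by omega), oo_snd, oo_snd, if_neg (by omega), if_neg (by omega), if_pos rfl,
      if_neg (by omega)] at e
    have h22 : (2 : F) = 0 := CharTwo.two_eq_zero
    linear_combination e - h22
  · intro he h
    apply h2
    refine ⟨he.add_one, ?_⟩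
    calc QE.oo F E (j + 1) + (QE.oo F E (j + 1) + QE.oo F E j) + (QE.oo F E (j + 1) + z)
        = (QE.oo F E (j + 1) + QE.oo F E (j + 1)) + (QE.oo F E (j + 1) + (QE.oo F E j + z)) := by
          abel
      _ = QE.ones F E (j + 2) := by
          rw [add_self_W (F := F), zero_add, h, oo_add_ones]

theorem nb0_gen {M : ℕ} (hM : 2 ≤ M) (y : QE.W F E) (hy : y ∈ q.XX M 0)
    (hadj : q.AA M 0 (QE.oo F E 0) y) :
    ∃ x : F × F × E, y = (x, Pi.single 1 1) ∧ q.Q3 x = 0 ∧ x ≠ 0 := by
  obtain ⟨h1, h2, h3, h4⟩ := hy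
  obtain ⟨h5, h6⟩ := hadj
  rw [BM_comm, BM_oo q M 0 (by omega)] at h5
  have h7 : y.2 0 = 0 := by
    rw [h2] at h5
    linear_combination h5
  have h8 : y.2 = Pi.single 1 1 := by
    funext k
    rw [Pi.single_apply]
    rcases Nat.lt_trichotomy k 1 with h | h | h
    · have : k = 0 := by omega
      subst this
      rw [h7, if_neg (by omega)]
    · rw [if_pos h, h]; exact h2
    · rw [h1 k h, if_neg (by omega)]
  refine ⟨y.1, Prod.ext rfl h8, ?_, ?_⟩
  · rw [QM_eq, h8, QF_single M 1 (by omega)] at h3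
    linear_combination h3
  · intro h
    apply h6 (by exact Even.zero)
    apply W_ext
    · rw [Prod.fst_add, oo_fst, h, ones_fst, add_zero]
    · intro k
      rw [Prod.snd_add, Pi.add_apply, h8, oo_snd, ones_snd, Pi.single_apply]
      rcases Nat.lt_trichotomy k 1 with h | h | h
      · have : k = 0 := by omega
        subst this
        simp
      · subst h
        simp [F_add_self]
      · obtain ⟨l, rfl⟩ : ∃ l, k = l + 2 := ⟨k - 2, by omega⟩
        simp

theorem nb02_gen {M : ℕ} (hM : 2 ≤ M) (x : F × F × E)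
    (hadj : q.AA M 0 (((1, 0, 0) : F × F × E), Pi.single 1 1) (x, Pi.single 1 1)) :
    q.B3 x (1, 0, 0) = 1 := by
  have h := hadj.1
  rw [BM_eq] at h
  change q.B3 (1, 0, 0) x + BF M (Pi.single 1 1) (Pi.single 1 1) = 1 at h
  rw [BF_single M 1 (by omega)] at h
  have h1 : ∑ k ∈ Finset.range M, (Pi.single 1 1 : ℕ → F) k = 1 := by
    rw [Finset.sum_eq_single 1]
    · simp
    · intro b _ hb; simp [hb]
    · intro h; exact absurd (Finset.mem_range.2 (by omega)) h
  rw [h1, Pi.single_eq_same, F_add_self, add_zero, B3_comm] at h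
  exact h

end

end Pool.Agent.Helper35.YG
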