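import Mathlib
import Pool.Agent.Helper35.YG.Geo1

set_option autoImplicit false

namespace Pool.Agent.Helper35.YG

open Pool.Agent.Helper37.YGm

section

variable {F E : Type*} [Field F] [CommRing E] [Algebra F E] [Nontrivial E] [CharP F 2]
  (q : QE F E)

/-- the finite dimensional space -/
abbrev VV (F E : Type*) (k : ℕ) := (F × F × E) × (Fin k → F)

/-- extension by zero -/
def ext0 (F : Type*) [Field F] (k : ℕ) (f : Fin k → F) : ℕ → F :=
  fun j => if h : j < k then f ⟨j, h⟩ else 0

omit [CharP F 2] in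
lemma ext0_lt {k : ℕ} (f : Fin k → F) {j : ℕ} (h : j < k) : ext0 F k f j = f ⟨j, h⟩ := dif_pos h

omit [CharP F 2] in
lemma ext0_ge {k : ℕ} (f : Fin k → F) {j : ℕ} (h : k ≤ j) : ext0 F k f j = 0 :=
  dif_neg (by omega)

/-- the embedding of `VV` in `W` -/
def io (F E : Type*) [Field F] [CommRing E] [Algebra F E] (k : ℕ) : VV F E k →ₗ[F] QE.W F E where
  toFun v := (v.1, ext0 F k v.2)
  map_add' v w := by
    refine Prod.ext rfl ?_
    funext j
    change ext0 F k (v.2 + w.2) j = ext0 F k v.2 j + ext0 F k w.2 j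
    by_cases h : j < k
    · rw [ext0_lt _ h, ext0_lt _ h, ext0_lt _ h]; rfl
    · rw [ext0_ge _ (by omega), ext0_ge _ (by omega), ext0_ge _ (by omega), add_zero]
  map_smul' c v := by
    refine Prod.ext rfl ?_
    funext j
    change ext0 F k (c • v.2) j = c • ext0 F k v.2 j
    by_cases h : j < k
    · rw [ext0_lt _ h, ext0_lt _ h]; rfl
    · rw [ext0_ge _ (by omega), ext0_ge _ (by omega), smul_zero]

omit [Nontrivial E] [CharP F 2] in
lemma io_fst (k : ℕ) (v : VV F E k) : (io F E k v).1 = v.1 := rfl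

omit [Nontrivial E] [CharP F 2] in
lemma io_snd (k : ℕ) (v : VV F E k) : (io F E k v).2 = ext0 F k v.2 := rfl

omit [Nontrivial E] [CharP F 2] in
lemma io_inj (k : ℕ) : Function.Injective (io F E k) := by
  intro v w h
  have h1 : v.1 = w.1 := congrArg (fun y : QE.W F E => y.1) h
  refine Prod.ext h1 ?_
  funext j
  have h2 : ext0 F k v.2 = ext0 F k w.2 := congrArg (fun y : QE.W F E => y.2) h
  have := congrFun h2 j
  rwa [ext0_lt _ j.2, ext0_lt _ j.2] at this

/-- restriction -/
def re (F E : Type*) (k : ℕ) (y : QE.W F E) : VV F E k := (y.1, fun j => y.2 j)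

omit [Nontrivial E] [CharP F 2] in
lemma io_re (k : ℕ) (y : QE.W F E) (h : ∀ j, k ≤ j → y.2 j = 0) : io F E k (re F E k y) = y := by
  refine Prod.ext rfl ?_
  funext j
  rw [io_snd]
  by_cases hj : j < k
  · rw [ext0_lt _ hj]; rfl
  · rw [ext0_ge _ (by omega), h j (by omega)]

/-- the form on `W` -/
noncomputable def BW (M : ℕ) : QE.W F E →ₗ[F] QE.W F E →ₗ[F] F :=
  LinearMap.mk₂ F (q.BM M) (BM_add_left q M) (BM_smul_left q M) (BM_add_right q M)
    (fun c y z => BM_smul_right q M c y z)

/-- the quadratic form on `W` -/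
noncomputable def QW (M : ℕ) : QuadraticForm F (QE.W F E) where
  toFun := q.QM M
  toFun_smul c y := by rw [QM_smul]; ring
  exists_companion' := ⟨BW q M, fun x y => by
    rw [QM_add]; rfl⟩

/-- the quadratic form on `VV` -/
noncomputable def QV (M k : ℕ) : QuadraticForm F (VV F E k) := (QW q M).comp (io F E k)

lemma QV_apply (M k : ℕ) (v : VV F E k) : QV q M k v = q.QM M (io F E k v) := rfl

lemma QV_polar (M k : ℕ) (v w : VV F E k) :
    QuadraticMap.polar (QV q M k) v w = q.BM M (io F E k v) (io F E k w) := by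
  unfold QuadraticMap.polar
  rw [QV_apply, QV_apply, QV_apply, map_add, QM_add]
  ring

lemma sum_ext0 {M k : ℕ} (h : k ≤ M) (f : Fin k → F) :
    ∑ j ∈ Finset.range M, ext0 F k f j = ∑ j : Fin k, f j := by
  rw [Finset.sum_fin_eq_sum_range]
  symm
  apply Finset.sum_subset_zero_on_sdiff (Finset.range_mono h)
  · intro x hx
    rw [Finset.mem_sdiff, Finset.mem_range, Finset.mem_range] at hx
    exact ext0_ge _ (by omega)
  · intro x hx; rfl

lemma B3_nondeg (h2 : (2 : E) = 0) (x : F × F × E) (h : ∀ y, q.B3 x y = 0) : x = 0 := by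
  have h1 := h (0, 1, 0)
  have h3 := h (1, 0, 0)
  have h4 : ∀ f, q.T (x.2.2 * q.bar f) = 0 := by
    intro f
    have := h (0, 0, f)
    simpa [QE.B3] using this
  have h5 := nondeg_T q h2 _ h4
  refine Prod.ext ?_ (Prod.ext ?_ h5)
  · simpa [QE.B3, T_zero] using h1
  · simpa [QE.B3, T_zero] using h3

lemma QV_nondeg (h2 : (2 : E) = 0) {M k : ℕ} (hk : Even k) (hkM : k ≤ M) (x : VV F E k)
    (h : ∀ y, QuadraticMap.polar (QV q M k) x y = 0) : x = 0 := by
  have h1 : x.1 = 0 := by
    apply B3_nondeg q h2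
    intro y
    have := h (y, 0)
    rw [QV_polar, BM_eq] at this
    have h0 : ext0 F k (0 : Fin k → F) = 0 := by
      funext j
      by_cases hj : j < k
      · rw [ext0_lt _ hj]; rfl
      · rw [ext0_ge _ (by omega)]; rfl
    rw [io_fst, io_fst, io_snd, io_snd] at this
    change q.B3 x.1 y + BF M (ext0 F k x.2) (ext0 F k 0) = 0 at this
    rw [h0] at this
    have h3 : BF M (ext0 F k x.2) 0 = 0 := by simp [BF]
    rwa [h3, add_zero] at this
  have h3 : ∀ l : Fin k, x.2 l = ∑ j : Fin k, x.2 j := by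
    intro l
    have := h (0, Pi.single l 1)
    rw [QV_polar, BM_eq, io_fst, io_fst, io_snd, io_snd] at this
    have h0 : ext0 F k (Pi.single l 1 : Fin k → F) = Pi.single (l : ℕ) 1 := by
      funext j
      by_cases hj : j < k
      · rw [ext0_lt _ hj, Pi.single_apply, Pi.single_apply]
        congr 1
        rw [eq_iff_iff, Fin.ext_iff]
      · rw [ext0_ge _ (by omega), Pi.single_apply, if_neg (by have := l.2; omega)]
    have h4 : q.B3 x.1 0 = 0 := by simp [QE.B3, T_zero]
    change q.B3 x.1 0 + BF M (ext0 F k x.2) (ext0 F k (Pi.single l 1)) = 0 at this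
    rw [h4, h0, zero_add, BF_single M l (by have := l.2; omega), sum_ext0 hkM, ext0_lt _ l.2]
      at this
    have h22 : (2 : F) = 0 := CharTwo.two_eq_zero
    change _ + x.2 l = 0 at this
    linear_combination this - (∑ j : Fin k, x.2 j) * h22
  have h4 : ∑ j : Fin k, x.2 j = 0 := by
    have h5 : ∑ j : Fin k, x.2 j = ∑ _j : Fin k, ∑ j : Fin k, x.2 j :=
      Finset.sum_congr rfl (fun l _ => h3 l)
    rw [Finset.sum_const, Finset.card_univ, Fintype.card_fin] at h5
    rw [h5]
    obtain ⟨r, rfl⟩ := hk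
    rw [add_smul, F_add_self]
  refine Prod.ext h1 ?_
  funext l
  rw [h3 l, h4]; rfl

include q in
omit [Nontrivial E] [CharP F 2] in
lemma finiteE [Finite F] : Finite E := by
  have hsurj : Function.Surjective
      (fun p : F × F => algebraMap F E p.1 + algebraMap F E p.2 * (q.η * q.η)) := by
    intro x
    obtain ⟨a, b, h⟩ := q.span x
    exact ⟨(a, b), h.symm⟩
  exact Finite.of_surjective _ hsurj

include q in
lemma finrankE [Module.Finite F E] : 2 ≤ Module.finrank F E := by
  have hli : LinearIndependent F ![(1 : E), q.η * q.η] := by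
    rw [LinearIndependent.pair_iff]
    intro s t h
    have h1 := congrArg q.T h
    rw [T_add, T_smul, T_smul, T_zero] at h1
    have h2 : q.T 1 = 0 := by
      apply (algebraMap F E).injective
      rw [q.T_eq, map_one, map_zero]
      have : (algebraMap F E) (1 + 1) = 0 := by rw [F_add_self, map_zero]
      rwa [map_add, map_one] at this
    rw [h2, mul_zero, zero_add] at h1
    have ht : t = 0 := (mul_eq_zero.mp h1).resolve_right q.s_ne
    subst ht
    rw [zero_smul, add_zero, Algebra.smul_def, mul_one] at h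
    refine ⟨(algebraMap F E).injective (by rw [h, map_zero]), rfl⟩
  have := hli.fintype_card_le_finrank
  simpa using this

include q in
lemma finrankVV [Module.Finite F E] (k : ℕ) : 4 + k ≤ Module.finrank F (VV F E k) := by
  have h := finrankE q
  rw [Module.finrank_prod, Module.finrank_prod, Module.finrank_prod, Module.finrank_self,
    Module.finrank_fin_fun]
  omega

end

end Pool.Agent.Helper35.YG
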