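import Mathlib
import Pool.Agent.Helper35.YG.Geo2
import Pool.Agent.Helper20.YGspec
import Pool.Agent.Helper84.YG.SCEven
import Pool.Agent.Helper76.YG.Four
import Pool.Agent.Helper56.YGConn

set_option autoImplicit false

namespace Pool.Agent.Helper35.YG

open Pool.Agent.Helper37.YGm

section transport

variable {V V' Ω : Type*} {X : Set V} {Adj : V → V → Prop} {Spec : V → V → V → Prop}
  {X' : Set V'} {Adj' : V' → V' → Prop} {Spec' : V' → V' → V' → Prop} {R : Ω → Ω → Prop}
  {π : Ω → V} (r : V → V') (s : V' → V) (hr : ∀ y ∈ X, r y ∈ X') (hs : ∀ v ∈ X', s v ∈ X)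
  (hrs : ∀ v ∈ X', r (s v) = v) (hsr : ∀ y ∈ X, s (r y) = y)
  (hA : ∀ y ∈ X, ∀ z ∈ X, Adj y z ↔ Adj' (r y) (r z))

include hr hs hrs hsr hA in
lemma transport (hS : ∀ x ∈ X, ∀ y ∈ X, ∀ z ∈ X, Spec x y z → Spec' (r x) (r y) (r z))
    (hc : Cover' X Adj Spec R π) : Cover' X' Adj' Spec' R (r ∘ π) := by
  refine ⟨fun ω => hr _ (hc.mem ω), hc.symm, ?_, ?_, ?_, ?_, hc.conn⟩
  · intro ω ω' h
    exact (hA _ (hc.mem _) _ (hc.mem _)).mp (hc.adj _ _ h)
  · intro ω v hv h
    have h1 : Adj (π ω) (s v) := by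
      rw [hA _ (hc.mem _) _ (hs v hv), hrs v hv]; exact h
    obtain ⟨ω', h2, h3⟩ := hc.lift ω (s v) (hs v hv) h1
    exact ⟨ω', h2, by change r (π ω') = v; rw [h3, hrs v hv]⟩
  · intro ω ω₁ ω₂ h1 h2 h
    apply hc.uniq ω ω₁ ω₂ h1 h2
    have := congrArg s h
    change s (r (π ω₁)) = s (r (π ω₂)) at this
    rwa [hsr _ (hc.mem _), hsr _ (hc.mem _)] at this
  · intro ω ω₁ ω₂ h1 h2 h3 h4
    apply hc.tri ω ω₁ ω₂ h1 h2
    · exact (hA _ (hc.mem _) _ (hc.mem _)).mpr h3
    · intro h5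
      exact h4 (hS _ (hc.mem _) _ (hc.mem _) _ (hc.mem _) h5)

include hr hs hrs hsr hA in
lemma transport_conn (h : ∀ v ∈ X', ∀ w ∈ X',
    Relation.ReflTransGen (fun a b => b ∈ X' ∧ Adj' a b) v w) :
    ∀ y ∈ X, ∀ z ∈ X, Relation.ReflTransGen (fun a b => b ∈ X ∧ Adj a b) y z := by
  intro y hy z hz
  have key : ∀ w, Relation.ReflTransGen (fun a b => b ∈ X' ∧ Adj' a b) (r y) w →
      w ∈ X' ∧ Relation.ReflTransGen (fun a b => b ∈ X ∧ Adj a b) y (s w) := by
    intro w hw
    induction hw with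
    | refl => exact ⟨hr y hy, by rw [hsr y hy]⟩
    | @tail b c _ hbc ih =>
      refine ⟨hbc.1, ih.2.tail ⟨hs _ hbc.1, ?_⟩⟩
      rw [hA _ (hs _ ih.1) _ (hs _ hbc.1), hrs _ ih.1, hrs _ hbc.1]
      exact hbc.2
  have := (key (r z) (h _ (hr y hy) _ (hr z hz))).2
  rwa [hsr z hz] at this

end transport

section

variable {F E : Type*} [Field F] [CommRing E] [Algebra F E] [Nontrivial E] [CharP F 2]
  (q : QE F E)

lemma ones_sum (z : ℕ → F) {M k : ℕ} (hk : k < M) :
    ∑ l ∈ Finset.range M, (QE.ones F E k).2 l * z l = ∑ l ∈ Finset.range (k + 1), z l := by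
  symm
  apply Finset.sum_subset_zero_on_sdiff (Finset.range_mono (by omega : k + 1 ≤ M))
  · intro x hx
    rw [Finset.mem_sdiff, Finset.mem_range, Finset.mem_range] at hx
    rw [ones_snd, if_neg (by omega), zero_mul]
  · intro x hx
    rw [Finset.mem_range] at hx
    rw [ones_snd, if_pos (by omega), one_mul]

lemma supp_sum (z : ℕ → F) {M k : ℕ} (hk : k ≤ M) (hz : ∀ j, k ≤ j → z j = 0) :
    ∑ l ∈ Finset.range M, z l = ∑ l ∈ Finset.range k, z l := by
  symm
  apply Finset.sum_subset_zero_on_sdiff (Finset.range_mono hk)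
  · intro x hx
    rw [Finset.mem_sdiff, Finset.mem_range, Finset.mem_range] at hx
    exact hz x (by omega)
  · intro x hx; rfl

lemma BM_ones_gen {M k : ℕ} (hk : k < M) (z : QE.W F E) :
    q.BM M (QE.ones F E k) z = (k + 1 : F) * (∑ l ∈ Finset.range M, z.2 l) +
      ∑ l ∈ Finset.range (k + 1), z.2 l := by
  rw [BM_eq, ones_fst]
  have h0 : q.B3 0 z.1 = 0 := by simp [QE.B3, T_zero]
  rw [h0, zero_add, BF, sum_ones M k hk, ones_sum z.2 hk]

lemma cast_even {k : ℕ} (hk : Even k) : (k : F) = 0 := by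
  obtain ⟨r, rfl⟩ := hk
  push_cast
  exact F_add_self _

lemma QM_ones_01 (M k : ℕ) : q.QM M (QE.ones F E k) = 0 ∨ q.QM M (QE.ones F E k) = 1 := by
  have h : ∃ N : ℕ, q.QM M (QE.ones F E k) = N := by
    rw [QM_eq, ones_fst]
    have h0 : q.Q3 0 = 0 := by simp [QE.Q3, N_zero]
    rw [h0, zero_add, QF]
    have h1 : ∀ l, (QE.ones F E k).2 l = ((if l ≤ k then 1 else 0 : ℕ) : F) := by
      intro l
      rw [ones_snd]
      split_ifs <;> simp
    simp only [h1]
    refine ⟨(∑ i ∈ Finset.range M, (if i ≤ k then 1 else 0) ^ 2) +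
      ∑ j ∈ Finset.range M, ∑ i ∈ Finset.range j, (if i ≤ k then 1 else 0) *
        (if j ≤ k then 1 else 0), ?_⟩
    push_cast
    rfl
  obtain ⟨N, hN⟩ := h
  rw [hN]
  rcases Nat.even_or_odd N with hN' | hN'
  · left; exact cast_even hN'
  · right
    obtain ⟨r, rfl⟩ := hN'
    push_cast
    rw [CharTwo.two_eq_zero, zero_mul, zero_add]

/-! ### odd index -/

lemma odd_BM {M i : ℕ} (hM : i + 2 ≤ M) (hi : Odd i) (z : QE.W F E)
    (hz : ∀ j, i + 1 < j → z.2 j = 0) : q.BM M (QE.ones F E (i + 1)) z = 0 := by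
  rw [BM_ones_gen q (by omega), supp_sum z.2 (k := i + 2) (by omega) (fun j hj => hz j (by omega))]
  have h1 : ((i + 1 : ℕ) : F) = 0 := cast_even hi.add_one
  rw [h1, zero_add, one_mul, F_add_self]

lemma W_add_self (y : QE.W F E) : y + y = 0 := add_self_W (F := F) y

variable {M i : ℕ} (hM : i + 2 ≤ M)

include hM

theorem odd_hr (hi : Odd i) (y : QE.W F E) (hy : y ∈ q.XX M i) :
    io F E (i + 1) (re F E (i + 1) (y + QE.ones F E (i + 1))) = y + QE.ones F E (i + 1) := by
  apply io_re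
  intro j hj
  rw [Prod.snd_add, Pi.add_apply, ones_snd]
  by_cases h : j = i + 1
  · rw [h, hy.2.1, if_pos le_rfl, F_add_self]
  · rw [hy.1 j (by omega), if_neg (by omega), add_zero]

theorem odd_mem (hi : Odd i) (y : QE.W F E) (hy : y ∈ q.XX M i) :
    re F E (i + 1) (y + QE.ones F E (i + 1)) ∈
      {v | QV q M (i + 1) v = 1 + q.QM M (QE.ones F E (i + 1)) ∧ v ≠ 0} := by
  refine ⟨?_, ?_⟩
  · rw [QV_apply, odd_hr q hM hi y hy, QM_add, hy.2.2.1, BM_comm, odd_BM q hM hi y hy.1, add_zero]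
  · intro h
    have h1 := odd_hr q hM hi y hy
    rw [h, map_zero] at h1
    apply hy.2.2.2 hi
    calc y = y + (QE.ones F E (i + 1) + QE.ones F E (i + 1)) := by rw [W_add_self, add_zero]
      _ = QE.ones F E (i + 1) := by rw [← add_assoc, ← h1, zero_add]

theorem odd_io_supp (v : VV F E (i + 1)) (j : ℕ) (hj : i + 1 ≤ j) :
    (io F E (i + 1) v).2 j = 0 := by
  rw [io_snd]; exact ext0_ge _ hj

theorem odd_mem' (hi : Odd i) (v : VV F E (i + 1))
    (hv : v ∈ {v | QV q M (i + 1) v = 1 + q.QM M (QE.ones F E (i + 1)) ∧ v ≠ 0}) :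
    io F E (i + 1) v + QE.ones F E (i + 1) ∈ q.XX M i := by
  obtain ⟨h1, h2⟩ := hv
  refine ⟨?_, ?_, ?_, ?_⟩
  · intro j hj
    rw [Prod.snd_add, Pi.add_apply, ones_snd, if_neg (by omega), odd_io_supp hM v j (by omega),
      add_zero]
  · rw [Prod.snd_add, Pi.add_apply, ones_snd, if_pos le_rfl, odd_io_supp hM v _ le_rfl, zero_add]
  · rw [QM_add, ← QV_apply, h1, BM_comm, odd_BM q hM hi _
      (fun j hj => odd_io_supp hM v j (by omega)), add_zero, add_assoc, F_add_self, add_zero]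
  · intro _ h
    apply h2
    apply io_inj
    rw [map_zero]
    calc io F E (i + 1) v = io F E (i + 1) v + QE.ones F E (i + 1) + QE.ones F E (i + 1) := by
          rw [add_assoc, W_add_self, add_zero]
      _ = 0 := by rw [h, W_add_self]

theorem odd_adj (hi : Odd i) (y : QE.W F E) (hy : y ∈ q.XX M i) (z : QE.W F E)
    (hz : z ∈ q.XX M i) : q.AA M i y z ↔
    QuadraticMap.polar (QV q M (i + 1)) (re F E (i + 1) (y + QE.ones F E (i + 1)))
      (re F E (i + 1) (z + QE.ones F E (i + 1))) = 1 := by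
  rw [QV_polar, odd_hr q hM hi y hy, odd_hr q hM hi z hz, BM_add_left, BM_add_right, BM_add_right,
    BM_self, odd_BM q hM hi z hz.1, BM_comm q M y (QE.ones F E (i + 1)), odd_BM q hM hi y hy.1,
    add_zero, add_zero, add_zero]
  constructor
  · intro h; exact h.1
  · intro h; exact ⟨h, fun he => absurd hi (Nat.not_odd_iff_even.mpr he)⟩

theorem odd_rs (v : VV F E (i + 1)) :
    re F E (i + 1) (io F E (i + 1) v + QE.ones F E (i + 1) + QE.ones F E (i + 1)) = v := by
  apply io_inj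
  rw [add_assoc, W_add_self, add_zero, io_re]
  intro j hj
  exact odd_io_supp hM v j hj

theorem odd_sr (hi : Odd i) (y : QE.W F E) (hy : y ∈ q.XX M i) :
    io F E (i + 1) (re F E (i + 1) (y + QE.ones F E (i + 1))) + QE.ones F E (i + 1) = y := by
  rw [odd_hr q hM hi y hy, add_assoc, W_add_self, add_zero]

theorem odd_SS (hi : Odd i) (x : QE.W F E) (hx : x ∈ q.XX M i) (y : QE.W F E)
    (hy : y ∈ q.XX M i) (z : QE.W F E) (hz : z ∈ q.XX M i) (h : QE.SS i x y z) :
    re F E (i + 1) (x + QE.ones F E (i + 1)) + re F E (i + 1) (y + QE.ones F E (i + 1)) +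
      re F E (i + 1) (z + QE.ones F E (i + 1)) = 0 := by
  apply io_inj
  rw [map_add, map_add, odd_hr q hM hi x hx, odd_hr q hM hi y hy, odd_hr q hM hi z hz, map_zero]
  calc x + QE.ones F E (i + 1) + (y + QE.ones F E (i + 1)) + (z + QE.ones F E (i + 1))
      = (x + y + z) + QE.ones F E (i + 1) + (QE.ones F E (i + 1) + QE.ones F E (i + 1)) := by abel
    _ = 0 := by rw [h.2, W_add_self]

theorem odd_kappa : (1 + q.QM M (QE.ones F E (i + 1)) : F) = 0 ∨
    (1 + q.QM M (QE.ones F E (i + 1)) : F) = 1 := by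
  rcases QM_ones_01 q M (i + 1) with h | h
  · right; rw [h, add_zero]
  · left; rw [h, F_add_self]

theorem SC_odd_XX [Fintype F] (hq : 4 ≤ Fintype.card F) (h2 : (2 : E) = 0) (hi : Odd i)
    {Ω : Type*} {R : Ω → Ω → Prop} {π : Ω → QE.W F E}
    (hc : Cover' (q.XX M i) (q.AA M i) (QE.SS i) R π) : Function.Injective π := by
  have hE := finiteE q
  have hfE : Module.Finite F E := Module.Finite.of_finite
  have hc' := transport (X' := {v | QV q M (i + 1) v = 1 + q.QM M (QE.ones F E (i + 1)) ∧ v ≠ 0})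
    (Adj' := fun v w => QuadraticMap.polar (QV q M (i + 1)) v w = 1)
    (Spec' := fun x y z => x + y + z = 0)
    (fun y => re F E (i + 1) (y + QE.ones F E (i + 1)))
    (fun v => io F E (i + 1) v + QE.ones F E (i + 1)) (odd_mem q hM hi) (odd_mem' q hM hi)
    (fun v _ => odd_rs hM v) (odd_sr q hM hi) (odd_adj q hM hi) (odd_SS q hM hi) hc
  have hdim : 6 ≤ Module.finrank F (VV F E (i + 1)) := by
    have := finrankVV q (i + 1)
    have := hi.pos
    omega
  have := Pool.Agent.Helper20.YGspec.SC_odd' hq (QV q M (i + 1))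
    (QV_nondeg q h2 hi.add_one (by omega)) hdim _ (odd_kappa q hM) hc'
  exact Function.Injective.of_comp this

theorem conn_odd_XX [Fintype F] (hq : 4 ≤ Fintype.card F) (h2 : (2 : E) = 0) (hi : Odd i) :
    ∀ y ∈ q.XX M i, ∀ z ∈ q.XX M i,
      Relation.ReflTransGen (fun a b => b ∈ q.XX M i ∧ q.AA M i a b) y z := by
  have hE := finiteE q
  have hfE : Module.Finite F E := Module.Finite.of_finite
  have hdim : 6 ≤ Module.finrank F (VV F E (i + 1)) := by
    have := finrankVV q (i + 1)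
    have := hi.pos
    omega
  exact transport_conn (X' := {v | QV q M (i + 1) v = 1 + q.QM M (QE.ones F E (i + 1)) ∧ v ≠ 0})
    (Adj' := fun v w => QuadraticMap.polar (QV q M (i + 1)) v w = 1)
    (fun y => re F E (i + 1) (y + QE.ones F E (i + 1)))
    (fun v => io F E (i + 1) v + QE.ones F E (i + 1)) (odd_mem q hM hi) (odd_mem' q hM hi)
    (fun v _ => odd_rs hM v) (odd_sr q hM hi) (odd_adj q hM hi)
    (fun v hv w hw => Pool.Agent.Helper56.YGConn.conn_odd hq (QV q M (i + 1))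
      (QV_nondeg q h2 hi.add_one (by omega)) hdim _ (odd_kappa q hM) v w hv hw)

/-! ### even index -/

theorem ev_sr (y : QE.W F E) (hy : y ∈ q.XX M i) : io F E (i + 2) (re F E (i + 2) y) = y :=
  io_re _ _ (fun j hj => hy.1 j (by omega))

theorem ev_ones : io F E (i + 2) (re F E (i + 2) (QE.ones F E i)) = QE.ones F E i :=
  io_re _ _ (fun j hj => by rw [ones_snd, if_neg (by omega)])

theorem ev_io_supp (v : VV F E (i + 2)) (j : ℕ) (hj : i + 1 < j) :
    (io F E (i + 2) v).2 j = 0 := by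
  rw [io_snd]; exact ext0_ge _ hj

theorem ev_BM (hi : Even i) (z : QE.W F E) (hz : ∀ j, i + 1 < j → z.2 j = 0) :
    q.BM M z (QE.ones F E i) = z.2 (i + 1) := by
  rw [BM_comm, BM_ones_gen q (by omega), supp_sum z.2 (k := i + 2) (by omega)
    (fun j hj => hz j (by omega)), cast_even hi, zero_add, one_mul, Finset.sum_range_succ]
  have := F_add_self (∑ x ∈ Finset.range (i + 1), z.2 x)
  linear_combination this

theorem ev_mem (hi : Even i) (y : QE.W F E) (hy : y ∈ q.XX M i) :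
    re F E (i + 2) y ∈ {v : VV F E (i + 2) | QuadraticMap.polar (QV q M (i + 2)) v
      (re F E (i + 2) (QE.ones F E i)) = 1 ∧ QV q M (i + 2) v = 1} := by
  refine ⟨?_, ?_⟩
  · rw [QV_polar, ev_sr q hM y hy, ev_ones hM, ev_BM q hM hi y hy.1]
    exact hy.2.1
  · rw [QV_apply, ev_sr q hM y hy]; exact hy.2.2.1

theorem ev_mem' (hi : Even i) (v : VV F E (i + 2)) (hv : v ∈ {v : VV F E (i + 2) |
    QuadraticMap.polar (QV q M (i + 2)) v (re F E (i + 2) (QE.ones F E i)) = 1 ∧
      QV q M (i + 2) v = 1}) : io F E (i + 2) v ∈ q.XX M i := by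
  obtain ⟨h1, h2⟩ := hv
  rw [QV_polar, ev_ones hM, ev_BM q hM hi _ (ev_io_supp hM v)] at h1
  exact ⟨ev_io_supp hM v, h1, h2, fun h => absurd h (Nat.not_odd_iff_even.mpr hi)⟩

theorem ev_rs (v : VV F E (i + 2)) : re F E (i + 2) (io F E (i + 2) v) = v := by
  apply io_inj
  rw [io_re]
  intro j hj
  exact ev_io_supp hM v j (by omega)

theorem ev_adj (hi : Even i) (y : QE.W F E) (hy : y ∈ q.XX M i) (z : QE.W F E)
    (hz : z ∈ q.XX M i) : q.AA M i y z ↔
    (QuadraticMap.polar (QV q M (i + 2)) (re F E (i + 2) y) (re F E (i + 2) z) = 1 ∧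
      re F E (i + 2) y + re F E (i + 2) z ≠ re F E (i + 2) (QE.ones F E i)) := by
  rw [QV_polar, ev_sr q hM y hy, ev_sr q hM z hz]
  have h : re F E (i + 2) y + re F E (i + 2) z = re F E (i + 2) (QE.ones F E i) ↔
      y + z = QE.ones F E i := by
    rw [← (io_inj (F := F) (E := E) (i + 2)).eq_iff, map_add, ev_sr q hM y hy, ev_sr q hM z hz,
      ev_ones hM]
  constructor
  · intro h1
    exact ⟨h1.1, fun h3 => h1.2 hi (h.mp h3)⟩
  · intro h1
    exact ⟨h1.1, fun _ h3 => h1.2 (h.mpr h3)⟩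

theorem ev_rho_ne : re F E (i + 2) (QE.ones F E i) ≠ 0 := by
  intro h
  have h1 := ev_ones (F := F) (E := E) hM
  rw [h, map_zero] at h1
  have := congrArg (fun y : QE.W F E => y.2 0) h1
  simp [ones_snd] at this

theorem ev_rho : QV q M (i + 2) (re F E (i + 2) (QE.ones F E i)) = 0 ∨
    QV q M (i + 2) (re F E (i + 2) (QE.ones F E i)) = 1 := by
  rw [QV_apply, ev_ones hM]
  exact QM_ones_01 q M i

theorem conn_ev_XX [Fintype F] (hq : 4 ≤ Fintype.card F) (h2 : (2 : E) = 0) (hi : Even i) :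
    ∀ y ∈ q.XX M i, ∀ z ∈ q.XX M i,
      Relation.ReflTransGen (fun a b => b ∈ q.XX M i ∧ q.AA M i a b) y z := by
  have hE := finiteE q
  have hfE : Module.Finite F E := Module.Finite.of_finite
  have hdim : 6 ≤ Module.finrank F (VV F E (i + 2)) := by
    have := finrankVV q (i + 2)
    omega
  have hev : Even (i + 2) := by
    obtain ⟨r, rfl⟩ := hi
    exact ⟨r + 1, by ring⟩
  exact transport_conn (X' := {v : VV F E (i + 2) | QuadraticMap.polar (QV q M (i + 2)) v
      (re F E (i + 2) (QE.ones F E i)) = 1 ∧ QV q M (i + 2) v = 1})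
    (Adj' := fun v w => QuadraticMap.polar (QV q M (i + 2)) v w = 1 ∧
      v + w ≠ re F E (i + 2) (QE.ones F E i))
    (fun y => re F E (i + 2) y) (fun v => io F E (i + 2) v) (ev_mem q hM hi) (ev_mem' q hM hi)
    (fun v _ => ev_rs hM v) (ev_sr q hM) (ev_adj q hM hi)
    (fun v hv w hw => Pool.Agent.Helper56.YGConn.conn_even hq (QV q M (i + 2))
      (QV_nondeg q h2 hev (by omega)) hdim _ (ev_rho_ne hM) (ev_rho q hM) v w hv hw)

theorem ev_cover' (hi : Even i) {Ω : Type*} {R : Ω → Ω → Prop} {π : Ω → QE.W F E}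
    (hc : Cover' (q.XX M i) (q.AA M i) (QE.SS i) R π) :
    Cover (q.XX M i) (q.AA M i) R π :=
  ⟨hc.mem, hc.symm, hc.adj, hc.lift, hc.uniq, fun ω ω₁ ω₂ h1 h2 h3 => hc.tri ω ω₁ ω₂ h1 h2 h3
    (fun h => absurd h.1 (Nat.not_odd_iff_even.mpr hi)), hc.conn⟩

theorem SC_ev_XX [Fintype F] (hq : 4 ≤ Fintype.card F) (h2 : (2 : E) = 0) (hi : Even i)
    (hi2 : 2 ≤ i) {Ω : Type*} {R : Ω → Ω → Prop} {π : Ω → QE.W F E}
    (hc : Cover' (q.XX M i) (q.AA M i) (QE.SS i) R π) : Function.Injective π := by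
  have hE := finiteE q
  have hfE : Module.Finite F E := Module.Finite.of_finite
  have hc' := transport (X' := {v : VV F E (i + 2) | QuadraticMap.polar (QV q M (i + 2)) v
      (re F E (i + 2) (QE.ones F E i)) = 1 ∧ QV q M (i + 2) v = 1})
    (Adj' := fun v w => QuadraticMap.polar (QV q M (i + 2)) v w = 1 ∧
      v + w ≠ re F E (i + 2) (QE.ones F E i)) (Spec' := fun _ _ _ => False)
    (fun y => re F E (i + 2) y) (fun v => io F E (i + 2) v) (ev_mem q hM hi) (ev_mem' q hM hi)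
    (fun v _ => ev_rs hM v) (ev_sr q hM) (ev_adj q hM hi)
    (fun x _ y _ z _ h => absurd h.1 (Nat.not_odd_iff_even.mpr hi)) hc
  have hdim : 8 ≤ Module.finrank F (VV F E (i + 2)) := by
    have := finrankVV q (i + 2)
    omega
  have hev : Even (i + 2) := by
    obtain ⟨r, rfl⟩ := hi
    exact ⟨r + 1, by ring⟩
  have hc'' : Cover {v : VV F E (i + 2) | QuadraticMap.polar (QV q M (i + 2)) v
      (re F E (i + 2) (QE.ones F E i)) = 1 ∧ QV q M (i + 2) v = 1}
      (fun v w => QuadraticMap.polar (QV q M (i + 2)) v w = 1 ∧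
      v + w ≠ re F E (i + 2) (QE.ones F E i)) R ((fun y => re F E (i + 2) y) ∘ π) :=
    ⟨hc'.mem, hc'.symm, hc'.adj, hc'.lift, hc'.uniq, fun ω ω₁ ω₂ h1 h2 h3 =>
      hc'.tri ω ω₁ ω₂ h1 h2 h3 (fun h => h), hc'.conn⟩
  have := Pool.Agent.Helper84.YG.SC_even hq (QV q M (i + 2))
    (QV_nondeg q h2 hev (by omega)) hdim _ (ev_rho_ne hM) (ev_rho q hM) hc''
  exact Function.Injective.of_comp this

end

section zero

variable {F E : Type*} [Field F] [CommRing E] [Algebra F E] [Nontrivial E] [CharP F 2]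
  (q : QE F E) {M : ℕ} (hM : 2 ≤ M)

/-- the map to `X_4` -/
def r4 (y : QE.W F E) : (F × F × E) × F := (y.1, y.2 0)

/-- and back -/
def s4 (x : (F × F × E) × F) : QE.W F E := (x.1, fun j => if j = 0 then x.2 else if j = 1 then 1 else 0)

include hM

theorem z_sr (y : QE.W F E) (hy : y ∈ q.XX M 0) : s4 (r4 y) = y := by
  refine Prod.ext rfl ?_
  funext j
  change (if j = 0 then y.2 0 else if j = 1 then 1 else 0) = y.2 j
  split_ifs with h h'
  · rw [h]
  · rw [h']; exact hy.2.1.symm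
  · exact (hy.1 j (by omega)).symm

theorem QF_two (f : ℕ → F) (hf : ∀ j, 1 < j → f j = 0) :
    QF M f = f 0 ^ 2 + f 1 ^ 2 + f 0 * f 1 := by
  obtain ⟨N, rfl⟩ : ∃ N, M = N + 2 := ⟨M - 2, by omega⟩
  clear hM
  induction N with
  | zero => simp [QF, Finset.sum_range_succ]
  | succ N ih =>
    rw [← ih]
    unfold QF
    rw [Finset.sum_range_succ _ (N + 2), Finset.sum_range_succ _ (N + 2), hf (N + 2) (by omega)]
    simp

theorem BF_two (f g : ℕ → F) (hf : ∀ j, 1 < j → f j = 0) (hg : ∀ j, 1 < j → g j = 0) :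
    BF M f g = (f 0 + f 1) * (g 0 + g 1) + (f 0 * g 0 + f 1 * g 1) := by
  unfold BF
  rw [supp_sum f (k := 2) hM (fun j hj => hf j (by omega)),
    supp_sum g (k := 2) hM (fun j hj => hg j (by omega)),
    supp_sum (fun i => f i * g i) (k := 2) hM (fun j hj => by rw [hf j (by omega), zero_mul])]
  simp [Finset.sum_range_succ]

theorem z_mem (y : QE.W F E) (hy : y ∈ q.XX M 0) : r4 y ∈ q.X4 := by
  have h := hy.2.2.1
  have h1 : y.2 1 = 1 := hy.2.1
  rw [QM_eq, QF_two hM y.2 (fun j hj => hy.1 j (by omega)), h1] at h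
  change q.Q3 y.1 = y.2 0 ^ 2 + y.2 0
  have := F_add_self (y.2 0 ^ 2 + y.2 0)
  linear_combination h - this

theorem z_mem' (x : (F × F × E) × F) (hx : x ∈ q.X4) : s4 x ∈ q.XX M 0 := by
  have hx' : q.Q3 x.1 = x.2 ^ 2 + x.2 := hx
  have h0 : (s4 x : QE.W F E).2 0 = x.2 := by simp [s4]
  have h1 : (s4 x : QE.W F E).2 1 = 1 := by simp [s4]
  have h3 : ∀ j, 1 < j → (s4 x : QE.W F E).2 j = 0 := by
    intro j hj
    change (if j = 0 then x.2 else if j = 1 then 1 else 0) = 0
    rw [if_neg (by omega), if_neg (by omega)]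
  refine ⟨fun j hj => h3 j (by omega), h1, ?_, fun h => absurd h (by decide)⟩
  rw [QM_eq, QF_two hM _ h3, h0, h1]
  change q.Q3 x.1 + _ = 1
  rw [hx']
  have := F_add_self (x.2 ^ 2 + x.2)
  linear_combination this

theorem z_rs (x : (F × F × E) × F) : r4 (s4 x : QE.W F E) = x := by
  refine Prod.ext rfl ?_
  change (s4 x : QE.W F E).2 0 = x.2
  simp [s4]

theorem z_adj (y : QE.W F E) (hy : y ∈ q.XX M 0) (z : QE.W F E) (hz : z ∈ q.XX M 0) :
    q.AA M 0 y z ↔ q.Adj4 (r4 y) (r4 z) := by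
  have hy1 : y.2 1 = 1 := hy.2.1
  have hz1 : z.2 1 = 1 := hz.2.1
  have hB : q.BM M y z = q.B3 y.1 z.1 + y.2 0 + z.2 0 := by
    rw [BM_eq, BF_two hM y.2 z.2 (fun j hj => hy.1 j (by omega)) (fun j hj => hz.1 j (by omega)),
      hy1, hz1]
    have h1 := F_add_self (y.2 0 * z.2 0)
    have h2 : (1 : F) + 1 = 0 := F_add_self 1
    linear_combination h1 + h2
  have key : q.BM M y z = 1 → (y + z = QE.ones F E 0 ↔ y.1 = z.1) := by
    intro hb
    constructor
    · intro h
      have h1 := congrArg (fun y : QE.W F E => y.1) h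
      change y.1 + z.1 = 0 at h1
      have h2 : z.1 + z.1 = 0 := add_self_W (F := F) z.1
      exact add_right_cancel (h1.trans h2.symm)
    · intro h
      have h2 : y.1 + z.1 = 0 := by rw [h]; exact add_self_W (F := F) z.1
      have h3 : q.B3 y.1 z.1 = 0 := by
        have h4 := Q3_add q y.1 z.1
        have h5 : q.Q3 0 = 0 := by simp [QE.Q3, N_zero]
        rw [h2, h5, h, F_add_self, zero_add] at h4
        rw [h]; exact h4.symm
      rw [hB, h3, zero_add] at hb
      apply W_ext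
      · exact h2
      · intro k
        rw [Prod.snd_add, Pi.add_apply, ones_snd]
        rcases Nat.lt_trichotomy k 1 with h | h | h
        · have : k = 0 := by omega
          subst this
          rw [hb]; simp
        · rw [h, hy1, hz1, F_add_self]; simp
        · rw [hy.1 k (by omega), hz.1 k (by omega), if_neg (by omega), add_zero]
  constructor
  · intro h
    refine ⟨?_, ?_⟩
    · change q.B3 y.1 z.1 + y.2 0 + z.2 0 = 1
      rw [← hB]; exact h.1
    · intro h3
      exact h.2 Even.zero ((key h.1).mpr h3)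
  · intro h
    have h1 : q.BM M y z = 1 := by rw [hB]; exact h.1
    exact ⟨h1, fun _ h3 => h.2 ((key h1).mp h3)⟩

theorem SC_zero_XX [Fintype F] (hq : 4 ≤ Fintype.card F) {Ω : Type*} {R : Ω → Ω → Prop}
    {π : Ω → QE.W F E} (hc : Cover' (q.XX M 0) (q.AA M 0) (QE.SS 0) R π) :
    Function.Injective π := by
  have hc' := transport (X' := q.X4) (Adj' := q.Adj4) (Spec' := fun _ _ _ => False)
    (fun y => r4 y) (fun v => s4 v) (z_mem q hM) (z_mem' q hM)
    (fun v _ => z_rs hM v) (z_sr q hM) (z_adj q hM)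
    (fun x _ y _ z _ h => absurd h.1 (by decide)) hc
  have hc'' : Cover q.X4 q.Adj4 R ((fun y => r4 y) ∘ π) :=
    ⟨hc'.mem, hc'.symm, hc'.adj, hc'.lift, hc'.uniq, fun ω ω₁ ω₂ h1 h2 h3 =>
      hc'.tri ω ω₁ ω₂ h1 h2 h3 (fun h => h), hc'.conn⟩
  exact Function.Injective.of_comp (Pool.Agent.Helper76.YG.SC_four hq q hc'')

end zero

section final

variable {F E : Type*} [Field F] [CommRing E] [Algebra F E] [Nontrivial E] [CharP F 2]
  (q : QE F E)

theorem fin_XX [Finite F] (M i : ℕ) : (q.XX M i).Finite := by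
  have hE := finiteE q
  have hinj : Set.InjOn (fun y : QE.W F E => re F E (i + 2) y) (q.XX M i) := by
    intro y hy z hz h
    have h1 := congrArg (io F E (i + 2)) h
    change io F E (i + 2) (re F E (i + 2) y) = io F E (i + 2) (re F E (i + 2) z) at h1
    rwa [io_re _ _ (fun j hj => hy.1 j (by omega)), io_re _ _ (fun j hj => hz.1 j (by omega))]
      at h1
  exact Set.Finite.of_finite_image (Set.toFinite _) hinj

end final

theorem geo {F E : Type} [Field F] [Fintype F] [CharP F 2] [CommRing E] [Nontrivial E]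
    [Algebra F E] (h2 : (2 : E) = 0) (hq : 4 ≤ Fintype.card F) (q : QE F E) (K : ℕ) :
    Geo q K := by
  refine ⟨?_, ?_, ?_, ?_, ?_, ?_, ?_, ?_, ?_, ?_⟩
  · intro i hi Ω R π hc
    rcases Nat.even_or_odd i with he | ho
    · rcases Nat.eq_zero_or_pos i with rfl | hpos
      · exact SC_zero_XX q (by omega) hq hc
      · have : 2 ≤ i := by
          obtain ⟨r, rfl⟩ := he
          omega
        exact SC_ev_XX q (by omega) hq h2 he this hc
    · exact SC_odd_XX q (by omega) hq h2 ho hc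
  · intro i hi
    rcases Nat.even_or_odd i with he | ho
    · exact conn_ev_XX q (by omega) hq h2 he
    · exact conn_odd_XX q (by omega) hq h2 ho
  · intro i hi
    exact fin_XX q _ _
  · intro j hj y hy hadj
    exact nb_gen q (by omega) y hy hadj
  · intro j hj z hz h1 h2
    exact nb2_gen q (by omega) z hz h1 h2
  · intro hK y hy hadj
    exact nb0_gen q (by omega) y hy hadj
  · intro hK x _ hadj
    exact nb02_gen q (by omega) x hadj
  · intro i hi
    exact g_mem q (by omega)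
  · intro hK
    exact g_adj0 q (by omega)
  · intro j hj
    exact g_adj q (by omega)

end Pool.Agent.Helper35.YG
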