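import Mathlib
import Pool.Agent.Helper35.YG.MF
import Pool.Agent.Helper37.YGmodel
import Pool.Agent.Helper61.YGcomm

set_option autoImplicit false

open Matrix

namespace Pool.Agent.Helper35.YG

theorem main_field_of_geo {F E Γ : Type} [Field F] [Fintype F] [CharP F 2] [CommRing E]
    [Nontrivial E] [Algebra F E] [Group Γ] (h2 : (2 : E) = 0) (hq : 4 ≤ Fintype.card F)
    (q : QE F E) (φ : SpecialLinearGroup (Fin 2) E →* Γ) (τ : Γ) (s : ℕ → Γ) (K : ℕ)
    (G : Geo q K)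
    (hτ : τ * τ = 1) (hφτ : ∀ g, τ * φ g * τ = φ (q.barSL g)) (hs : ∀ j < K, s j * s j = 1)
    (hsτ : ∀ j < K, Commute (s j) τ)
    (hsd : ∀ j < K, Commute (s j) (φ (dd q.η (q.bar q.η) q.η_bar)))
    (hsu : ∀ j < K, ∀ e, Commute (s j) (φ (uu e)))
    (hsφ : ∀ j < K, 1 ≤ j → ∀ g, Commute (s j) (φ g))
    (hfar : ∀ i j, j < K → i + 2 ≤ j → Commute (s i) (s j))
    (hbr : ∀ j, j + 1 < K → s j * s (j + 1) * s j = s (j + 1) * s j * s (j + 1))
    (hbr0 : 0 < K → s 0 * (φ (JJ h2) * τ) * s 0 = (φ (JJ h2) * τ) * s 0 * (φ (JJ h2) * τ)) :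
    Finite (Subgroup.closure (Set.range φ ∪ {τ} ∪ {g | ∃ j < K, g = s j})) := by
  obtain ⟨gm, tm, sm, ⟨a1, a2, a3, a4, a5, a6, a7, a8, a9, a10⟩, b2, b3, b4, b5, b6, b60, b7, b8,
    b9, b10⟩ := Pool.Agent.Helper37.YGm.model (F := F) (E := E) h2 q K
  have hE : Finite E := by
    have hsurj : Function.Surjective
        (fun p : F × F => algebraMap F E p.1 + algebraMap F E p.2 * (q.η * q.η)) := by
      intro x
      obtain ⟨a, b, h⟩ := q.span x
      exact ⟨(a, b), h.symm⟩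
    exact Finite.of_surjective _ hsurj
  have hcard : 4 ≤ Nat.card F := by rwa [Nat.card_eq_fintype_card]
  have cm : ∀ {x x' : Γ} {y y' : QE.W F E ≃ₗ[F] QE.W F E}, Commute x x' → Commute y y' →
      Commute ((x, y) : Γ × (QE.W F E ≃ₗ[F] QE.W F E)) (x', y') := by
    intro x x' y y' h h'
    exact Prod.ext h h'
  let Φ : SpecialLinearGroup (Fin 2) E →* Γ × (QE.W F E ≃ₗ[F] QE.W F E) := φ.prod gm
  let D : MF q K (Γ × (QE.W F E ≃ₗ[F] QE.W F E)) :=
    { h2 := h2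
      φ := Φ
      τ := (τ, tm)
      s := fun j => (s j, sm j)
      act := MonoidHom.snd _ _
      hτ := Prod.ext hτ a1
      hφτ := fun g => Prod.ext (hφτ g) (a2 g)
      hs := fun j hj => Prod.ext (hs j hj) (a3 j hj)
      hsτ := fun j hj => cm (hsτ j hj) (a4 j hj)
      hsu := fun j hj e => cm (hsu j hj e) (a6 j hj e)
      htor := by
        intro ξ h hK
        exact Pool.Agent.Helper61.YG.comm_torus h2 hcard q Φ (τ, tm) (s 0, sm 0)
          (Prod.ext hτ a1) (Prod.ext (hs 0 hK) (a3 0 hK)) (fun g => Prod.ext (hφτ g) (a2 g))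
          (cm (hsτ 0 hK) (a4 0 hK)) (cm (hsd 0 hK) (a5 0 hK))
          (fun e => cm (hsu 0 hK e) (a6 0 hK e)) (Prod.ext (hbr0 hK) (a10 hK)) ξ h
      hsφ := fun j hj h1 g => cm (hsφ j hj h1 g) (a7 j hj h1 g)
      hfar := fun i j hj h1 => cm (hfar i j hj h1) (a8 i j hj h1)
      hbr := fun j hj => Prod.ext (hbr j hj) (a9 j hj)
      hbr0 := fun hK => Prod.ext (hbr0 hK) (a10 hK)
      mXφ := fun i hi y hy g => (b2 i hi y hy).1 g
      mXτ := fun i hi y hy => (b2 i hi y hy).2.1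
      mXs := fun i hi y hy j hj => (b2 i hi y hy).2.2 j hj
      mBφ := fun g y z => (b3 y z).1 g
      mBτ := fun y z => (b3 y z).2.1
      mBs := fun j hj y z => (b3 y z).2.2 j hj
      m1φ := fun i hi h1 g => (b4 i hi (by omega)).1 g
      m1τ := fun i hi h1 => (b4 i hi (by omega)).2.1
      m1s := fun i hi h1 j hj hjK => (b4 i hi (by omega)).2.2 j hj hjK
      moφ := fun i hi g => (b5 i hi).1 g
      moτ := fun i hi => (b5 i hi).2.1
      mos := fun i hi j hj => (b5 i hi).2.2 j hj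
      m6 := b6
      m60 := b60
      m7 := fun _ => b7
      m8 := fun _ => b8
      m9 := fun _ => b9
      m10 := fun _ => b10 }
  have hfin := D.finite_GG G
  have hmap : Subgroup.closure (Set.range φ ∪ {τ} ∪ {g | ∃ j < K, g = s j}) ≤
      (D.GG K).map (MonoidHom.fst Γ (QE.W F E ≃ₗ[F] QE.W F E)) := by
    rw [Subgroup.closure_le]
    rintro x ((⟨g, rfl⟩ | hx) | ⟨j, hj, rfl⟩)
    · exact ⟨D.φ g, D.φ_GG K g, rfl⟩
    · rw [Set.mem_singleton_iff] at hx
      subst hx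
      exact ⟨D.τ, D.τ_GG K, rfl⟩
    · exact ⟨D.s j, D.s_GG hj, rfl⟩
  have hfin2 : ((D.GG K).map (MonoidHom.fst Γ (QE.W F E ≃ₗ[F] QE.W F E)) : Set Γ).Finite := by
    rw [Subgroup.coe_map]
    exact Set.Finite.image _ (Set.toFinite _)
  exact (hfin2.subset hmap).to_subtype

end Pool.Agent.Helper35.YG
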