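import Mathlib
import Pool.Agent.Helper35.YG.MainField
import Pool.Agent.Helper35.YG.Final
import Pool.Agent.Helper35.YG.Triple
import Pool.Agent.Helper38.YGcomp
import Pool.Agent.Helper49.YGfield
import Pool.Agent.Helper30.YGQE
import Pool.Agent.Helper35.YG.ExYE

set_option autoImplicit false

open Polynomial Matrix

namespace Pool.Agent.Helper35.YG

theorem odd_of (hgeo : ∀ {F E : Type} [Field F] [Fintype F] [CharP F 2] [CommRing E]
    [Nontrivial E] [Algebra F E], (2 : E) = 0 → 4 ≤ Fintype.card F → ∀ (q : QE F E) (K : ℕ),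
    Geo q K)
    (n : ℕ) (hn : Odd n) (m : ℕ) : Finite (Y m n) := by
  rcases Nat.lt_or_ge m 3 with hm | hm
  · exact Y_le2_finite (by omega) hn.pos
  · obtain ⟨E, _, _, ε, bar, hε, hPh, hbar, D, hD⟩ := exists_YE (n := n) (m := m) hn
    refine Pool.Agent.Helper38.YG.comp_induction hn hm ?_ E ε bar hε hPh hbar (Y m n) D
      (by rw [hD]; exact closure_gen)
    intro E _ _ _ ε bar hε hPh hbar hfield Γ _ D hD
    refine Pool.Agent.Helper49.YG.field_case' ?_ ?_ ?_ hn hm E ε bar hε hPh hbar hfield Γ D hD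
    · intro n m hn E Γ _ _ _ ε hε hPh bar hbar D i j k hij hik hjk
      exact triple hn hε hPh bar hbar D i j k hij hik hjk
    · intro n hn E _ _ _ ε bar hε hPh hbar hfield
      exact exists_QE hn ε bar hε hPh hbar hfield
    · intro F E Γ _ _ _ _ _ _ _ h2 hq q φ τ s K hτ hφτ hs hsτ hsd hsu hsφ hfar hbr hbr0
      exact main_field_of_geo h2 hq q φ τ s K (hgeo h2 hq q K) hτ hφτ hs hsτ hsd hsu hsφ hfar
        hbr hbr0

theorem all_of_geo (hgeo : ∀ {F E : Type} [Field F] [Fintype F] [CharP F 2] [CommRing E]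
    [Nontrivial E] [Algebra F E], (2 : E) = 0 → 4 ≤ Fintype.card F → ∀ (q : QE F E) (K : ℕ),
    Geo q K) (m n : ℕ) (hn : 1 ≤ n) : Finite (Y m n) :=
  all_of_odd (odd_of hgeo) m n hn

end Pool.Agent.Helper35.YG
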